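import Pool.Agent.F5H.StmtsN

/-!
MP_f5cbfa_nt, block N: numerical facts common to the rows with `2 ≤ Q`, `log T ≤ Q`,
`Q ^ c ≤ T ^ (1 / 100000)`.
-/

set_option autoImplicit false

namespace Pool.Agent.Helper46_F5N

open Pool.Agent.F5H Pool.Agent.F5H.BN

/-- `T` is positive as soon as there is a family -/
theorem T_pos {T Q : ℝ} {V : Fin 3 → ℝ} (hQ : 0 ≤ Q) (hF : FamV Q T V)
    (h : 0 < T ^ (1 / 100000 : ℝ)) : 0 < T := by
  by_contra hT
  rw [not_lt] at hT
  rcases eq_or_lt_of_le hT with h0 | h0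
  · rw [h0, Real.zero_rpow (by norm_num)] at h
    exact lt_irrefl _ h
  · have h1 : Lx T ≤ 0 := by
      unfold Lx
      rw [Real.rpow_def_of_neg h0]
      have hpi := Real.pi_pos
      have hc : Real.cos ((277 / 500 : ℝ) * Real.pi) ≤ 0 :=
        Real.cos_nonpos_of_pi_div_two_le_of_le (by linarith) (by linarith)
      exact mul_nonpos_of_nonneg_of_nonpos (Real.exp_pos _).le hc
    have h2 := hF.h0
    have h3 := hF.h01
    have h4 := hF.h12
    have h5 := hF.h2
    have := mul_nonpos_of_nonneg_of_nonpos hQ h1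
    linarith

/-- `T ≥ 1` -/
theorem T_ge {T : ℝ} (hT : 0 < T) (h : 1 ≤ T ^ (1 / 100000 : ℝ)) : 1 ≤ T := by
  by_contra hc
  rw [not_le] at hc
  have := Real.rpow_lt_one hT.le hc (by norm_num : (0 : ℝ) < 1 / 100000)
  linarith

/-- absolute constants are smaller than `Q` -/
theorem Q_big {c : ℕ} {T Q : ℝ} (hT : 0 < T) (hQ : 2 ≤ Q) (hlog : Real.log T ≤ Q)
    (h : Q ^ c ≤ T ^ (1 / 100000 : ℝ)) : 60000 * (c : ℝ) ≤ Q := by
  have hQ0 : 0 < Q := by linarith
  have h1 := Real.log_le_log (by positivity) h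
  rw [Real.log_pow, Real.log_rpow hT] at h1
  have h2 : Real.log 2 ≤ Real.log Q := Real.log_le_log (by norm_num) hQ
  have h3 := Real.log_two_gt_d9
  have hc : (0 : ℝ) ≤ c := Nat.cast_nonneg c
  have h4 : (c : ℝ) * Real.log 2 ≤ c * Real.log Q := mul_le_mul_of_nonneg_left h2 hc
  have h5 : (c : ℝ) * (6 / 10) ≤ c * Real.log 2 := mul_le_mul_of_nonneg_left (by linarith) hc
  nlinarith

end Pool.Agent.Helper46_F5N
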