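import Pool.Agent.Helper46_F5N.Pairs
import Pool.Agent.Helper46_F5N.Num
import Pool.Agent.Helper38_F5.Ann
import Pool.Agent.Helper38_F5.Strip
import Pool.Agent.Helper38_F5.Short

/-!
MP_f5cbfa_nt, block N, case C: `DU2Stmt`.
-/

set_option autoImplicit false

open MeasureTheory

namespace Pool.Agent.Helper46_F5N

open Pool.Agent.Helper68_F5
open Pool.Agent.F5H.BN (NRC SC bare FamV g3 c3 DU2Stmt)

/-- number of triples in a ball -/
theorem hcard (hbox : BoxStmt) : ∃ K : ℝ, 1 ≤ K ∧ ∀ g : ℤ × ℤ →+ ℂ, Sep 1 g → ∀ U : ℝ, 1 ≤ U →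
    ∀ 𝓗 : Finset T3, (∀ h ∈ 𝓗, ‖g h.1‖ ≤ U ∧ ‖g h.2.1‖ ≤ U ∧ ‖g h.2.2‖ ≤ U) →
      (𝓗.card : ℝ) ≤ (K * U ^ 2) ^ 3 := by
  classical
  obtain ⟨K, hK, hbc⟩ := ball_count hbox 1 one_pos
  refine ⟨K, hK, ?_⟩
  intro g hg U hU 𝓗 h𝓗
  have hsub : 𝓗 ⊆ (𝓗.image (fun v => v.1)) ×ˢ ((𝓗.image (fun v => v.2.1)) ×ˢ
      (𝓗.image (fun v => v.2.2))) := by
    intro v hv
    rw [Finset.mem_product, Finset.mem_product]
    exact ⟨Finset.mem_image_of_mem _ hv, Finset.mem_image_of_mem (fun v : T3 => v.2.1) hv,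
      Finset.mem_image_of_mem (fun v : T3 => v.2.2) hv⟩
  have hc := Finset.card_le_card hsub
  rw [Finset.card_product, Finset.card_product] at hc
  have hc' : (𝓗.card : ℝ) ≤ ((𝓗.image (fun v => v.1)).card : ℝ) *
      (((𝓗.image (fun v => v.2.1)).card : ℝ) * ((𝓗.image (fun v => v.2.2)).card : ℝ)) := by
    exact_mod_cast hc
  have i1 : ((𝓗.image (fun v => v.1)).card : ℝ) ≤ K * U ^ 2 := by
    refine hbc g hg U 0 hU _ (fun z hz => ?_)
    rw [Finset.mem_image] at hz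
    obtain ⟨v, hv, rfl⟩ := hz
    rw [sub_zero]; exact (h𝓗 v hv).1
  have i2 : ((𝓗.image (fun v => v.2.1)).card : ℝ) ≤ K * U ^ 2 := by
    refine hbc g hg U 0 hU _ (fun z hz => ?_)
    rw [Finset.mem_image] at hz
    obtain ⟨v, hv, rfl⟩ := hz
    rw [sub_zero]; exact (h𝓗 v hv).2.1
  have i3 : ((𝓗.image (fun v => v.2.2)).card : ℝ) ≤ K * U ^ 2 := by
    refine hbc g hg U 0 hU _ (fun z hz => ?_)
    rw [Finset.mem_image] at hz
    obtain ⟨v, hv, rfl⟩ := hz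
    rw [sub_zero]; exact (h𝓗 v hv).2.2
  refine le_trans hc' ?_
  calc ((𝓗.image (fun v => v.1)).card : ℝ) * (((𝓗.image (fun v => v.2.1)).card : ℝ) *
        ((𝓗.image (fun v => v.2.2)).card : ℝ))
      ≤ (K * U ^ 2) * ((K * U ^ 2) * (K * U ^ 2)) := by
        refine mul_le_mul i1 (mul_le_mul i2 i3 (by positivity) (by positivity)) (by positivity)
          (by positivity)
    _ = _ := by ring

theorem tbH_norm {g : ℤ × ℤ →+ ℂ} {T Q U : ℝ} {h : T3} {m : ℂ × ℂ × ℂ} (hT : 0 < T)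
    (hQT : Q ≤ T ^ 2) (hm : m ∈ TbH g T Q U h) :
    ‖m.1‖ ≤ 2 * T ∧ ‖m.2.1‖ ≤ 2 * T ∧ ‖m.2.2‖ ≤ 2 * T := by
  obtain ⟨a1, a2, a3, -⟩ := hm
  have one : ∀ {x z : ℂ}, |‖x‖ ^ 2 - (T ^ 2 - ‖z‖ ^ 2 / 4)| ≤ Q → ‖x‖ ≤ 2 * T := by
    intro x z hx
    have h1 := (abs_le.1 hx).2
    have h2 : 0 ≤ ‖z‖ ^ 2 := by positivity
    by_contra hc
    rw [not_le] at hc
    nlinarith [norm_nonneg x]
  exact ⟨one a1, one a2, one a3⟩

theorem tbH_mono {g : ℤ × ℤ →+ ℂ} {T Q Q' U : ℝ} {h : T3} (hU : 0 ≤ U) (hQ : Q ≤ Q') :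
    TbH g T Q U h ⊆ TbH g T Q' U h := by
  rintro m ⟨a1, a2, a3, a4, a5, a6⟩
  have := mul_le_mul_of_nonneg_right hQ hU
  exact ⟨by linarith, by linarith, by linarith, by linarith, by linarith, by linarith⟩

/-- the finite sum, abstract form -/
theorem core_sum {g : ℤ × ℤ →+ ℂ} {T Q U μ R₁ ρ r K₁ Xh A C N : ℝ} {J : ℕ} (hK₁ : 0 ≤ K₁)
    (hg : Sep 1 g)
    (hvs : ∀ g : ℤ × ℤ →+ ℂ, Sep 1 g → ∀ (P T R' : ℝ), 1 ≤ P → 1 ≤ T → 0 ≤ R' →
      ∀ E : Set (ℂ × ℂ × ℂ), MeasurableSet E →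
      (∀ m ∈ E, ‖m.1‖ ≤ 2 * T ∧ ‖m.2.1‖ ≤ 2 * T ∧ ‖m.2.2‖ ≤ 2 * T) → ∀ 𝓥 : Finset T3,
      ∑ v ∈ 𝓥, volume (E ∩ {m | Near g P T R' m v}) ≤
        ENNReal.ofReal (K₁ * P ^ 6 * (R' + 1)) * volume E)
    (p : PC T (2 * Q) U μ J) (hQ : 1 ≤ Q) (hR₁ : 0 ≤ R₁) (hr : 0 ≤ r) (hρ : 0 < ρ)
    (hQT : 2 * Q ≤ T ^ 2) (hUT : U ^ 2 + Q ≤ T ^ 2 / 2)
    (hX0 : 0 ≤ Xh) (hX : 2 ^ 23 * (J + 1) * (2 * Q) ^ 7 / (ρ * T) ≤ Xh) (hA : 0 ≤ A) (hC : 0 ≤ C)
    (𝓗 𝓥 : Finset T3) (hf : ∀ h ∈ 𝓗, Fam g μ U h) (hA' : (𝓗.card : ℝ) ≤ A)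
    (hC' : ∀ 𝓟 : Finset (T3 × T3), (∀ q ∈ 𝓟, q.1 ∈ 𝓥 ∧ q.2 ∈ 𝓗 ∧ r < ‖g q.1.1‖ ∧
      ∃ m, NRC Q T R₁ g q.2 q.1 m) → (𝓟.card : ℝ) ≤ C)
    (hN0 : 0 ≤ N)
    (hN : ∑ h ∈ 𝓗, volume (TbH g T (2 * Q) U h ∩ Low g ρ h) ≤ ENNReal.ofReal N) :
    ∑ h ∈ 𝓗, ∑ v ∈ 𝓥, volume {m : ℂ × ℂ × ℂ | NRC Q T R₁ g h v m} ≤
      ENNReal.ofReal (K₁ * Q ^ 6 * (Q * R₁ + 1) * N +
        (K₁ * Q ^ 6 * (2 * (r + Q) + 1) * (A * Xh) + C * Xh)) := by
  classical
  have hT := p.hT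
  have hT0 : 0 < T := by linarith
  have hU0 : 0 ≤ U := by linarith [p.hV]
  obtain ⟨S₁, hS₁⟩ : ∃ S₁ : T3 → Set (ℂ × ℂ × ℂ), S₁ = fun h => TbH g T (2 * Q) U h ∩ Low g ρ h :=
    ⟨_, rfl⟩
  obtain ⟨S₂, hS₂⟩ : ∃ S₂ : T3 → Set (ℂ × ℂ × ℂ), S₂ = fun h => TbH g T (2 * Q) U h ∩ High g ρ h :=
    ⟨_, rfl⟩
  have hS₁v : ∀ h, ∑ v ∈ 𝓥, volume (S₁ h ∩ {m | Near g Q T (Q * R₁) m v}) ≤
      ENNReal.ofReal (K₁ * Q ^ 6 * (Q * R₁ + 1)) * volume (S₁ h) := by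
    intro h
    refine hvs g hg Q T (Q * R₁) hQ hT (by positivity) (S₁ h) (by rw [hS₁]; exact meas_low g ρ h) ?_ 𝓥
    intro m hm
    rw [hS₁] at hm
    exact tbH_norm hT0 hQT hm.1
  have hS₂v : ∀ h, ∑ v ∈ 𝓥, volume (S₂ h ∩ {m | Near g Q T (2 * (r + Q)) m v}) ≤
      ENNReal.ofReal (K₁ * Q ^ 6 * (2 * (r + Q) + 1)) * volume (S₂ h) := by
    intro h
    refine hvs g hg Q T (2 * (r + Q)) hQ hT (by positivity) (S₂ h)
      (by rw [hS₂]; exact meas_high g ρ h) ?_ 𝓥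
    intro m hm
    rw [hS₂] at hm
    exact tbH_norm hT0 hQT hm.1
  have hS₂x : ∀ h ∈ 𝓗, volume (S₂ h) ≤ ENNReal.ofReal Xh := by
    intro h hh
    rw [hS₂]
    exact le_trans (high_vol p (hf h hh) hρ) (ENNReal.ofReal_le_ofReal hX)
  obtain ⟨D, hD⟩ : ∃ D : T3 → T3 → ENNReal, D = fun h v =>
    if (r < ‖g v.1‖ ∧ ∃ m, NRC Q T R₁ g h v m) then ENNReal.ofReal Xh else 0 := ⟨_, rfl⟩
  -- pointwise
  have hpt : ∀ h ∈ 𝓗, ∀ v ∈ 𝓥, volume {m : ℂ × ℂ × ℂ | NRC Q T R₁ g h v m} ≤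
      volume (S₁ h ∩ {m | Near g Q T (Q * R₁) m v}) +
        (volume (S₂ h ∩ {m | Near g Q T (2 * (r + Q)) m v}) + D h v) := by
    intro h hh v _
    have f := hf h hh
    have htb : ∀ m, NRC Q T R₁ g h v m → m ∈ TbH g T (2 * Q) U h := fun m hm =>
      tbH_mono hU0 (by linarith) (nrc_tb hm (by linarith) f.u₁ f.u₂ f.u₃)
    by_cases hv : ‖g v.1‖ ≤ r
    · refine le_trans (measure_mono (t := (S₁ h ∩ {m | Near g Q T (Q * R₁) m v}) ∪
        (S₂ h ∩ {m | Near g Q T (2 * (r + Q)) m v})) ?_) (le_trans (measure_union_le _ _) ?_)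
      · intro m hm
        rw [Set.mem_ofPred_eq] at hm
        rcases low_or_high g ρ h m with h3 | h3
        · left
          refine ⟨?_, nrc_near hm⟩
          rw [hS₁]; exact ⟨htb m hm, h3⟩
        · right
          refine ⟨?_, nrc_near_small hm hT0 hUT f.u₁ hv⟩
          rw [hS₂]; exact ⟨htb m hm, h3⟩
      · exact add_le_add le_rfl (le_add_of_nonneg_right (by positivity))
    · rw [not_le] at hv
      by_cases hex : ∃ m, NRC Q T R₁ g h v m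
      · have hDv : D h v = ENNReal.ofReal Xh := by
          rw [hD]
          show ite _ _ _ = _
          rw [if_pos ⟨hv, hex⟩]
        refine le_trans (measure_mono (t := (S₁ h ∩ {m | Near g Q T (Q * R₁) m v}) ∪ S₂ h) ?_)
          (le_trans (measure_union_le _ _) ?_)
        · intro m hm
          rw [Set.mem_ofPred_eq] at hm
          rcases low_or_high g ρ h m with h3 | h3
          · left
            refine ⟨?_, nrc_near hm⟩
            rw [hS₁]; exact ⟨htb m hm, h3⟩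
          · right
            rw [hS₂]; exact ⟨htb m hm, h3⟩
        · refine add_le_add le_rfl ?_
          rw [hDv]
          exact le_trans (hS₂x h hh) (le_add_of_nonneg_left (by positivity))
      · have : {m : ℂ × ℂ × ℂ | NRC Q T R₁ g h v m} = ∅ := by
          ext m
          simp only [Set.mem_ofPred_eq, Set.mem_empty_iff_false, iff_false]
          exact fun hm => hex ⟨m, hm⟩
        rw [this, measure_empty]
        positivity
  refine le_trans (Finset.sum_le_sum fun h hh => Finset.sum_le_sum fun v hv => hpt h hh v hv) ?_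
  have e1 : ∑ h ∈ 𝓗, ∑ v ∈ 𝓥, (volume (S₁ h ∩ {m | Near g Q T (Q * R₁) m v}) +
        (volume (S₂ h ∩ {m | Near g Q T (2 * (r + Q)) m v}) + D h v)) =
      ∑ h ∈ 𝓗, ∑ v ∈ 𝓥, volume (S₁ h ∩ {m | Near g Q T (Q * R₁) m v}) +
        (∑ h ∈ 𝓗, ∑ v ∈ 𝓥, volume (S₂ h ∩ {m | Near g Q T (2 * (r + Q)) m v}) +
          ∑ h ∈ 𝓗, ∑ v ∈ 𝓥, D h v) := by
    simp only [Finset.sum_add_distrib]
  rw [e1]
  have t1 : ∑ h ∈ 𝓗, ∑ v ∈ 𝓥, volume (S₁ h ∩ {m | Near g Q T (Q * R₁) m v}) ≤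
      ENNReal.ofReal (K₁ * Q ^ 6 * (Q * R₁ + 1) * N) := by
    refine le_trans (Finset.sum_le_sum fun h _ => hS₁v h) ?_
    rw [← Finset.mul_sum, ENNReal.ofReal_mul (p := K₁ * Q ^ 6 * (Q * R₁ + 1)) (by positivity)]
    refine mul_le_mul' le_rfl ?_
    rw [hS₁]
    exact hN
  have t2 : ∑ h ∈ 𝓗, ∑ v ∈ 𝓥, volume (S₂ h ∩ {m | Near g Q T (2 * (r + Q)) m v}) ≤
      ENNReal.ofReal (K₁ * Q ^ 6 * (2 * (r + Q) + 1) * (A * Xh)) := by
    refine le_trans (Finset.sum_le_sum fun h _ => hS₂v h) ?_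
    rw [← Finset.mul_sum, ENNReal.ofReal_mul (p := K₁ * Q ^ 6 * (2 * (r + Q) + 1)) (by positivity)]
    refine mul_le_mul' le_rfl ?_
    refine le_trans (Finset.sum_le_sum fun h hh => hS₂x h hh) ?_
    rw [Finset.sum_const, nsmul_eq_mul, ← ENNReal.ofReal_natCast,
      ← ENNReal.ofReal_mul (by positivity)]
    exact ENNReal.ofReal_le_ofReal (mul_le_mul_of_nonneg_right hA' hX0)
  have t3 : ∑ h ∈ 𝓗, ∑ v ∈ 𝓥, D h v ≤ ENNReal.ofReal (C * Xh) := by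
    obtain ⟨𝓟, h𝓟⟩ : ∃ 𝓟 : Finset (T3 × T3), 𝓟 = (𝓥 ×ˢ 𝓗).filter
      (fun q => r < ‖g q.1.1‖ ∧ ∃ m, NRC Q T R₁ g q.2 q.1 m) := ⟨_, rfl⟩
    have e2 : ∑ h ∈ 𝓗, ∑ v ∈ 𝓥, D h v = ∑ _q ∈ 𝓟, ENNReal.ofReal Xh := by
      rw [Finset.sum_comm, ← Finset.sum_product', h𝓟, Finset.sum_filter, hD]
    rw [e2, Finset.sum_const, nsmul_eq_mul, ← ENNReal.ofReal_natCast,
      ← ENNReal.ofReal_mul (by positivity)]
    refine ENNReal.ofReal_le_ofReal (mul_le_mul_of_nonneg_right (hC' 𝓟 ?_) hX0)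
    intro q hq
    rw [h𝓟, Finset.mem_filter, Finset.mem_product] at hq
    exact ⟨hq.1.1, hq.1.2, hq.2.1, hq.2.2⟩
  rw [ENNReal.ofReal_add (by positivity) (by positivity),
    ENNReal.ofReal_add (by positivity) (by positivity)]
  exact add_le_add t1 (add_le_add t2 t3)

theorem du2 : DU2Stmt := by
  classical
  obtain ⟨K₁, hK₁, hvs⟩ := vsum Helper38_F5.box 1 one_pos
  obtain ⟨K₂, hK₂, hss⟩ := sing_sum Helper38_F5.box Helper38_F5.ann 1 one_pos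
  obtain ⟨K₃, hK₃, hpc⟩ := pairs_card Helper38_F5.strip Helper38_F5.discStrip Helper38_F5.box
    Helper38_F5.ann Helper38_F5.annStrip Helper38_F5.short
  obtain ⟨K₄, hK₄, hhc⟩ := hcard Helper38_F5.box
  obtain ⟨N, hN⟩ := exists_nat_ge (K₁ + K₂ + K₃ + K₄)
  refine ⟨N + 1000, ?_⟩
  intro T Q hQ2 hlog hQc g V R₁ hg _ hF hiso hR₁u hR₁l
  have hQ : 1 ≤ Q := by linarith
  have hQ0 : 0 < Q := by linarith
  have hτ1 : 1 ≤ T ^ (1 / 100000 : ℝ) := le_trans (one_le_pow₀ hQ) hQc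
  have hT0 : 0 < T := T_pos hQ0.le hF (by linarith)
  have hT : 1 ≤ T := T_ge hT0 hτ1
  have hbig := Q_big hT0 hQ2 hlog hQc
  push_cast at hbig
  have hNn : (0 : ℝ) ≤ N := Nat.cast_nonneg N
  have hQbig : 60000000 ≤ Q := by linarith
  have k1 : K₁ ≤ Q := by linarith
  have k2 : K₂ ≤ Q := by linarith
  have k3 : K₃ ≤ Q := by linarith
  have k4 : K₄ ≤ Q := by linarith
  -- the variable `x`, `T = x ^ 1000`
  obtain ⟨x, hx⟩ : ∃ x : ℝ, x = T ^ (1 / 1000 : ℝ) := ⟨_, rfl⟩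
  have hx0 : 0 < x := by rw [hx]; exact Real.rpow_pos_of_pos hT0 _
  have hxp : ∀ k : ℕ, x ^ k = T ^ ((k : ℝ) / 1000) := by
    intro k
    rw [hx, ← Real.rpow_natCast, ← Real.rpow_mul hT0.le]
    congr 1
    ring
  have hxT : x ^ 1000 = T := by
    rw [hxp 1000]; norm_num
  have hQx : Q ^ 1000 ≤ x := by
    calc Q ^ 1000 ≤ Q ^ (N + 1000) := pow_le_pow_right₀ hQ (by omega)
      _ ≤ T ^ (1 / 100000 : ℝ) := hQc
      _ ≤ T ^ (1 / 1000 : ℝ) := Real.rpow_le_rpow_of_exponent_le hT (by norm_num)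
      _ = x := hx.symm
  have hQk : ∀ k : ℕ, k ≤ 1000 → Q ^ k ≤ x := fun k hk =>
    le_trans (pow_le_pow_right₀ hQ hk) hQx
  have hx1 : 1 ≤ x := le_trans (one_le_pow₀ hQ) hQx
  have hxk : ∀ {a b : ℕ}, a ≤ b → x ^ a ≤ x ^ b := fun h => pow_le_pow_right₀ hx1 h
  have hQ1x : Q ≤ x := by have := hQk 1 (by norm_num); rwa [pow_one] at this
  -- sizes
  obtain ⟨U, hU⟩ : ∃ U, U = V 0 := ⟨_, rfl⟩
  have hV2 := hF.h2
  have hV12 := hF.h12
  have hV01 := hF.h01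
  rw [← hU] at hiso hV01
  have hU1 : 1 ≤ U := by linarith
  have hU0 : 0 < U := by linarith
  have hUx : U ≤ x ^ 340 := by
    have a1 : T ^ (677 / 2000 : ℝ) ≤ x ^ 339 := by
      rw [hxp 339]
      exact Real.rpow_le_rpow_of_exponent_le hT (by norm_num)
    calc U ≤ Q * V 2 := hiso
      _ ≤ Q * V 1 := mul_le_mul_of_nonneg_left hV12 hQ0.le
      _ ≤ Q * (Q * T ^ (677 / 2000 : ℝ)) := mul_le_mul_of_nonneg_left hF.h1 hQ0.le
      _ ≤ Q * (Q * x ^ 339) := by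
          refine mul_le_mul_of_nonneg_left (mul_le_mul_of_nonneg_left a1 hQ0.le) hQ0.le
      _ = Q ^ 2 * x ^ 339 := by ring
      _ ≤ x * x ^ 339 := mul_le_mul_of_nonneg_right (hQk 2 (by norm_num)) (by positivity)
      _ = x ^ 340 := by ring
  -- the length
  obtain ⟨b, hb⟩ : ∃ b, b = bare T V := ⟨_, rfl⟩
  have hb1 : 1 ≤ b := by rw [hb]; exact le_max_left _ _
  have hbU : U ^ 6 / T ^ 2 ≤ Q ^ 4 * b := by
    have a1 : U / Q ≤ V 2 := by rw [div_le_iff₀ hQ0]; linarith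
    have a2 : U * (U / Q) * (U / Q) ≤ V 0 * V 1 * V 2 := by
      rw [← hU]
      have : 0 ≤ U / Q := by positivity
      exact mul_le_mul (mul_le_mul_of_nonneg_left (by linarith) hU0.le) a1 this
        (mul_nonneg hU0.le (by linarith))
    have a3 : (U * (U / Q) * (U / Q) / T) ^ 2 ≤ b := by
      rw [hb]
      refine le_trans ?_ (le_max_right _ _)
      exact pow_le_pow_left₀ (by positivity) (div_le_div_of_nonneg_right a2 hT0.le) 2
    calc U ^ 6 / T ^ 2 = Q ^ 4 * (U * (U / Q) * (U / Q) / T) ^ 2 := by field_simp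
      _ ≤ Q ^ 4 * b := mul_le_mul_of_nonneg_left a3 (by positivity)
  have hbx : b ≤ x ^ 40 := by
    rw [hb]
    refine max_le (one_le_pow₀ hx1) ?_
    have a1 : V 0 * V 1 * V 2 ≤ U * U * U := by
      rw [← hU]
      exact mul_le_mul (mul_le_mul_of_nonneg_left hV01 hU0.le) (by linarith) (by linarith)
        (by positivity)
    have a2 : U * U * U ≤ x ^ 1020 := by
      calc U * U * U ≤ x ^ 340 * x ^ 340 * x ^ 340 :=
            mul_le_mul (mul_le_mul hUx hUx hU0.le (by positivity)) hUx hU0.le (by positivity)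
        _ = x ^ 1020 := by ring
    have a3 : V 0 * V 1 * V 2 / T ≤ x ^ 20 := by
      rw [div_le_iff₀ hT0]
      calc V 0 * V 1 * V 2 ≤ x ^ 1020 := le_trans a1 a2
        _ = x ^ 20 * x ^ 1000 := by ring
        _ = x ^ 20 * T := by rw [hxT]
    have a4 : 0 ≤ V 0 * V 1 * V 2 / T := by
      rw [← hU]
      have : 0 ≤ V 1 := by linarith
      have : 0 ≤ V 2 := by linarith
      positivity
    calc (V 0 * V 1 * V 2 / T) ^ 2 ≤ (x ^ 20) ^ 2 := pow_le_pow_left₀ a4 a3 2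
      _ = x ^ 40 := by ring
  have hT50 : T ^ (1 / 50 : ℝ) = x ^ 20 := by
    rw [hxp 20]; norm_num
  rw [hT50, ← hb] at hR₁u hR₁l
  have hxb : 1 ≤ x ^ 20 * b := by
    calc (1 : ℝ) ≤ x ^ 20 := one_le_pow₀ hx1
      _ ≤ x ^ 20 * b := le_mul_of_one_le_right (by positivity) hb1
  have hR₁1 : 1 ≤ R₁ := by
    have a1 : Q ≤ x ^ 20 * b := by
      calc Q ≤ x := hQ1x
        _ = x ^ 1 * 1 := by ring
        _ ≤ x ^ 20 * b := mul_le_mul (hxk (by norm_num)) hb1 zero_le_one (by positivity)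
    have : Q * 1 ≤ Q * R₁ := by linarith
    exact le_of_mul_le_mul_left this hQ0
  have hR₁0 : 0 < R₁ := by linarith
  have hR₁x : R₁ ≤ x ^ 61 := by
    calc R₁ ≤ Q * (x ^ 20 * b) := hR₁u
      _ ≤ x * (x ^ 20 * x ^ 40) :=
          mul_le_mul hQ1x (mul_le_mul_of_nonneg_left hbx (by positivity)) (by positivity) hx0.le
      _ = x ^ 61 := by ring
  -- `J`
  obtain ⟨J, hJ⟩ : ∃ J : ℕ, J = ⌈Real.log T⌉₊ := ⟨_, rfl⟩
  have hlogT0 := Real.log_nonneg hT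
  have hJ1 : (J : ℝ) ≤ Q + 1 := by
    have := Nat.ceil_lt_add_one hlogT0
    rw [hJ]
    linarith
  have hJT : T ≤ 4 ^ J := by
    have a1 : Real.log T ≤ J := by rw [hJ]; exact Nat.le_ceil _
    calc T = Real.exp (Real.log T) := (Real.exp_log hT0).symm
      _ ≤ Real.exp (J : ℝ) := Real.exp_le_exp.2 a1
      _ = (Real.exp 1) ^ J := by rw [← Real.exp_nat_mul, mul_one]
      _ ≤ 4 ^ J := pow_le_pow_left₀ (Real.exp_pos _).le (by linarith [Real.exp_one_lt_d9]) J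
  have hT2000 : T ^ 2 = x ^ 2000 := by rw [← hxT]; ring
  have hx6 : 60000000 ≤ x := le_trans hQbig hQ1x
  -- parameters
  have hp : PC T (2 * Q) U (V 2 / 2) J := by
    refine ⟨hT, by linarith, ?_, hU1, by linarith, by linarith, ?_, ?_, ?_⟩
    · rw [hT2000]
      calc 8 * (2 * Q) = 16 * Q := by ring
        _ ≤ x * x := mul_le_mul (by linarith) hQ1x hQ0.le hx0.le
        _ = x ^ 2 := by ring
        _ ≤ x ^ 2000 := hxk (by norm_num)
    · rw [hT2000]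
      calc U ^ 2 ≤ (x ^ 340) ^ 2 := pow_le_pow_left₀ hU0.le hUx 2
        _ = x ^ 680 := by ring
        _ ≤ x ^ 2000 := hxk (by norm_num)
    · have a0 : U ≤ 2 * Q * U := le_mul_of_one_le_left hU0.le (by linarith)
      have a1 : V 2 / 2 ≤ 2 * Q * U := by linarith
      calc V 2 / 2 * T ≤ (2 * Q * U) * 4 ^ J :=
            mul_le_mul a1 hJT hT0.le (by positivity)
        _ = 4 ^ J * (2 * Q * U) := by ring
    · rw [div_le_one hT0]
      have a1 : U * (U ^ 2 + 2 * Q) ≤ 2 * x ^ 1020 := by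
        have b1 : U ^ 2 ≤ x ^ 680 := by
          calc U ^ 2 ≤ (x ^ 340) ^ 2 := pow_le_pow_left₀ hU0.le hUx 2
            _ = x ^ 680 := by ring
        have b2 : 2 * Q ≤ x ^ 680 := by
          calc 2 * Q ≤ x * x := mul_le_mul (by linarith) hQ1x hQ0.le hx0.le
            _ = x ^ 2 := by ring
            _ ≤ x ^ 680 := hxk (by norm_num)
        calc U * (U ^ 2 + 2 * Q) ≤ x ^ 340 * (x ^ 680 + x ^ 680) :=
              mul_le_mul hUx (by linarith) (by positivity) (by positivity)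
          _ = 2 * x ^ 1020 := by ring
      have a2 : U * (U ^ 2 + 2 * Q) / T ≤ 2 * x ^ 20 := by
        rw [div_le_iff₀ hT0]
        calc U * (U ^ 2 + 2 * Q) ≤ 2 * x ^ 1020 := a1
          _ = 2 * x ^ 20 * x ^ 1000 := by ring
          _ = 2 * x ^ 20 * T := by rw [hxT]
      have a3 : 2 * Q * U ≤ x ^ 342 := by
        calc 2 * Q * U ≤ (x * x) * x ^ 340 := by
              refine mul_le_mul ?_ hUx hU0.le (by positivity)
              exact mul_le_mul (by linarith) hQ1x hQ0.le hx0.le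
          _ = x ^ 342 := by ring
      have a4 : x ^ 342 + 4 * x ^ 20 ≤ T := by
        rw [← hxT]
        have c1 : x ^ 20 ≤ x ^ 342 := hxk (by norm_num)
        have c2 : 5 * x ^ 342 ≤ x * x ^ 342 := mul_le_mul_of_nonneg_right (by linarith) (by positivity)
        have c3 : x * x ^ 342 = x ^ 343 := by ring
        have c4 : x ^ 343 ≤ x ^ 1000 := hxk (by norm_num)
        linarith
      linarith
  -- the threshold
  obtain ⟨I, hI1, hI2⟩ := exists_nat_pow_near (one_le_pow₀ hx1 (n := 480)) (by norm_num : (1 : ℝ) < 2)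
  obtain ⟨ρ, hρ⟩ : ∃ ρ : ℝ, ρ = 2 ^ I * x ^ 500 := ⟨_, rfl⟩
  have hρ0 : 0 < ρ := by rw [hρ]; positivity
  have hρu : ρ ≤ x ^ 980 := by
    rw [hρ]
    calc 2 ^ I * x ^ 500 ≤ x ^ 480 * x ^ 500 := mul_le_mul_of_nonneg_right hI1 (by positivity)
      _ = x ^ 980 := by ring
  have hρl : x ^ 980 ≤ 2 * ρ := by
    rw [hρ]
    calc x ^ 980 = x ^ 480 * x ^ 500 := by ring
      _ ≤ 2 ^ (I + 1) * x ^ 500 := mul_le_mul_of_nonneg_right hI2.le (by positivity)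
      _ = 2 * (2 ^ I * x ^ 500) := by rw [pow_succ]; ring
  have hlog2 := Real.log_two_gt_d9
  have hpow : ∀ k : ℕ, (2 : ℝ) ^ k ≤ T → (k : ℝ) ≤ 2 * Q := by
    intro k hk
    have a1 := Real.log_le_log (by positivity) hk
    rw [Real.log_pow] at a1
    have a2 : (k : ℝ) * (1 / 2) ≤ k * Real.log 2 :=
      mul_le_mul_of_nonneg_left (by linarith) (Nat.cast_nonneg k)
    linarith
  have hIQ : (I : ℝ) ≤ 2 * Q := by
    refine hpow I (le_trans hI1 ?_)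
    rw [← hxT]
    exact hxk (by norm_num)
  -- `r`
  obtain ⟨r, hr⟩ : ∃ r : ℝ, r = 18432 * (4 * Q) ^ 3 := ⟨_, rfl⟩
  have hr1 : 1 ≤ r := by
    have : 1 ≤ Q ^ 3 := one_le_pow₀ hQ
    calc (1 : ℝ) ≤ 1179648 * Q ^ 3 := by linarith
      _ = r := by rw [hr]; ring
  have hrQ : r ≤ Q ^ 4 := by
    rw [hr]
    calc 18432 * (4 * Q) ^ 3 = 1179648 * Q ^ 3 := by ring
      _ ≤ Q * Q ^ 3 := mul_le_mul_of_nonneg_right (by linarith) (by positivity)
      _ = Q ^ 4 := by ring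
  have hQR : (1 : ℝ) ≤ Q * R₁ := by
    calc (1 : ℝ) ≤ Q := hQ
      _ ≤ Q * R₁ := le_mul_of_one_le_right hQ0.le hR₁1
  -- `n`
  obtain ⟨n, hn1, hn2⟩ := exists_nat_pow_near (show (1 : ℝ) ≤ 3 * (Q * R₁) by linarith)
    (by norm_num : (1 : ℝ) < 2)
  have h3QR : 3 * (Q * R₁) ≤ x ^ 63 := by
    calc 3 * (Q * R₁) = 3 * Q * R₁ := by ring
      _ ≤ (x * x) * x ^ 61 := by
          refine mul_le_mul ?_ hR₁x hR₁0.le (by positivity)
          exact mul_le_mul (by linarith) hQ1x hQ0.le hx0.le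
      _ = x ^ 63 := by ring
  have hnQ : (n : ℝ) ≤ 2 * Q := by
    refine hpow n (le_trans hn1 (le_trans h3QR ?_))
    rw [← hxT]
    exact hxk (by norm_num)
  have hRn : 2 ^ (n + 1) * r ≤ x ^ 65 := by
    have a1 : (2 : ℝ) ^ (n + 1) ≤ 2 * x ^ 63 := by rw [pow_succ]; linarith
    calc 2 ^ (n + 1) * r ≤ (2 * x ^ 63) * x :=
          mul_le_mul a1 (le_trans hrQ (hQk 4 (by norm_num))) (by linarith) (by positivity)
      _ = 2 * x ^ 64 := by ring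
      _ ≤ x * x ^ 64 := mul_le_mul_of_nonneg_right (by linarith) (by positivity)
      _ = x ^ 65 := by ring
  have hRn0 : 0 < 2 ^ (n + 1) * r := by positivity
  have hUT : U ^ 2 + Q ≤ T ^ 2 / 2 := by
    rw [hT2000]
    have b1 : U ^ 2 ≤ x ^ 680 := by
      calc U ^ 2 ≤ (x ^ 340) ^ 2 := pow_le_pow_left₀ hU0.le hUx 2
        _ = x ^ 680 := by ring
    have b2 : Q ≤ x ^ 680 := by
      calc Q ≤ x ^ 1 := by rw [pow_one]; exact hQ1x
        _ ≤ x ^ 680 := hxk (by norm_num)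
    have b3 : 4 * x ^ 680 ≤ x * x ^ 680 := mul_le_mul_of_nonneg_right (by linarith) (by positivity)
    have b4 : x * x ^ 680 = x ^ 681 := by ring
    have b5 : x ^ 681 ≤ x ^ 2000 := hxk (by norm_num)
    linarith
  have hQRU : Q * R₁ * (U ^ 2 + Q) ≤ T ^ 2 := by
    rw [hT2000]
    have b1 : U ^ 2 ≤ x ^ 680 := by
      calc U ^ 2 ≤ (x ^ 340) ^ 2 := pow_le_pow_left₀ hU0.le hUx 2
        _ = x ^ 680 := by ring
    have b2 : Q ≤ x ^ 680 := by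
      calc Q ≤ x ^ 1 := by rw [pow_one]; exact hQ1x
        _ ≤ x ^ 680 := hxk (by norm_num)
    have b3 : Q * R₁ ≤ x ^ 63 := by linarith
    calc Q * R₁ * (U ^ 2 + Q) ≤ x ^ 63 * (2 * x ^ 680) :=
          mul_le_mul b3 (by linarith) (by positivity) (by positivity)
      _ = 2 * x ^ 743 := by ring
      _ ≤ x * x ^ 743 := mul_le_mul_of_nonneg_right (by linarith) (by positivity)
      _ = x ^ 744 := by ring
      _ ≤ x ^ 2000 := hxk (by norm_num)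
  -- the two bounds
  obtain ⟨Xh, hXh⟩ : ∃ Xh : ℝ, Xh = Q ^ 10 / x ^ 1980 := ⟨_, rfl⟩
  have hXh0 : 0 ≤ Xh := by rw [hXh]; positivity
  have hX : 2 ^ 23 * ((J : ℝ) + 1) * (2 * Q) ^ 7 / (ρ * T) ≤ Xh := by
    rw [hXh, div_le_div_iff₀ (by positivity) (by positivity)]
    have a1 : (J : ℝ) + 1 ≤ 2 * Q := by linarith
    have a2 : x ^ 1980 ≤ 2 * (ρ * T) := by
      rw [← hxT]
      calc x ^ 1980 = x ^ 980 * x ^ 1000 := by ring
        _ ≤ (2 * ρ) * x ^ 1000 := mul_le_mul_of_nonneg_right hρl (by positivity)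
        _ = 2 * (ρ * x ^ 1000) := by ring
    have a3 : 2 ^ 23 * ((J : ℝ) + 1) * (2 * Q) ^ 7 ≤ 2 ^ 31 * Q ^ 8 := by
      calc 2 ^ 23 * ((J : ℝ) + 1) * (2 * Q) ^ 7 ≤ 2 ^ 23 * (2 * Q) * (2 * Q) ^ 7 := by
            refine mul_le_mul_of_nonneg_right ?_ (by positivity)
            exact mul_le_mul_of_nonneg_left a1 (by positivity)
        _ = 2 ^ 31 * Q ^ 8 := by ring
    have a4 : (2 : ℝ) ^ 32 ≤ Q ^ 2 := by
      calc (2 : ℝ) ^ 32 ≤ 60000000 ^ 2 := by norm_num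
        _ ≤ Q ^ 2 := pow_le_pow_left₀ (by norm_num) hQbig 2
    calc 2 ^ 23 * ((J : ℝ) + 1) * (2 * Q) ^ 7 * x ^ 1980 ≤ (2 ^ 31 * Q ^ 8) * (2 * (ρ * T)) :=
          mul_le_mul a3 a2 (by positivity) (by positivity)
      _ = 2 ^ 32 * (Q ^ 8 * (ρ * T)) := by ring
      _ ≤ Q ^ 2 * (Q ^ 8 * (ρ * T)) := mul_le_mul_of_nonneg_right a4 (by positivity)
      _ = Q ^ 10 * (ρ * T) := by ring
  have hY : U ^ 4 * x ^ 500 / T ^ 2 + U ^ 4 / (x ^ 500 * T) + U ^ 6 * (2 ^ I * x ^ 500) ^ 3 / T ^ 5 ≤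
      3 := by
    have b1 : U ^ 4 ≤ x ^ 1360 := by
      calc U ^ 4 ≤ (x ^ 340) ^ 4 := pow_le_pow_left₀ hU0.le hUx 4
        _ = x ^ 1360 := by ring
    have b2 : U ^ 6 ≤ x ^ 2040 := by
      calc U ^ 6 ≤ (x ^ 340) ^ 6 := pow_le_pow_left₀ hU0.le hUx 6
        _ = x ^ 2040 := by ring
    have c1 : U ^ 4 * x ^ 500 / T ^ 2 ≤ 1 := by
      rw [div_le_one (by positivity), hT2000]
      calc U ^ 4 * x ^ 500 ≤ x ^ 1360 * x ^ 500 := mul_le_mul_of_nonneg_right b1 (by positivity)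
        _ = x ^ 1860 := by ring
        _ ≤ x ^ 2000 := hxk (by norm_num)
    have c2 : U ^ 4 / (x ^ 500 * T) ≤ 1 := by
      rw [div_le_one (by positivity), ← hxT]
      calc U ^ 4 ≤ x ^ 1360 := b1
        _ ≤ x ^ 1500 := hxk (by norm_num)
        _ = x ^ 500 * x ^ 1000 := by ring
    have c3 : U ^ 6 * (2 ^ I * x ^ 500) ^ 3 / T ^ 5 ≤ 1 := by
      rw [div_le_one (by positivity), ← hxT, ← hρ]
      calc U ^ 6 * ρ ^ 3 ≤ x ^ 2040 * (x ^ 980) ^ 3 :=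
            mul_le_mul b2 (pow_le_pow_left₀ hρ0.le hρu 3) (by positivity) (by positivity)
        _ = x ^ 4980 := by ring
        _ ≤ x ^ 5000 := hxk (by norm_num)
        _ = (x ^ 1000) ^ 5 := by ring
    linarith
  refine sc_le fun 𝓗 𝓥 hfam => ?_
  have hf : ∀ h ∈ 𝓗, Fam g (V 2 / 2) U h := by
    intro h hh
    have f0 := hfam h hh 0
    have f1 := hfam h hh 1
    have f2 := hfam h hh 2
    have g0 : g3 g h 0 = g h.1 := rfl
    have g1 : g3 g h 1 = g h.2.1 := rfl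
    have g2 : g3 g h 2 = g h.2.2 := rfl
    rw [g0] at f0
    rw [g1] at f1
    rw [g2] at f2
    rw [← hU] at f0
    exact ⟨by linarith [f0.1], by linarith [f1.1], by linarith [f2.1], f0.2, by linarith [f1.2],
      by linarith [f2.2]⟩
  have hN1 := hss g hg T (2 * Q) U (V 2 / 2) (x ^ 500) J I hp (one_le_pow₀ hx1)
    (by rw [← hxT]; exact le_of_eq (by ring))
    (by rw [← hρ]; exact le_trans hρu (by rw [← hxT]; exact hxk (by norm_num))) 𝓗 hf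
  have hN2 : ∑ h ∈ 𝓗, volume (TbH g T (2 * Q) U h ∩ Low g ρ h) ≤ ENNReal.ofReal (Q ^ 11) := by
    rw [hρ]
    refine le_trans hN1 (ENNReal.ofReal_le_ofReal ?_)
    have a1 : (J : ℝ) + 1 ≤ 2 * Q := by linarith
    have a2 : (I : ℝ) + 1 ≤ 3 * Q := by linarith
    calc K₂ * ((J : ℝ) + 1) * (I + 1) * (2 * Q) ^ 7 * (U ^ 4 * x ^ 500 / T ^ 2 +
          U ^ 4 / (x ^ 500 * T) + U ^ 6 * (2 ^ I * x ^ 500) ^ 3 / T ^ 5)
        ≤ Q * (2 * Q) * (3 * Q) * (2 * Q) ^ 7 * 3 := by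
          refine mul_le_mul ?_ hY (by positivity) (by positivity)
          refine mul_le_mul_of_nonneg_right ?_ (by positivity)
          refine mul_le_mul ?_ a2 (by positivity) (by positivity)
          exact mul_le_mul k2 a1 (by positivity) (by positivity)
      _ = 2304 * Q ^ 10 := by ring
      _ ≤ Q * Q ^ 10 := mul_le_mul_of_nonneg_right (by linarith) (by positivity)
      _ = Q ^ 11 := by ring
  have hA' := hhc g hg U hU1 𝓗 (fun h hh => ⟨(hf h hh).u₁, (hf h hh).u₂, (hf h hh).u₃⟩)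
  have hC' : ∀ 𝓟 : Finset (T3 × T3), (∀ q ∈ 𝓟, q.1 ∈ 𝓥 ∧ q.2 ∈ 𝓗 ∧ r < ‖g q.1.1‖ ∧
      ∃ m, NRC Q T R₁ g q.2 q.1 m) → (𝓟.card : ℝ) ≤
        K₃ * ((n + 1 : ℕ) + 1) * Q ^ 16 * (2 * T ^ 2 + U ^ 6) := by
    intro 𝓟 h𝓟
    refine hpc g hg T Q U R₁ r (n + 1) hQ hT0 hU1 (le_of_eq hr.symm) hUT hQRU ?_ ?_ ?_ ?_ 𝓟 ?_
    · have a1 : 2 ^ (n + 1) * r ≤ T := by
        refine le_trans hRn ?_
        rw [← hxT]; exact hxk (by norm_num)
      have := Real.log_le_log hRn0 a1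
      linarith
    · rw [hT2000]
      calc U ^ 3 * (2 ^ (n + 1) * r) ≤ (x ^ 340) ^ 3 * x ^ 65 :=
            mul_le_mul (pow_le_pow_left₀ hU0.le hUx 3) hRn hRn0.le (by positivity)
        _ = x ^ 1085 := by ring
        _ ≤ x ^ 2000 := hxk (by norm_num)
    · rw [hT2000]
      calc (2 ^ (n + 1) * r) ^ 4 * U ^ 2 ≤ (x ^ 65) ^ 4 * (x ^ 340) ^ 2 :=
            mul_le_mul (pow_le_pow_left₀ hRn0.le hRn 4) (pow_le_pow_left₀ hU0.le hUx 2)
              (by positivity) (by positivity)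
        _ = x ^ 940 := by ring
        _ ≤ x ^ 2000 := hxk (by norm_num)
    · rw [hT2000]
      calc (2 ^ (n + 1) * r) ^ 3 * U ^ 4 ≤ (x ^ 65) ^ 3 * (x ^ 340) ^ 4 :=
            mul_le_mul (pow_le_pow_left₀ hRn0.le hRn 3) (pow_le_pow_left₀ hU0.le hUx 4)
              (by positivity) (by positivity)
        _ = x ^ 1555 := by ring
        _ ≤ x ^ 2000 := hxk (by norm_num)
    · intro q hq
      obtain ⟨-, b2, b3, m, hm⟩ := h𝓟 q hq
      have f := hf q.2 b2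
      refine ⟨b3.le, ?_, f.u₁, f.u₂, f.u₃, m, hm⟩
      obtain ⟨ν, hν, hy⟩ := hm.ry
      obtain ⟨l1, u1, -⟩ := m_bd hT0 hUT f.u₁ (hm.an 0)
      have c1 := (nu_bd l1 u1 (hy 0)).1
      have c2 : ‖g q.1.1‖ ≤ 2 * (|ν| * T) + Q := c1
      have c3 : Q ≤ Q * R₁ := le_mul_of_one_le_right hQ0.le hR₁1
      have c4 : ‖g q.1.1‖ ≤ 2 ^ (n + 1) := by linarith
      refine le_trans c4 ?_
      exact le_mul_of_one_le_right (by positivity) hr1
  have main := core_sum (K₁ := K₁) (A := (K₄ * U ^ 2) ^ 3) (C := K₃ * ((n + 1 : ℕ) + 1) * Q ^ 16 *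
      (2 * T ^ 2 + U ^ 6)) (N := Q ^ 11) (R₁ := R₁) (ρ := ρ) (r := r) (Xh := Xh) (by linarith) hg
      hvs hp hQ hR₁0.le (by linarith) hρ0 ?_ hUT hXh0 hX (by positivity) (by positivity) 𝓗 𝓥 hf hA'
      hC' (by positivity) hN2
  · refine le_trans main (ENNReal.ofReal_le_ofReal ?_)
    -- first term
    have t1 : K₁ * Q ^ 6 * (Q * R₁ + 1) * Q ^ 11 ≤ Q ^ 20 * R₁ := by
      calc K₁ * Q ^ 6 * (Q * R₁ + 1) * Q ^ 11 ≤ Q * Q ^ 6 * (2 * (Q * R₁)) * Q ^ 11 := by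
            refine mul_le_mul_of_nonneg_right ?_ (by positivity)
            exact mul_le_mul (mul_le_mul_of_nonneg_right k1 (by positivity)) (by linarith)
              (by positivity) (by positivity)
        _ = 2 * (Q ^ 19 * R₁) := by ring
        _ ≤ Q * (Q ^ 19 * R₁) := mul_le_mul_of_nonneg_right hQ2 (by positivity)
        _ = Q ^ 20 * R₁ := by ring
    have hxU : Q ^ 10 / x ^ 1980 * U ^ 6 ≤ Q ^ 15 * R₁ := by
      calc Q ^ 10 / x ^ 1980 * U ^ 6 = Q ^ 10 * (x ^ 20 * (U ^ 6 / T ^ 2)) := by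
            rw [hT2000]; field_simp
        _ ≤ Q ^ 10 * (x ^ 20 * (Q ^ 4 * b)) := by
            refine mul_le_mul_of_nonneg_left (mul_le_mul_of_nonneg_left hbU (by positivity))
              (by positivity)
        _ = Q ^ 14 * (x ^ 20 * b) := by ring
        _ ≤ Q ^ 14 * (Q * R₁) := mul_le_mul_of_nonneg_left hR₁l (by positivity)
        _ = Q ^ 15 * R₁ := by ring
    have hxT' : Q ^ 10 / x ^ 1980 * (2 * T ^ 2) ≤ Q ^ 12 * R₁ := by
      calc Q ^ 10 / x ^ 1980 * (2 * T ^ 2) = 2 * (Q ^ 10 * x ^ 20) := by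
            rw [hT2000]; field_simp
        _ ≤ Q * (Q ^ 10 * (x ^ 20 * b)) := by
            refine mul_le_mul hQ2 ?_ (by positivity) (by positivity)
            refine mul_le_mul_of_nonneg_left ?_ (by positivity)
            exact le_mul_of_one_le_right (pow_pos hx0 20).le hb1
        _ ≤ Q * (Q ^ 10 * (Q * R₁)) := by
            refine mul_le_mul_of_nonneg_left (mul_le_mul_of_nonneg_left hR₁l (by positivity))
              (by positivity)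
        _ = Q ^ 12 * R₁ := by ring
    -- second term
    have t2 : K₁ * Q ^ 6 * (2 * (r + Q) + 1) * ((K₄ * U ^ 2) ^ 3 * Xh) ≤ Q ^ 30 * R₁ := by
      have a1 : 2 * (r + Q) + 1 ≤ Q ^ 5 := by
        have b1 : Q ≤ Q ^ 4 := by
          calc Q = Q ^ 1 := (pow_one Q).symm
            _ ≤ Q ^ 4 := pow_le_pow_right₀ hQ (by norm_num)
        have b2 : 5 * Q ^ 4 ≤ Q * Q ^ 4 := mul_le_mul_of_nonneg_right (by linarith) (by positivity)
        have b3 : Q * Q ^ 4 = Q ^ 5 := by ring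
        linarith
      have a2 : (K₄ * U ^ 2) ^ 3 ≤ Q ^ 3 * U ^ 6 := by
        calc (K₄ * U ^ 2) ^ 3 ≤ (Q * U ^ 2) ^ 3 := by
              refine pow_le_pow_left₀ (by positivity) ?_ 3
              exact mul_le_mul_of_nonneg_right k4 (by positivity)
          _ = _ := by ring
      calc K₁ * Q ^ 6 * (2 * (r + Q) + 1) * ((K₄ * U ^ 2) ^ 3 * Xh)
          ≤ Q * Q ^ 6 * Q ^ 5 * ((Q ^ 3 * U ^ 6) * Xh) := by
            refine mul_le_mul ?_ (mul_le_mul_of_nonneg_right a2 hXh0) (by positivity) (by positivity)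
            exact mul_le_mul (mul_le_mul_of_nonneg_right k1 (by positivity)) a1 (by positivity)
              (by positivity)
        _ = Q ^ 15 * (Q ^ 10 / x ^ 1980 * U ^ 6) := by rw [hXh]; ring
        _ ≤ Q ^ 15 * (Q ^ 15 * R₁) := mul_le_mul_of_nonneg_left hxU (by positivity)
        _ = Q ^ 30 * R₁ := by ring
    -- third term
    have t3 : K₃ * ((n + 1 : ℕ) + 1) * Q ^ 16 * (2 * T ^ 2 + U ^ 6) * Xh ≤ Q ^ 35 * R₁ := by
      have a1 : (((n + 1 : ℕ) : ℝ) + 1) ≤ 3 * Q := by push_cast; linarith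
      calc K₃ * ((n + 1 : ℕ) + 1) * Q ^ 16 * (2 * T ^ 2 + U ^ 6) * Xh
          ≤ Q * (3 * Q) * Q ^ 16 * (2 * T ^ 2 + U ^ 6) * Xh := by
            refine mul_le_mul_of_nonneg_right (mul_le_mul_of_nonneg_right
              (mul_le_mul_of_nonneg_right ?_ (by positivity)) (by positivity)) hXh0
            exact mul_le_mul k3 a1 (by positivity) (by positivity)
        _ = 3 * Q ^ 18 * (Q ^ 10 / x ^ 1980 * (2 * T ^ 2) + Q ^ 10 / x ^ 1980 * U ^ 6) := by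
            rw [hXh]; ring
        _ ≤ 3 * Q ^ 18 * (Q ^ 12 * R₁ + Q ^ 15 * R₁) :=
            mul_le_mul_of_nonneg_left (add_le_add hxT' hxU) (by positivity)
        _ ≤ 3 * Q ^ 18 * (Q ^ 15 * R₁ + Q ^ 15 * R₁) := by
            have : Q ^ 12 ≤ Q ^ 15 := pow_le_pow_right₀ hQ (by norm_num)
            have := mul_le_mul_of_nonneg_right this hR₁0.le
            refine mul_le_mul_of_nonneg_left (by linarith) (by positivity)
        _ = 6 * (Q ^ 33 * R₁) := by ring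
        _ ≤ Q ^ 2 * (Q ^ 33 * R₁) := by
            refine mul_le_mul_of_nonneg_right ?_ (by positivity)
            calc (6 : ℝ) ≤ 60000000 ^ 2 := by norm_num
              _ ≤ Q ^ 2 := pow_le_pow_left₀ (by norm_num) hQbig 2
        _ = Q ^ 35 * R₁ := by ring
    have e20 : Q ^ 20 * R₁ ≤ Q ^ 35 * R₁ :=
      mul_le_mul_of_nonneg_right (pow_le_pow_right₀ hQ (by norm_num)) hR₁0.le
    have e30 : Q ^ 30 * R₁ ≤ Q ^ 35 * R₁ :=
      mul_le_mul_of_nonneg_right (pow_le_pow_right₀ hQ (by norm_num)) hR₁0.le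
    have e36 : 3 * (Q ^ 35 * R₁) ≤ Q ^ 36 * R₁ := by
      calc 3 * (Q ^ 35 * R₁) ≤ Q * (Q ^ 35 * R₁) :=
            mul_le_mul_of_nonneg_right (by linarith) (by positivity)
        _ = _ := by ring
    have e37 : Q ^ 36 * R₁ ≤ Q ^ (N + 1000) * R₁ :=
      mul_le_mul_of_nonneg_right (pow_le_pow_right₀ hQ (by omega)) hR₁0.le
    linarith
  · rw [hT2000]
    calc 2 * Q ≤ x * x := mul_le_mul (by linarith) hQ1x hQ0.le hx0.le
      _ = x ^ 2 := by ring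
      _ ≤ x ^ 2000 := hxk (by norm_num)

end Pool.Agent.Helper46_F5N
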