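import Pool.Agent.F5S.Top
import Pool.Agent.F5S.Assembly
import Pool.Agent.Helper60_F5H.KAF
import Pool.Agent.Helper81_F5H.PRF
import Pool.Agent.Helper41_F5H.CLF
import Pool.Agent.Helper41_F5H.CHK
import Pool.Agent.Helper2_F5H.GGF
import Pool.Agent.Helper56_F5H.FAF
import Pool.Agent.Helper56_F5H.GEN
import Pool.Agent.Helper81_F5H.VAE
import Pool.Agent.Helper90_F5H.AVG
import Pool.Agent.Helper2_F5H.SUM
import Pool.Agent.Helper10_F5H.SEC
import Pool.Agent.Helper39_F5H.EX1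
import Pool.Agent.Helper39_F5H.SPT
import Pool.Agent.Helper24_F5H.ONE
import Pool.Agent.Helper83_F5H.A_FIN
import Pool.Agent.Helper25_F5H.SML
import Pool.Agent.Helper96_DZ.DZ
import Pool.Agent.Helper96_DZ.VOL
import Pool.Agent.Helper30_FC.K0Fin
import Pool.Agent.Helper30_FC.XEnd
import Pool.Agent.Helper96_X.XSI
import Pool.Agent.Helper96_X.XWC
import Pool.Agent.Helper10_F5H.BlockN
import Pool.Agent.Helper85_F5H.Fup
import Pool.Agent.Helper48_F5.LipMain
import Pool.Agent.Helper48_F5.Dkn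
import Pool.Agent.Helper38_F5.MAS

/-!
MP_f5cbfa_nt, frozen S18989: everything except the count `CNTStmt`.
-/

set_option autoImplicit false

namespace Pool.Agent.Helper46_F5N.FinA

open Pool.Agent.F5S Pool.Agent.F5H Pool.Agent.F5S.Assembly

theorem kaf' : KAFStmt := Pool.Agent.F5H.H60.kaf tnf kkf

theorem prf' : PRFStmt := Pool.Agent.F5H.H81.prf

theorem clf' : CLFStmt := Pool.Agent.F5H.H41.clf

theorem chk' : CHKStmt := Pool.Agent.F5H.H41.chk

theorem ggf' : GGFStmt := Pool.Agent.F5H.H02.ggf tnf kaf' prf'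

theorem faf' : FAFStmt := Pool.Agent.F5H.H56.faf kaf' prf' clf' chk'

theorem gen' : GENStmt := Pool.Agent.F5H.H56.gen clf' ggf'

theorem vae' : VAEStmt := Pool.Agent.F5H.H81.vae gen'

theorem avg' : AVGStmt := Pool.Agent.F5H.H90.avg chk' faf'

theorem sum' : SUMStmt := Pool.Agent.F5H.H02.sum faf'

theorem ex1' : EX1Stmt := Pool.Agent.F5H.H39.ex1 clf' ggf'

theorem spt' : SPTStmt := Pool.Agent.F5H.H39.spt clf' ggf' Pool.Agent.BTL.Assembly.areaAnn

theorem one' : ONEStmt := Pool.Agent.F5H.H24.one ex1' spt' vae'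

theorem sml' : SMLStmt := Pool.Agent.F5H.H25.sml kkf wbf

theorem dz' : DZStmt := Pool.Agent.Helper96_DZ.dz kaf' faf' chk'

theorem k0' : K0Stmt := Pool.Agent.Helper30_FC.k0_stmt kaf' prf' clf' chk' ggf' faf'

theorem x' : XStmt := Pool.Agent.Helper30_FC.x_stmt kaf' prf' chk' faf' Pool.Agent.Helper96_X.xsi
  (Pool.Agent.Helper96_X.xwc clf')

theorem n' : NStmt := Pool.Agent.F5H.BN.H10.block_n Pool.Agent.F5H.LIP.fupe

theorem lip' : LIPStmt := Pool.Agent.Helper48_F5.lip_of faf' Pool.Agent.F5H.LIP.fup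
  Pool.Agent.F5H.LIP.lk

theorem m_of (cnt : Pool.Agent.F5H.BC.CNTStmt) : MStmt :=
  Pool.Agent.Helper38_F5.M.mas lip' Pool.Agent.Helper48_F5.dkn cnt Pool.Agent.Helper96_DZ.volm

theorem hard_of (cnt : Pool.Agent.F5H.BC.CNTStmt) : HARDStmt :=
  Pool.Agent.F5H.H83.a_fin (Pool.Agent.F5H.H10.sec vae' avg' sum' dz' n' (m_of cnt) k0' x') one' chk'
    sml'

end Pool.Agent.Helper46_F5N.FinA
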