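import Pool.Agent.Helper68_F5.Cnt

/-!
MP_f5cbfa_nt, block N: number of `v` near the ray of a point (the trivial sum over `v`).
-/

set_option autoImplicit false

open MeasureTheory

namespace Pool.Agent.Helper46_F5N

open Pool.Agent.Helper68_F5

/-- lattice points in a ball -/
theorem ball_count (hbox : BoxStmt) : ∀ c₀ : ℝ, 0 < c₀ → ∃ K : ℝ, 1 ≤ K ∧
    ∀ g : ℤ × ℤ →+ ℂ, Sep c₀ g → ∀ (P : ℝ) (w : ℂ), 1 ≤ P → ∀ S : Finset (ℤ × ℤ),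
      (∀ z ∈ S, ‖g z - w‖ ≤ P) → (S.card : ℝ) ≤ K * P ^ 2 := by
  intro c₀ hc₀
  obtain ⟨K₁, hK₁, h1⟩ := hbox c₀ hc₀
  refine ⟨4 * K₁, by linarith, ?_⟩
  intro g hg P w hP S hS
  have key := h1 g hg 1 norm_one P P w.re w.im (by linarith) (by linarith) S (fun z hz => by
    have h2 := hS z hz
    have e1 : sp 1 (g z) - w.re = (g z - w).re := by simp [sp]
    have e2 : wd 1 (g z) - w.im = (g z - w).im := by simp [wd]
    rw [e1, e2]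
    exact ⟨le_trans (Complex.abs_re_le_norm _) h2, le_trans (Complex.abs_im_le_norm _) h2⟩)
  refine le_trans key ?_
  have : (1 + P) * (1 + P) ≤ 4 * P ^ 2 := by nlinarith
  calc K₁ * (1 + P) * (1 + P) = K₁ * ((1 + P) * (1 + P)) := by ring
    _ ≤ K₁ * (4 * P ^ 2) := mul_le_mul_of_nonneg_left this (by linarith)
    _ = 4 * K₁ * P ^ 2 := by ring

/-- `v` is near the ray of `m` -/
def Near (g : ℤ × ℤ →+ ℂ) (P T R' : ℝ) (m : ℂ × ℂ × ℂ) (v : T3) : Prop :=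
  ∃ ν : ℝ, |ν| * T ≤ R' ∧ ‖g v.1 - ν * m.1‖ ≤ P ∧ ‖g v.2.1 - ν * m.2.1‖ ≤ P ∧
    ‖g v.2.2 - ν * m.2.2‖ ≤ P

theorem ray_count (hbox : BoxStmt) : ∀ c₀ : ℝ, 0 < c₀ → ∃ K : ℝ, 1 ≤ K ∧
    ∀ g : ℤ × ℤ →+ ℂ, Sep c₀ g → ∀ (P T R' : ℝ) (m : ℂ × ℂ × ℂ), 1 ≤ P → 1 ≤ T → 0 ≤ R' →
      ‖m.1‖ ≤ 2 * T → ‖m.2.1‖ ≤ 2 * T → ‖m.2.2‖ ≤ 2 * T → ∀ 𝓥 : Finset T3,
      (∀ v ∈ 𝓥, Near g P T R' m v) → (𝓥.card : ℝ) ≤ K * P ^ 6 * (R' + 1) := by
  classical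
  intro c₀ hc₀
  obtain ⟨K₁, hK₁, h1⟩ := ball_count hbox c₀ hc₀
  refine ⟨2 * (9 * K₁) ^ 3, by nlinarith [one_le_pow₀ (by linarith : (1 : ℝ) ≤ 9 * K₁) (n := 3)], ?_⟩
  intro g hg P T R' m hP hT hR' hm1 hm2 hm3 𝓥 h𝓥
  choose! ν hν using h𝓥
  have hT0 : 0 < T := by linarith
  have hb : ∀ (k : ℤ) (x : ℂ) (z : ℤ × ℤ) (t : ℝ), ‖x‖ ≤ 2 * T → ⌊t * T⌋ = k → ‖g z - t * x‖ ≤ P →
      ‖g z - ((k / T : ℝ) : ℂ) * x‖ ≤ 3 * P := by
    intro k x z t hx hk hz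
    have e : g z - ((k / T : ℝ) : ℂ) * x = (g z - t * x) + ((t - k / T : ℝ) : ℂ) * x := by
      push_cast; ring
    rw [e]
    refine le_trans (norm_add_le _ _) ?_
    have h2 : |t - k / T| ≤ 1 / T := by
      have h3 := Int.floor_le (t * T)
      have h4 := Int.lt_floor_add_one (t * T)
      rw [hk] at h3 h4
      have e2 : t - k / T = (t * T - k) / T := by field_simp
      rw [e2, abs_div, abs_of_pos hT0]
      apply div_le_div_of_nonneg_right _ hT0.le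
      rw [abs_le]; constructor <;> linarith
    have h5 : ‖((t - k / T : ℝ) : ℂ) * x‖ ≤ 2 := by
      rw [norm_mul, Complex.norm_real, Real.norm_eq_abs]
      calc |t - k / T| * ‖x‖ ≤ 1 / T * (2 * T) := mul_le_mul h2 hx (norm_nonneg _) (by positivity)
        _ = 2 := by field_simp
    linarith
  have hk : ∀ S : Finset (ℤ × ℤ), ∀ (k : ℤ) (x : ℂ), ‖x‖ ≤ 2 * T →
      (∀ z ∈ S, ∃ t : ℝ, ⌊t * T⌋ = k ∧ ‖g z - t * x‖ ≤ P) → (S.card : ℝ) ≤ 9 * K₁ * P ^ 2 := by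
    intro S k x hx hS
    have := h1 g hg (3 * P) (((k / T : ℝ) : ℂ) * x) (by linarith) S (fun z hz => by
      obtain ⟨t, ht1, ht2⟩ := hS z hz
      exact hb k x z t hx ht1 ht2)
    refine le_trans this (le_of_eq ?_)
    ring
  have fib : ∀ k : ℤ, ((𝓥.filter (fun v => ⌊ν v * T⌋ = k)).card : ℝ) ≤ (9 * K₁) ^ 3 * P ^ 6 := by
    intro k
    obtain ⟨𝓕, h𝓕⟩ : ∃ 𝓕, 𝓕 = 𝓥.filter (fun v => ⌊ν v * T⌋ = k) := ⟨_, rfl⟩
    rw [← h𝓕]
    have hF : ∀ v ∈ 𝓕, v ∈ 𝓥 ∧ ⌊ν v * T⌋ = k := by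
      intro v hv; rw [h𝓕, Finset.mem_filter] at hv; exact hv
    have hsub : 𝓕 ⊆ (𝓕.image (fun v => v.1)) ×ˢ ((𝓕.image (fun v => v.2.1)) ×ˢ
        (𝓕.image (fun v => v.2.2))) := by
      intro v hv
      rw [Finset.mem_product, Finset.mem_product]
      exact ⟨Finset.mem_image_of_mem _ hv, Finset.mem_image_of_mem (fun v : T3 => v.2.1) hv,
        Finset.mem_image_of_mem (fun v : T3 => v.2.2) hv⟩
    have hc := Finset.card_le_card hsub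
    rw [Finset.card_product, Finset.card_product] at hc
    have hc' : (𝓕.card : ℝ) ≤ ((𝓕.image (fun v => v.1)).card : ℝ) *
        (((𝓕.image (fun v => v.2.1)).card : ℝ) * ((𝓕.image (fun v => v.2.2)).card : ℝ)) := by
      exact_mod_cast hc
    have i1 := hk (𝓕.image (fun v => v.1)) k m.1 hm1 (fun z hz => by
      rw [Finset.mem_image] at hz
      obtain ⟨v, hv, rfl⟩ := hz
      exact ⟨ν v, (hF v hv).2, (hν v (hF v hv).1).2.1⟩)
    have i2 := hk (𝓕.image (fun v => v.2.1)) k m.2.1 hm2 (fun z hz => by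
      rw [Finset.mem_image] at hz
      obtain ⟨v, hv, rfl⟩ := hz
      exact ⟨ν v, (hF v hv).2, (hν v (hF v hv).1).2.2.1⟩)
    have i3 := hk (𝓕.image (fun v => v.2.2)) k m.2.2 hm3 (fun z hz => by
      rw [Finset.mem_image] at hz
      obtain ⟨v, hv, rfl⟩ := hz
      exact ⟨ν v, (hF v hv).2, (hν v (hF v hv).1).2.2.2⟩)
    refine le_trans hc' ?_
    calc ((𝓕.image (fun v => v.1)).card : ℝ) * (((𝓕.image (fun v => v.2.1)).card : ℝ) *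
          ((𝓕.image (fun v => v.2.2)).card : ℝ))
        ≤ (9 * K₁ * P ^ 2) * ((9 * K₁ * P ^ 2) * (9 * K₁ * P ^ 2)) := by
          refine mul_le_mul i1 (mul_le_mul i2 i3 (by positivity) (by positivity)) (by positivity)
            (by positivity)
      _ = _ := by ring
  have him : ((𝓥.image (fun v => ⌊ν v * T⌋)).card : ℝ) ≤ 2 * (R' + 1) := by
    have hsub : 𝓥.image (fun v => ⌊ν v * T⌋) ⊆ Finset.Icc ⌊-R'⌋ ⌊R'⌋ := by
      intro k hk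
      rw [Finset.mem_image] at hk
      obtain ⟨v, hv, rfl⟩ := hk
      have h2 := (hν v hv).1
      rw [← abs_of_pos hT0, ← abs_mul] at h2
      have h3 := abs_le.1 h2
      rw [Finset.mem_Icc]
      exact ⟨Int.floor_le_floor h3.1, Int.floor_le_floor h3.2⟩
    have hc := Finset.card_le_card hsub
    rw [Int.card_Icc] at hc
    have h2 : (⌊R'⌋ : ℝ) ≤ R' := Int.floor_le _
    have h3 : -R' - 1 < (⌊-R'⌋ : ℝ) := by
      have := Int.lt_floor_add_one (-R')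
      linarith
    have h4 : (((⌊R'⌋ + 1 - ⌊-R'⌋).toNat : ℕ) : ℝ) ≤ 2 * (R' + 1) := by
      have h5 : 0 ≤ ⌊R'⌋ + 1 - ⌊-R'⌋ := by
        have : ⌊-R'⌋ ≤ ⌊R'⌋ := Int.floor_le_floor (by linarith)
        linarith
      have h6 : (((⌊R'⌋ + 1 - ⌊-R'⌋).toNat : ℕ) : ℝ) = ((⌊R'⌋ + 1 - ⌊-R'⌋ : ℤ) : ℝ) := by
        have := Int.toNat_of_nonneg h5
        exact_mod_cast congrArg (fun z : ℤ => (z : ℝ)) this
      rw [h6]
      push_cast
      linarith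
    calc ((𝓥.image (fun v => ⌊ν v * T⌋)).card : ℝ) ≤ (((⌊R'⌋ + 1 - ⌊-R'⌋).toNat : ℕ) : ℝ) := by
          exact_mod_cast hc
      _ ≤ _ := h4
  have key := card_fib (fun v : T3 => ⌊ν v * T⌋) (by positivity) fib him
  refine le_trans key (le_of_eq ?_)
  ring

end Pool.Agent.Helper46_F5N
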