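import Pool.Agent.Helper46_F5N.Plane
import Pool.Agent.Helper46_F5N.Ray

/-!
MP_f5cbfa_nt, block N, case C (three comparable sizes): volumes of the regular and of the singular
part of one tube.
-/

set_option autoImplicit false

open MeasureTheory

namespace Pool.Agent.Helper46_F5N

open Pool.Agent.Helper68_F5 Pool.Agent.Helper38_F5

/-- tube of three points -/
def Tb (P d s₁ s₂ s₃ : ℝ) (H₁ H₂ H₃ : ℂ) : Set (ℂ × ℂ × ℂ) :=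
  {m | |‖m.1‖ ^ 2 - s₁| ≤ P ∧ |‖m.2.1‖ ^ 2 - s₂| ≤ P ∧ |‖m.2.2‖ ^ 2 - s₃| ≤ P ∧
    |sp m.1 H₁ - sp m.2.1 H₂| ≤ d ∧ |sp m.1 H₁ - sp m.2.2 H₃| ≤ d ∧
    |sp m.2.1 H₂ - sp m.2.2 H₃| ≤ d}

theorem closed_Tb (P d s₁ s₂ s₃ : ℝ) (H₁ H₂ H₃ : ℂ) : IsClosed (Tb P d s₁ s₂ s₃ H₁ H₂ H₃) := by
  have a1 : Continuous (fun q : ℂ × ℂ × ℂ => |‖q.1‖ ^ 2 - s₁|) := by fun_prop
  have a2 : Continuous (fun q : ℂ × ℂ × ℂ => |‖q.2.1‖ ^ 2 - s₂|) := by fun_prop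
  have a3 : Continuous (fun q : ℂ × ℂ × ℂ => |‖q.2.2‖ ^ 2 - s₃|) := by fun_prop
  have c1 : Continuous (fun q : ℂ × ℂ × ℂ => q.1) := continuous_fst
  have c2 : Continuous (fun q : ℂ × ℂ × ℂ => q.2.1) := continuous_snd.fst
  have c3 : Continuous (fun q : ℂ × ℂ × ℂ => q.2.2) := continuous_snd.snd
  have b1 : Continuous (fun q : ℂ × ℂ × ℂ => |sp q.1 H₁ - sp q.2.1 H₂|) :=
    ((cont_sp' c1 H₁).sub (cont_sp' c2 H₂)).abs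
  have b2 : Continuous (fun q : ℂ × ℂ × ℂ => |sp q.1 H₁ - sp q.2.2 H₃|) :=
    ((cont_sp' c1 H₁).sub (cont_sp' c3 H₃)).abs
  have b3 : Continuous (fun q : ℂ × ℂ × ℂ => |sp q.2.1 H₂ - sp q.2.2 H₃|) :=
    ((cont_sp' c2 H₂).sub (cont_sp' c3 H₃)).abs
  exact (isClosed_le a1 continuous_const).inter ((isClosed_le a2 continuous_const).inter
    ((isClosed_le a3 continuous_const).inter ((isClosed_le b1 continuous_const).inter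
      ((isClosed_le b2 continuous_const).inter (isClosed_le b3 continuous_const)))))

/-- exchange of the first two points -/
theorem perm12 {G : Set (ℂ × ℂ × ℂ)} (hG : MeasurableSet G) :
    volume {m : ℂ × ℂ × ℂ | (m.2.1, m.1, m.2.2) ∈ G} = volume G := by
  have h1 : MeasurePreserving (MeasurableEquiv.prodAssoc : (ℂ × ℂ) × ℂ ≃ᵐ ℂ × ℂ × ℂ) volume
      volume := by
    have := measurePreserving_prodAssoc (volume : Measure ℂ) (volume : Measure ℂ)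
      (volume : Measure ℂ)
    exact this
  have h2 : MeasurePreserving (Prod.swap : ℂ × ℂ → ℂ × ℂ) volume volume := by
    have := Measure.measurePreserving_swap (μ := (volume : Measure ℂ)) (ν := (volume : Measure ℂ))
    rwa [← Measure.volume_eq_prod] at this
  have h3 : MeasurePreserving (Prod.map (Prod.swap : ℂ × ℂ → ℂ × ℂ) (id : ℂ → ℂ)) volume volume :=
    h2.prod (MeasurePreserving.id _)
  have h4 : MeasurePreserving (fun m : ℂ × ℂ × ℂ => (m.2.1, m.1, m.2.2)) volume volume :=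
    (h1.comp h3).comp h1.symm
  exact h4.measure_preimage hG.nullMeasurableSet

/-- exchange of the last two points -/
theorem perm23 {G : Set (ℂ × ℂ × ℂ)} (hG : MeasurableSet G) :
    volume {m : ℂ × ℂ × ℂ | (m.1, m.2.2, m.2.1) ∈ G} = volume G := by
  have h2 : MeasurePreserving (Prod.swap : ℂ × ℂ → ℂ × ℂ) volume volume := by
    have := Measure.measurePreserving_swap (μ := (volume : Measure ℂ)) (ν := (volume : Measure ℂ))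
    rwa [← Measure.volume_eq_prod] at this
  have h3 : MeasurePreserving (Prod.map (id : ℂ → ℂ) (Prod.swap : ℂ × ℂ → ℂ × ℂ)) volume volume :=
    (MeasurePreserving.id _).prod h2
  exact h3.measure_preimage hG.nullMeasurableSet

/-- hypotheses on the parameters of a tube -/
structure Par (T P μ s₁ s₂ s₃ : ℝ) (H₁ H₂ H₃ : ℂ) : Prop where
  hT : 0 < T
  hP : 0 ≤ P
  hPT : 8 * P ≤ T ^ 2
  hμ : 0 < μ
  l₁ : T ^ 2 / 2 ≤ s₁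
  l₂ : T ^ 2 / 2 ≤ s₂
  l₃ : T ^ 2 / 2 ≤ s₃
  u₁ : s₁ ≤ 2 * T ^ 2
  u₂ : s₂ ≤ 2 * T ^ 2
  u₃ : s₃ ≤ 2 * T ^ 2
  n₁ : μ ≤ ‖H₁‖
  n₂ : μ ≤ ‖H₂‖
  n₃ : μ ≤ ‖H₃‖

theorem Par.p12 {T P μ s₁ s₂ s₃ : ℝ} {H₁ H₂ H₃ : ℂ} (h : Par T P μ s₁ s₂ s₃ H₁ H₂ H₃) :
    Par T P μ s₂ s₁ s₃ H₂ H₁ H₃ :=
  ⟨h.hT, h.hP, h.hPT, h.hμ, h.l₂, h.l₁, h.l₃, h.u₂, h.u₁, h.u₃, h.n₂, h.n₁, h.n₃⟩

theorem Par.p23 {T P μ s₁ s₂ s₃ : ℝ} {H₁ H₂ H₃ : ℂ} (h : Par T P μ s₁ s₂ s₃ H₁ H₂ H₃) :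
    Par T P μ s₁ s₃ s₂ H₁ H₃ H₂ :=
  ⟨h.hT, h.hP, h.hPT, h.hμ, h.l₁, h.l₃, h.l₂, h.u₁, h.u₃, h.u₂, h.n₁, h.n₃, h.n₂⟩

/-- first index regular -/
theorem vol_reg1 {T P μ s₁ s₂ s₃ d ρ : ℝ} {H₁ H₂ H₃ : ℂ} (h : Par T P μ s₁ s₂ s₃ H₁ H₂ H₃)
    (hd : 0 ≤ d) (hρ : 0 < ρ) (J : ℕ) (hJ : μ * T ≤ 4 ^ J * d) :
    volume (Tb P d s₁ s₂ s₃ H₁ H₂ H₃ ∩ {m | ρ * ‖H₁‖ ≤ |wd m.1 H₁|}) ≤
      ENNReal.ofReal (2 ^ 21 * (J + 1) * P ^ 3 * d ^ 2 / (ρ * μ ^ 2 * T)) := by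
  have hT := h.hT
  have hP := h.hP
  have hμ := h.hμ
  have c1 : Continuous (fun q : ℂ × ℂ × ℂ => q.1) := continuous_fst
  have b1 : Continuous (fun q : ℂ × ℂ × ℂ => |wd q.1 H₁|) := (cont_wd' c1 H₁).abs
  have a1 : Continuous (fun q : ℂ × ℂ => |‖q.1‖ ^ 2 - s₂|) := by fun_prop
  have a2 : Continuous (fun q : ℂ × ℂ => |‖q.2‖ ^ 2 - s₃|) := by fun_prop
  have a3 : Continuous (fun q : ℂ × ℂ => |sp q.1 H₂ - sp q.2 H₃|) :=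
    ((cont_sp' continuous_fst H₂).sub (cont_sp' continuous_snd H₃)).abs
  have key := volP (G := Tb P d s₁ s₂ s₃ H₁ H₂ H₃ ∩ {m | ρ * ‖H₁‖ ≤ |wd m.1 H₁|})
    (B := {q : ℂ × ℂ | |‖q.1‖ ^ 2 - s₂| ≤ P ∧ |‖q.2‖ ^ 2 - s₃| ≤ P ∧
      |sp q.1 H₂ - sp q.2 H₃| ≤ d})
    (m := ENNReal.ofReal (8 * P * d / (ρ * μ)))
    (m' := ENNReal.ofReal (2 ^ 18 * (J + 1) * P ^ 2 * d / (μ * T)))
    ((closed_Tb P d s₁ s₂ s₃ H₁ H₂ H₃).inter (isClosed_le continuous_const b1)).measurableSet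
    ((isClosed_le a1 continuous_const).inter ((isClosed_le a2 continuous_const).inter
      (isClosed_le a3 continuous_const))).measurableSet
    (by
      intro y
      refine le_trans (measure_mono ?_) (area_reg (H := H₁) (s := s₁) (t := sp y.1 H₂) (P := P)
        (w := d) (n := ρ * μ) hP hd (by positivity))
      rintro x ⟨⟨e1, -, -, e4, -, -⟩, e7⟩
      refine ⟨e1, e4, le_trans ?_ e7⟩
      exact mul_le_mul_of_nonneg_left h.n₁ hρ.le)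
    (by
      rintro x y ⟨⟨-, e2, e3, -, -, e6⟩, -⟩
      exact ⟨e2, e3, e6⟩)
    (area2 hT h.l₂ h.u₂ h.l₃ h.u₃ hP h.hPT hd hμ h.n₂ h.n₃ J hJ)
  refine le_trans key ?_
  rw [← ENNReal.ofReal_mul (by positivity)]
  apply ENNReal.ofReal_le_ofReal
  apply le_of_eq
  field_simp
  ring

/-- one index regular -/
theorem vol_reg {T P μ s₁ s₂ s₃ d ρ : ℝ} {H₁ H₂ H₃ : ℂ} (h : Par T P μ s₁ s₂ s₃ H₁ H₂ H₃)
    (hd : 0 ≤ d) (hρ : 0 < ρ) (J : ℕ) (hJ : μ * T ≤ 4 ^ J * d) :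
    volume (Tb P d s₁ s₂ s₃ H₁ H₂ H₃ ∩ {m | ρ * ‖H₁‖ ≤ |wd m.1 H₁| ∨ ρ * ‖H₂‖ ≤ |wd m.2.1 H₂| ∨
      ρ * ‖H₃‖ ≤ |wd m.2.2 H₃|}) ≤
      ENNReal.ofReal (3 * (2 ^ 21 * (J + 1) * P ^ 3 * d ^ 2 / (ρ * μ ^ 2 * T))) := by
  have hT := h.hT
  have hP := h.hP
  have hμ := h.hμ
  have c1 : Continuous (fun q : ℂ × ℂ × ℂ => q.1) := continuous_fst
  have hm : ∀ (s₁ s₂ s₃ : ℝ) (H₁ H₂ H₃ : ℂ),
      MeasurableSet (Tb P d s₁ s₂ s₃ H₁ H₂ H₃ ∩ {m | ρ * ‖H₁‖ ≤ |wd m.1 H₁|}) := by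
    intro s₁ s₂ s₃ H₁ H₂ H₃
    have b1 : Continuous (fun q : ℂ × ℂ × ℂ => |wd q.1 H₁|) := (cont_wd' c1 H₁).abs
    exact ((closed_Tb P d s₁ s₂ s₃ H₁ H₂ H₃).inter (isClosed_le continuous_const b1)).measurableSet
  obtain ⟨X, hX⟩ : ∃ X : ℝ, X = 2 ^ 21 * (J + 1) * P ^ 3 * d ^ 2 / (ρ * μ ^ 2 * T) := ⟨_, rfl⟩
  have hX0 : 0 ≤ X := by rw [hX]; positivity
  have v1 := vol_reg1 h hd hρ J hJ
  have v2 := vol_reg1 h.p12 hd hρ J hJ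
  have v3 := vol_reg1 h.p23.p12 hd hρ J hJ
  rw [← hX] at v1 v2 v3 ⊢
  rw [← perm12 (hm _ _ _ _ _ _)] at v2
  rw [← perm12 (hm _ _ _ _ _ _)] at v3
  have m3 : MeasurableSet {m : ℂ × ℂ × ℂ | (m.2.1, m.1, m.2.2) ∈
      Tb P d s₃ s₁ s₂ H₃ H₁ H₂ ∩ {m | ρ * ‖H₃‖ ≤ |wd m.1 H₃|}} := by
    have hc : Continuous (fun m : ℂ × ℂ × ℂ => (m.2.1, m.1, m.2.2)) := by fun_prop
    exact hc.measurable (hm s₃ s₁ s₂ H₃ H₁ H₂)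
  rw [← perm23 m3] at v3
  have hsub : Tb P d s₁ s₂ s₃ H₁ H₂ H₃ ∩ {m | ρ * ‖H₁‖ ≤ |wd m.1 H₁| ∨ ρ * ‖H₂‖ ≤ |wd m.2.1 H₂| ∨
      ρ * ‖H₃‖ ≤ |wd m.2.2 H₃|} ⊆ (Tb P d s₁ s₂ s₃ H₁ H₂ H₃ ∩ {m | ρ * ‖H₁‖ ≤ |wd m.1 H₁|}) ∪
      ({m : ℂ × ℂ × ℂ | (m.2.1, m.1, m.2.2) ∈ Tb P d s₂ s₁ s₃ H₂ H₁ H₃ ∩
        {m | ρ * ‖H₂‖ ≤ |wd m.1 H₂|}} ∪
      {m : ℂ × ℂ × ℂ | (m.1, m.2.2, m.2.1) ∈ {m : ℂ × ℂ × ℂ | (m.2.1, m.1, m.2.2) ∈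
        Tb P d s₃ s₁ s₂ H₃ H₁ H₂ ∩ {m | ρ * ‖H₃‖ ≤ |wd m.1 H₃|}}}) := by
    rintro m ⟨⟨e1, e2, e3, e4, e5, e6⟩, e7 | e7 | e7⟩
    · left
      exact ⟨⟨e1, e2, e3, e4, e5, e6⟩, e7⟩
    · right; left
      exact ⟨⟨e2, e1, e3, by rw [abs_sub_comm]; exact e4, e6, e5⟩, e7⟩
    · right; right
      exact ⟨⟨e3, e1, e2, by rw [abs_sub_comm]; exact e5, by rw [abs_sub_comm]; exact e6, e4⟩, e7⟩
  refine le_trans (measure_mono hsub) (le_trans (measure_union_le _ _) ?_)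
  refine le_trans (add_le_add v1 (le_trans (measure_union_le _ _) (add_le_add v2 v3))) ?_
  rw [← ENNReal.ofReal_add hX0 hX0, ← ENNReal.ofReal_add hX0 (by positivity)]
  apply ENNReal.ofReal_le_ofReal
  linarith

/-- all transversal components small -/
theorem vol_low {T P μ s₁ s₂ s₃ d ρ : ℝ} {H₁ H₂ H₃ : ℂ} (h : Par T P μ s₁ s₂ s₃ H₁ H₂ H₃)
    (hd : 0 ≤ d) (hρ : 0 ≤ ρ) (J : ℕ) (hJ : μ * T ≤ 4 ^ J * d) :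
    volume (Tb P d s₁ s₂ s₃ H₁ H₂ H₃ ∩ {m | |wd m.1 H₁| ≤ ρ * ‖H₁‖}) ≤
      ENNReal.ofReal (2 ^ 26 * (J + 1) * P ^ 3 * ρ * d / (μ * T ^ 2)) := by
  have hT := h.hT
  have hP := h.hP
  have hμ := h.hμ
  have hH : H₁ ≠ 0 := norm_pos_iff.1 (lt_of_lt_of_le hμ h.n₁)
  have c1 : Continuous (fun q : ℂ × ℂ × ℂ => q.1) := continuous_fst
  have b1 : Continuous (fun q : ℂ × ℂ × ℂ => |wd q.1 H₁|) := (cont_wd' c1 H₁).abs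
  have a1 : Continuous (fun q : ℂ × ℂ => |‖q.1‖ ^ 2 - s₂|) := by fun_prop
  have a2 : Continuous (fun q : ℂ × ℂ => |‖q.2‖ ^ 2 - s₃|) := by fun_prop
  have a3 : Continuous (fun q : ℂ × ℂ => |sp q.1 H₂ - sp q.2 H₃|) :=
    ((cont_sp' continuous_fst H₂).sub (cont_sp' continuous_snd H₃)).abs
  have key := volP (G := Tb P d s₁ s₂ s₃ H₁ H₂ H₃ ∩ {m | |wd m.1 H₁| ≤ ρ * ‖H₁‖})
    (B := {q : ℂ × ℂ | |‖q.1‖ ^ 2 - s₂| ≤ P ∧ |‖q.2‖ ^ 2 - s₃| ≤ P ∧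
      |sp q.1 H₂ - sp q.2 H₃| ≤ d})
    (m := ENNReal.ofReal (256 * P * ρ / T))
    (m' := ENNReal.ofReal (2 ^ 18 * (J + 1) * P ^ 2 * d / (μ * T)))
    ((closed_Tb P d s₁ s₂ s₃ H₁ H₂ H₃).inter (isClosed_le b1 continuous_const)).measurableSet
    ((isClosed_le a1 continuous_const).inter ((isClosed_le a2 continuous_const).inter
      (isClosed_le a3 continuous_const))).measurableSet
    (by
      intro y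
      refine le_trans (measure_mono ?_) (area_small hH (s := s₁) (P := P) (ρ := ρ) hT h.l₁ hP
        h.hPT hρ)
      rintro x ⟨⟨e1, -, -, -, -, -⟩, e7⟩
      exact ⟨e1, e7⟩)
    (by
      rintro x y ⟨⟨-, e2, e3, -, -, e6⟩, -⟩
      exact ⟨e2, e3, e6⟩)
    (area2 hT h.l₂ h.u₂ h.l₃ h.u₃ hP h.hPT hd hμ h.n₂ h.n₃ J hJ)
  refine le_trans key ?_
  rw [← ENNReal.ofReal_mul (by positivity)]
  apply ENNReal.ofReal_le_ofReal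
  apply le_of_eq
  field_simp
  ring

end Pool.Agent.Helper46_F5N
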