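import Pool.Agent.Helper46_F5N.Vsum

/-!
MP_f5cbfa_nt, block N, case C: sum over `h` of the volumes of the singular parts.
-/

set_option autoImplicit false

open MeasureTheory

namespace Pool.Agent.Helper46_F5N

open Pool.Agent.Helper68_F5 Pool.Agent.Helper38_F5

/-- the tube of a triple `h` -/
def TbH (g : ℤ × ℤ →+ ℂ) (T Q V : ℝ) (h : T3) : Set (ℂ × ℂ × ℂ) :=
  Tb Q (Q * V) (T ^ 2 - ‖g h.1‖ ^ 2 / 4) (T ^ 2 - ‖g h.2.1‖ ^ 2 / 4) (T ^ 2 - ‖g h.2.2‖ ^ 2 / 4)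
    (g h.1) (g h.2.1) (g h.2.2)

/-- small transversal components -/
def Low (g : ℤ × ℤ →+ ℂ) (ρ : ℝ) (h : T3) : Set (ℂ × ℂ × ℂ) :=
  {m | |wd m.1 (g h.1)| ≤ ρ * ‖g h.1‖ ∧ |wd m.2.1 (g h.2.1)| ≤ ρ * ‖g h.2.1‖ ∧
    |wd m.2.2 (g h.2.2)| ≤ ρ * ‖g h.2.2‖}

/-- one large transversal component -/
def High (g : ℤ × ℤ →+ ℂ) (ρ : ℝ) (h : T3) : Set (ℂ × ℂ × ℂ) :=
  {m | ρ * ‖g h.1‖ ≤ |wd m.1 (g h.1)| ∨ ρ * ‖g h.2.1‖ ≤ |wd m.2.1 (g h.2.1)| ∨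
    ρ * ‖g h.2.2‖ ≤ |wd m.2.2 (g h.2.2)|}

theorem low_or_high (g : ℤ × ℤ →+ ℂ) (ρ : ℝ) (h : T3) (m : ℂ × ℂ × ℂ) :
    m ∈ Low g ρ h ∨ m ∈ High g ρ h := by
  by_cases h1 : |wd m.1 (g h.1)| ≤ ρ * ‖g h.1‖
  · by_cases h2 : |wd m.2.1 (g h.2.1)| ≤ ρ * ‖g h.2.1‖
    · by_cases h3 : |wd m.2.2 (g h.2.2)| ≤ ρ * ‖g h.2.2‖
      · exact Or.inl ⟨h1, h2, h3⟩
      · exact Or.inr (Or.inr (Or.inr (not_le.1 h3).le))
    · exact Or.inr (Or.inr (Or.inl (not_le.1 h2).le))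
  · exact Or.inr (Or.inl (not_le.1 h1).le)

/-- the family of case C -/
structure Fam (g : ℤ × ℤ →+ ℂ) (μ V : ℝ) (h : T3) : Prop where
  l₁ : μ ≤ ‖g h.1‖
  l₂ : μ ≤ ‖g h.2.1‖
  l₃ : μ ≤ ‖g h.2.2‖
  u₁ : ‖g h.1‖ ≤ V
  u₂ : ‖g h.2.1‖ ≤ V
  u₃ : ‖g h.2.2‖ ≤ V

/-- parameters of case C -/
structure PC (T Q V μ : ℝ) (J : ℕ) : Prop where
  hT : 1 ≤ T
  hQ : 1 ≤ Q
  hQT : 8 * Q ≤ T ^ 2
  hV : 1 ≤ V
  hμ : 0 < μ
  hVμ : V ≤ Q * μ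
  hVT : V ^ 2 ≤ T ^ 2
  hJ : μ * T ≤ 4 ^ J * (Q * V)
  hs : (Q * V + 2 * (V * (V ^ 2 + Q) / T)) / T ≤ 1

theorem PC.par {T Q V μ : ℝ} {J : ℕ} (p : PC T Q V μ J) {g : ℤ × ℤ →+ ℂ} {h : T3}
    (f : Fam g μ V h) : Par T Q μ (T ^ 2 - ‖g h.1‖ ^ 2 / 4) (T ^ 2 - ‖g h.2.1‖ ^ 2 / 4)
      (T ^ 2 - ‖g h.2.2‖ ^ 2 / 4) (g h.1) (g h.2.1) (g h.2.2) := by
  have hT := p.hT
  have hVT := p.hVT
  have hT2 : 0 < T ^ 2 := by positivity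
  have hs : ∀ z : ℂ, ‖z‖ ≤ V → T ^ 2 / 2 ≤ T ^ 2 - ‖z‖ ^ 2 / 4 := by
    intro z hz
    have : ‖z‖ ^ 2 ≤ V ^ 2 := pow_le_pow_left₀ (norm_nonneg _) hz 2
    linarith
  have hs2 : ∀ z : ℂ, T ^ 2 - ‖z‖ ^ 2 / 4 ≤ 2 * T ^ 2 := by
    intro z
    have : 0 ≤ ‖z‖ ^ 2 := by positivity
    linarith
  exact ⟨by linarith, by linarith [p.hQ], p.hQT, p.hμ, hs _ f.u₁, hs _ f.u₂, hs _ f.u₃, hs2 _, hs2 _,
    hs2 _, f.l₁, f.l₂, f.l₃⟩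

theorem high_vol {T Q V μ : ℝ} {J : ℕ} (p : PC T Q V μ J) {g : ℤ × ℤ →+ ℂ} {h : T3}
    (f : Fam g μ V h) {ρ : ℝ} (hρ : 0 < ρ) :
    volume (TbH g T Q V h ∩ High g ρ h) ≤ ENNReal.ofReal (2 ^ 23 * (J + 1) * Q ^ 7 / (ρ * T)) := by
  have hT := p.hT
  have hQ := p.hQ
  have hV := p.hV
  have hμ := p.hμ
  have key := vol_reg (p.par f) (d := Q * V) (by positivity) hρ J p.hJ
  refine le_trans key (ENNReal.ofReal_le_ofReal ?_)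
  have e1 : Q ^ 3 * (Q * V) ^ 2 ≤ Q ^ 7 * μ ^ 2 := by
    have : V ^ 2 ≤ (Q * μ) ^ 2 := pow_le_pow_left₀ (by linarith) p.hVμ 2
    calc Q ^ 3 * (Q * V) ^ 2 = Q ^ 5 * V ^ 2 := by ring
      _ ≤ Q ^ 5 * (Q * μ) ^ 2 := mul_le_mul_of_nonneg_left this (by positivity)
      _ = Q ^ 7 * μ ^ 2 := by ring
  have e2 : 3 * (2 ^ 21 * ((J : ℝ) + 1) * Q ^ 3 * (Q * V) ^ 2 / (ρ * μ ^ 2 * T)) ≤
      3 * (2 ^ 21 * ((J : ℝ) + 1) * (Q ^ 7 * μ ^ 2) / (ρ * μ ^ 2 * T)) := by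
    have : 2 ^ 21 * ((J : ℝ) + 1) * Q ^ 3 * (Q * V) ^ 2 ≤ 2 ^ 21 * ((J : ℝ) + 1) * (Q ^ 7 * μ ^ 2) := by
      calc 2 ^ 21 * ((J : ℝ) + 1) * Q ^ 3 * (Q * V) ^ 2 =
            2 ^ 21 * ((J : ℝ) + 1) * (Q ^ 3 * (Q * V) ^ 2) := by ring
        _ ≤ _ := mul_le_mul_of_nonneg_left e1 (by positivity)
    have := div_le_div_of_nonneg_right this (by positivity : 0 ≤ ρ * μ ^ 2 * T)
    linarith
  refine le_trans e2 ?_
  have e3 : 3 * (2 ^ 21 * ((J : ℝ) + 1) * (Q ^ 7 * μ ^ 2) / (ρ * μ ^ 2 * T)) =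
      3 * 2 ^ 21 * ((J : ℝ) + 1) * Q ^ 7 / (ρ * T) := by field_simp
  rw [e3]
  apply div_le_div_of_nonneg_right _ (by positivity)
  have : 0 ≤ ((J : ℝ) + 1) * Q ^ 7 := by positivity
  nlinarith

theorem low_vol {T Q V μ : ℝ} {J : ℕ} (p : PC T Q V μ J) {g : ℤ × ℤ →+ ℂ} {h : T3}
    (f : Fam g μ V h) {ρ : ℝ} (hρ : 0 < ρ) :
    volume (TbH g T Q V h ∩ Low g ρ h) ≤ ENNReal.ofReal (2 ^ 26 * (J + 1) * Q ^ 5 * ρ / T ^ 2) := by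
  have hT := p.hT
  have hQ := p.hQ
  have hV := p.hV
  have hμ := p.hμ
  have key := vol_low (p.par f) (d := Q * V) (by positivity) hρ.le J p.hJ
  refine le_trans (measure_mono ?_) (le_trans key (ENNReal.ofReal_le_ofReal ?_))
  · rintro m ⟨h1, h2⟩
    exact ⟨h1, h2.1⟩
  · rw [div_le_div_iff₀ (by positivity) (by positivity)]
    have e1 : Q ^ 3 * (Q * V) ≤ Q ^ 5 * μ := by
      calc Q ^ 3 * (Q * V) = Q ^ 4 * V := by ring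
        _ ≤ Q ^ 4 * (Q * μ) := mul_le_mul_of_nonneg_left p.hVμ (by positivity)
        _ = _ := by ring
    have : 0 ≤ 2 ^ 26 * ((J : ℝ) + 1) * ρ * T ^ 2 := by positivity
    nlinarith [mul_le_mul_of_nonneg_left e1 this]

theorem meas_low {T Q V : ℝ} (g : ℤ × ℤ →+ ℂ) (ρ : ℝ) (h : T3) :
    MeasurableSet (TbH g T Q V h ∩ Low g ρ h) := by
  have c1 : Continuous (fun q : ℂ × ℂ × ℂ => q.1) := continuous_fst
  have c2 : Continuous (fun q : ℂ × ℂ × ℂ => q.2.1) := continuous_snd.fst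
  have c3 : Continuous (fun q : ℂ × ℂ × ℂ => q.2.2) := continuous_snd.snd
  exact ((closed_Tb _ _ _ _ _ _ _ _).inter ((isClosed_le (cont_wd' c1 (g h.1)).abs
    continuous_const).inter ((isClosed_le (cont_wd' c2 (g h.2.1)).abs continuous_const).inter
      (isClosed_le (cont_wd' c3 (g h.2.2)).abs continuous_const)))).measurableSet

theorem meas_high {T Q V : ℝ} (g : ℤ × ℤ →+ ℂ) (ρ : ℝ) (h : T3) :
    MeasurableSet (TbH g T Q V h ∩ High g ρ h) := by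
  have c1 : Continuous (fun q : ℂ × ℂ × ℂ => q.1) := continuous_fst
  have c2 : Continuous (fun q : ℂ × ℂ × ℂ => q.2.1) := continuous_snd.fst
  have c3 : Continuous (fun q : ℂ × ℂ × ℂ => q.2.2) := continuous_snd.snd
  exact ((closed_Tb _ _ _ _ _ _ _ _).inter ((isClosed_le continuous_const
    (cont_wd' c1 (g h.1)).abs).union ((isClosed_le continuous_const
      (cont_wd' c2 (g h.2.1)).abs).union (isClosed_le continuous_const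
        (cont_wd' c3 (g h.2.2)).abs)))).measurableSet

/-- number of `h` with a point in the low part -/
theorem low_count (hbox : BoxStmt) (han : AnnStmt) : ∀ c₀ : ℝ, 0 < c₀ → ∃ K : ℝ, 1 ≤ K ∧
    ∀ g : ℤ × ℤ →+ ℂ, Sep c₀ g → ∀ (T Q V μ ρ : ℝ) (J : ℕ), PC T Q V μ J → 0 < ρ → ρ ≤ T →
      ∀ 𝓗 : Finset T3, (∀ h ∈ 𝓗, Fam g μ V h ∧ (TbH g T Q V h ∩ Low g ρ h).Nonempty) →
      (𝓗.card : ℝ) ≤ K * (V ^ 4 + V ^ 6 * ρ ^ 4 / T ^ 4) := by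
  intro c₀ hc₀
  obtain ⟨K, hK, h⟩ := hclose hbox han c₀ hc₀
  refine ⟨8 * K, by linarith, ?_⟩
  intro g hg T Q V μ ρ J p hρ hρT 𝓗 h𝓗
  have hT := p.hT
  have hT0 : 0 < T := by linarith
  have hQ := p.hQ
  have hV := p.hV
  have hμ := p.hμ
  obtain ⟨X, hX⟩ : ∃ X, X = V * ρ ^ 2 / T ^ 2 := ⟨_, rfl⟩
  have hX0 : 0 ≤ X := by rw [hX]; positivity
  have hXV : X ≤ V := by
    rw [hX, div_le_iff₀ (by positivity)]
    exact mul_le_mul_of_nonneg_left (pow_le_pow_left₀ hρ.le hρT 2) (by linarith)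
  have key := h g hg V (2 + 2 * X) hV (by linarith) (by linarith) 𝓗 (by
    intro a ha
    obtain ⟨f, m, ⟨e1, e2, e3, e4, e5, e6⟩, b1, b2, b3⟩ := h𝓗 a ha
    have hw : ∀ {s : ℝ} {x : ℂ} {z : ℂ}, |‖x‖ ^ 2 - (T ^ 2 - ‖z‖ ^ 2 / 4)| ≤ Q →
        |‖x‖ ^ 2 + ‖z‖ ^ 2 / 4 - T ^ 2| ≤ Q := by
      intro s x z hx
      have : ‖x‖ ^ 2 + ‖z‖ ^ 2 / 4 - T ^ 2 = ‖x‖ ^ 2 - (T ^ 2 - ‖z‖ ^ 2 / 4) := by ring
      rw [this]; exact hx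
    have hfin : (Q * V + 2 * (V * (V ^ 2 + Q + ρ ^ 2) / T)) / T ≤ 2 + 2 * X := by
      have e : (Q * V + 2 * (V * (V ^ 2 + Q + ρ ^ 2) / T)) / T =
          (Q * V + 2 * (V * (V ^ 2 + Q) / T)) / T + 2 * X := by
        rw [hX]; field_simp; ring
      rw [e]
      have := p.hs
      linarith
    refine ⟨f.u₁, ?_, ?_⟩
    · refine le_trans ?_ hfin
      refine norm_close hT0 f.u₂ f.u₁ (by linarith [f.l₂]) (by linarith [f.l₁]) (hw (s := 0) e2)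
        (hw (s := 0) e1) ?_ b2 b1
      rw [abs_sub_comm]; exact e4
    · refine le_trans ?_ hfin
      refine norm_close hT0 f.u₃ f.u₁ (by linarith [f.l₃]) (by linarith [f.l₁]) (hw (s := 0) e3)
        (hw (s := 0) e1) ?_ b3 b1
      rw [abs_sub_comm]; exact e5)
  refine le_trans key ?_
  have e1 : (2 + 2 * X) ^ 2 ≤ 8 * (1 + X ^ 2) := by nlinarith [sq_nonneg (1 - X)]
  calc K * V ^ 4 * (2 + 2 * X) ^ 2 ≤ K * V ^ 4 * (8 * (1 + X ^ 2)) :=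
        mul_le_mul_of_nonneg_left e1 (by positivity)
    _ = 8 * K * (V ^ 4 + V ^ 6 * ρ ^ 4 / T ^ 4) := by rw [hX]; field_simp

/-- sum of the volumes of the low parts -/
theorem sing_sum (hbox : BoxStmt) (han : AnnStmt) : ∀ c₀ : ℝ, 0 < c₀ → ∃ K : ℝ, 1 ≤ K ∧
    ∀ g : ℤ × ℤ →+ ℂ, Sep c₀ g → ∀ (T Q V μ σ : ℝ) (J I : ℕ), PC T Q V μ J → 1 ≤ σ → σ ^ 2 ≤ T →
      2 ^ I * σ ≤ T → ∀ 𝓗 : Finset T3, (∀ h ∈ 𝓗, Fam g μ V h) →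
      ∑ h ∈ 𝓗, volume (TbH g T Q V h ∩ Low g (2 ^ I * σ) h) ≤
      ENNReal.ofReal (K * (J + 1) * (I + 1) * Q ^ 7 * (V ^ 4 * σ / T ^ 2 + V ^ 4 / (σ * T) +
        V ^ 6 * (2 ^ I * σ) ^ 3 / T ^ 5)) := by
  classical
  intro c₀ hc₀
  obtain ⟨K, hK, hcnt⟩ := low_count hbox han c₀ hc₀
  refine ⟨2 ^ 28 * K, by linarith, ?_⟩
  intro g hg T Q V μ σ J I p hσ hσT hI 𝓗 h𝓗
  have hT := p.hT
  have hT0 : 0 < T := by linarith
  have hQ := p.hQ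
  have hV := p.hV
  have hμ := p.hμ
  have hσ0 : 0 < σ := by linarith
  have hK0 : 0 < K := by linarith
  obtain ⟨Y, hY⟩ : ∃ Y, Y = V ^ 4 * σ / T ^ 2 + V ^ 4 / (σ * T) +
        V ^ 6 * (2 ^ I * σ) ^ 3 / T ^ 5 := ⟨_, rfl⟩
  have hY0 : 0 ≤ Y := by rw [hY]; positivity
  obtain ⟨Z, hZ⟩ : ∃ Z : ℝ, Z = 2 ^ 28 * K * (J + 1) * Q ^ 7 * Y := ⟨_, rfl⟩
  have hZ0 : 0 ≤ Z := by rw [hZ]; positivity
  have hQ57 : Q ^ 5 ≤ Q ^ 7 := pow_le_pow_right₀ hQ (by norm_num)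
  -- one level
  have hlev : ∀ (ρ ρ' : ℝ) (S : T3 → Set (ℂ × ℂ × ℂ)) (X : ℝ), 0 < ρ → ρ ≤ T → 0 ≤ X →
      (∀ h, S h ⊆ TbH g T Q V h ∩ Low g ρ h) → (∀ h ∈ 𝓗, volume (S h) ≤ ENNReal.ofReal X) →
      ∑ h ∈ 𝓗, volume (S h) ≤ ENNReal.ofReal (K * (V ^ 4 + V ^ 6 * ρ ^ 4 / T ^ 4) * X) := by
    intro ρ ρ' S X hρ hρT hX0 hS hX
    have e1 : ∑ h ∈ 𝓗, volume (S h) =
        ∑ h ∈ 𝓗.filter (fun h => (TbH g T Q V h ∩ Low g ρ h).Nonempty), volume (S h) := by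
      symm
      refine Finset.sum_filter_of_ne fun h _ hne => ?_
      by_contra hc
      rw [Set.not_nonempty_iff_eq_empty] at hc
      have : S h = ∅ := Set.subset_empty_iff.1 (hc ▸ hS h)
      rw [this, measure_empty] at hne
      exact hne rfl
    rw [e1]
    have e2 : ∑ h ∈ 𝓗.filter (fun h => (TbH g T Q V h ∩ Low g ρ h).Nonempty), volume (S h) ≤
        ∑ _h ∈ 𝓗.filter (fun h => (TbH g T Q V h ∩ Low g ρ h).Nonempty), ENNReal.ofReal X :=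
      Finset.sum_le_sum fun h hh => hX h (Finset.mem_filter.1 hh).1
    refine le_trans e2 ?_
    rw [Finset.sum_const, nsmul_eq_mul, ← ENNReal.ofReal_natCast,
      ← ENNReal.ofReal_mul (by positivity)]
    apply ENNReal.ofReal_le_ofReal
    refine mul_le_mul_of_nonneg_right ?_ hX0
    exact hcnt g hg T Q V μ ρ J p hρ hρT _ (fun h hh => by
      rw [Finset.mem_filter] at hh
      exact ⟨h𝓗 h hh.1, hh.2⟩)
  have h2I : ∀ i : ℕ, i ≤ I → (2 : ℝ) ^ i * σ ≤ 2 ^ I * σ := fun i hi =>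
    mul_le_mul_of_nonneg_right (pow_le_pow_right₀ (by norm_num) hi) hσ0.le
  -- bottom
  have hbot : ∑ h ∈ 𝓗, volume (TbH g T Q V h ∩ Low g σ h) ≤ ENNReal.ofReal Z := by
    have hσT' : σ ≤ T := by nlinarith
    refine le_trans (hlev σ σ (fun h => TbH g T Q V h ∩ Low g σ h)
      (2 ^ 26 * (J + 1) * Q ^ 5 * σ / T ^ 2) hσ0 hσT' (by positivity) (fun h => Set.Subset.refl _)
      (fun h hh => low_vol p (h𝓗 h hh) hσ0)) ?_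
    apply ENNReal.ofReal_le_ofReal
    have e1 : V ^ 6 * σ ^ 4 / T ^ 4 * (σ / T ^ 2) ≤ V ^ 6 * (2 ^ I * σ) ^ 3 / T ^ 5 := by
      have a1 : σ ^ 3 ≤ (2 ^ I * σ) ^ 3 := by
        refine pow_le_pow_left₀ hσ0.le ?_ 3
        have := h2I 0 (Nat.zero_le _)
        rwa [pow_zero, one_mul] at this
      have a2 : σ ^ 4 * σ ≤ (2 ^ I * σ) ^ 3 * T := by
        calc σ ^ 4 * σ = σ ^ 3 * σ ^ 2 := by ring
          _ ≤ (2 ^ I * σ) ^ 3 * T := mul_le_mul a1 hσT (by positivity) (by positivity)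
      rw [div_mul_div_comm, div_le_div_iff₀ (by positivity) (by positivity)]
      have a3 : 0 ≤ V ^ 6 * T ^ 5 := by positivity
      calc V ^ 6 * σ ^ 4 * σ * T ^ 5 = V ^ 6 * T ^ 5 * (σ ^ 4 * σ) := by ring
        _ ≤ V ^ 6 * T ^ 5 * ((2 ^ I * σ) ^ 3 * T) := mul_le_mul_of_nonneg_left a2 a3
        _ = V ^ 6 * (2 ^ I * σ) ^ 3 * (T ^ 4 * T ^ 2) := by ring
    have e2 : (V ^ 4 + V ^ 6 * σ ^ 4 / T ^ 4) * (σ / T ^ 2) ≤ Y := by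
      rw [add_mul, hY]
      have a1 : V ^ 4 * (σ / T ^ 2) = V ^ 4 * σ / T ^ 2 := by ring
      have a2 : 0 ≤ V ^ 4 / (σ * T) := by positivity
      rw [a1]
      linarith
    calc K * (V ^ 4 + V ^ 6 * σ ^ 4 / T ^ 4) * (2 ^ 26 * ((J : ℝ) + 1) * Q ^ 5 * σ / T ^ 2)
        = 2 ^ 26 * K * (J + 1) * Q ^ 5 * ((V ^ 4 + V ^ 6 * σ ^ 4 / T ^ 4) * (σ / T ^ 2)) := by ring
      _ ≤ 2 ^ 26 * K * (J + 1) * Q ^ 5 * Y := mul_le_mul_of_nonneg_left e2 (by positivity)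
      _ ≤ 2 ^ 28 * K * (J + 1) * Q ^ 7 * Y := by
          refine mul_le_mul_of_nonneg_right ?_ hY0
          have : 2 ^ 26 * K * ((J : ℝ) + 1) * Q ^ 5 ≤ 2 ^ 28 * K * (J + 1) * Q ^ 5 := by
            have : 0 ≤ K * ((J : ℝ) + 1) * Q ^ 5 := by positivity
            nlinarith
          exact le_trans this (mul_le_mul_of_nonneg_left hQ57 (by positivity))
      _ = Z := by rw [hZ]
  -- step
  have hstep : ∀ i : ℕ, i < I → ∑ h ∈ 𝓗, volume (TbH g T Q V h ∩ Low g (2 ^ (i + 1) * σ) h) ≤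
      ∑ h ∈ 𝓗, volume (TbH g T Q V h ∩ Low g (2 ^ i * σ) h) + ENNReal.ofReal Z := by
    intro i hi
    obtain ⟨ρ, hρ⟩ : ∃ ρ : ℝ, ρ = 2 ^ i * σ := ⟨_, rfl⟩
    have hρσ : σ ≤ ρ := by
      rw [hρ]
      have : (1 : ℝ) ≤ 2 ^ i := one_le_pow₀ (by norm_num)
      nlinarith
    have hρ0 : 0 < ρ := by linarith
    have h2ρ : 2 ^ (i + 1) * σ = 2 * ρ := by rw [hρ, pow_succ]; ring
    have h2ρI : 2 * ρ ≤ 2 ^ I * σ := by rw [← h2ρ]; exact h2I (i + 1) hi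
    have h2ρT : 2 * ρ ≤ T := le_trans h2ρI hI
    rw [h2ρ, ← hρ]
    have e1 : ∀ h ∈ 𝓗, volume (TbH g T Q V h ∩ Low g (2 * ρ) h) ≤
        volume (TbH g T Q V h ∩ Low g ρ h) +
          volume (TbH g T Q V h ∩ Low g (2 * ρ) h ∩ High g ρ h) := by
      intro h _
      refine le_trans (measure_mono ?_) (measure_union_le _ _)
      rintro m ⟨h1, h2⟩
      rcases low_or_high g ρ h m with h3 | h3
      · exact Or.inl ⟨h1, h3⟩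
      · exact Or.inr ⟨⟨h1, h2⟩, h3⟩
    refine le_trans (Finset.sum_le_sum e1) ?_
    rw [Finset.sum_add_distrib]
    refine add_le_add le_rfl ?_
    refine le_trans (hlev (2 * ρ) ρ (fun h => TbH g T Q V h ∩ Low g (2 * ρ) h ∩ High g ρ h)
      (2 ^ 23 * (J + 1) * Q ^ 7 / (ρ * T)) (by positivity) h2ρT (by positivity)
      (fun h => Set.inter_subset_left)
      (fun h hh => by
        refine le_trans (measure_mono ?_) (high_vol p (h𝓗 h hh) hρ0)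
        rintro m ⟨⟨h1, -⟩, h3⟩
        exact ⟨h1, h3⟩)) ?_
    apply ENNReal.ofReal_le_ofReal
    have a1 : V ^ 4 / (ρ * T) ≤ V ^ 4 / (σ * T) := by
      apply div_le_div_of_nonneg_left (by positivity) (by positivity)
      exact mul_le_mul_of_nonneg_right hρσ hT0.le
    have a2 : V ^ 6 * (2 * ρ) ^ 4 / T ^ 4 / (ρ * T) ≤ 2 * (V ^ 6 * (2 ^ I * σ) ^ 3 / T ^ 5) := by
      have b1 : (2 * ρ) ^ 3 ≤ (2 ^ I * σ) ^ 3 := pow_le_pow_left₀ (by positivity) h2ρI 3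
      have b2 : V ^ 6 * (2 * ρ) ^ 4 / T ^ 4 / (ρ * T) = 2 * (V ^ 6 * (2 * ρ) ^ 3 / T ^ 5) := by
        field_simp
      rw [b2]
      have : V ^ 6 * (2 * ρ) ^ 3 / T ^ 5 ≤ V ^ 6 * (2 ^ I * σ) ^ 3 / T ^ 5 :=
        div_le_div_of_nonneg_right (mul_le_mul_of_nonneg_left b1 (by positivity)) (by positivity)
      linarith
    have a3 : (V ^ 4 + V ^ 6 * (2 * ρ) ^ 4 / T ^ 4) / (ρ * T) ≤ 2 * Y := by
      rw [add_div, hY]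
      have : 0 ≤ V ^ 4 * σ / T ^ 2 := by positivity
      have : 0 ≤ V ^ 4 / (σ * T) := by positivity
      linarith
    calc K * (V ^ 4 + V ^ 6 * (2 * ρ) ^ 4 / T ^ 4) * (2 ^ 23 * ((J : ℝ) + 1) * Q ^ 7 / (ρ * T))
        = 2 ^ 23 * K * (J + 1) * Q ^ 7 * ((V ^ 4 + V ^ 6 * (2 * ρ) ^ 4 / T ^ 4) / (ρ * T)) := by
          ring
      _ ≤ 2 ^ 23 * K * (J + 1) * Q ^ 7 * (2 * Y) := mul_le_mul_of_nonneg_left a3 (by positivity)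
      _ ≤ Z := by
          rw [hZ]
          have : 0 ≤ K * ((J : ℝ) + 1) * Q ^ 7 * Y := by positivity
          nlinarith
  have ind : ∀ i : ℕ, i ≤ I → ∑ h ∈ 𝓗, volume (TbH g T Q V h ∩ Low g (2 ^ i * σ) h) ≤
      ENNReal.ofReal (Z * (i + 1)) := by
    intro i
    induction i with
    | zero =>
      intro _
      simp only [pow_zero, one_mul, Nat.cast_zero, zero_add, mul_one]
      exact hbot
    | succ i ih =>
      intro hi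
      refine le_trans (hstep i (by omega)) (le_trans (add_le_add (ih (by omega)) le_rfl) ?_)
      rw [← ENNReal.ofReal_add (by positivity) hZ0]
      apply ENNReal.ofReal_le_ofReal
      push_cast
      linarith
  refine le_trans (ind I le_rfl) (ENNReal.ofReal_le_ofReal (le_of_eq ?_))
  rw [hZ, hY]
  ring

end Pool.Agent.Helper46_F5N
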