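import Pool.Agent.Helper68_F5.Cnt

/-!
MP_f5cbfa_nt, block N: from a point `m` near the ray of which `v` lies to the conditions of the
pair count (one and two indices).
-/

set_option autoImplicit false

namespace Pool.Agent.Helper46_F5N

open Pool.Agent.Helper68_F5

theorem m_bd {Q T U : ℝ} {m H : ℂ} (hT : 0 < T) (hU : U ^ 2 + Q ≤ T ^ 2 / 2)
    (hH : ‖H‖ ≤ U) (h : |‖m‖ ^ 2 + ‖H‖ ^ 2 / 4 - T ^ 2| ≤ Q) :
    T / 2 ≤ ‖m‖ ∧ ‖m‖ ≤ 2 * T ∧ |‖m‖ - T| ≤ (U ^ 2 + Q) / T := by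
  have h1 := (abs_le.1 h).1
  have h2 := (abs_le.1 h).2
  have hn := norm_nonneg H
  have h3 : ‖H‖ ^ 2 ≤ U ^ 2 := pow_le_pow_left₀ hn hH 2
  have hm := norm_nonneg m
  have h4 : 0 ≤ ‖H‖ ^ 2 := by positivity
  have a1 : T / 2 ≤ ‖m‖ := by
    by_contra hc
    rw [not_le] at hc
    nlinarith
  refine ⟨a1, ?_, ?_⟩
  · by_contra hc
    rw [not_le] at hc
    nlinarith
  · rw [le_div_iff₀ hT]
    have e : (‖m‖ - T) * (‖m‖ + T) = ‖m‖ ^ 2 - T ^ 2 := by ring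
    have e2 : |‖m‖ - T| * (‖m‖ + T) = |‖m‖ ^ 2 - T ^ 2| := by
      rw [← e, abs_mul, abs_of_pos (by linarith : 0 < ‖m‖ + T)]
    have h5 : |‖m‖ ^ 2 - T ^ 2| ≤ U ^ 2 + Q := by
      rw [abs_le]; constructor <;> nlinarith
    have h6 : |‖m‖ - T| * T ≤ |‖m‖ - T| * (‖m‖ + T) :=
      mul_le_mul_of_nonneg_left (by linarith) (abs_nonneg _)
    linarith

theorem nu_bd {Q T ν : ℝ} {m v : ℂ} (hm1 : T / 2 ≤ ‖m‖) (hm2 : ‖m‖ ≤ 2 * T)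
    (h : ‖v - ν * m‖ ≤ Q) : ‖v‖ ≤ 2 * (|ν| * T) + Q ∧ |ν| * T ≤ 2 * (‖v‖ + Q) ∧
      |‖v‖ - |ν| * ‖m‖| ≤ Q := by
  have e1 : ‖(ν : ℂ) * m‖ = |ν| * ‖m‖ := by rw [norm_mul, Complex.norm_real, Real.norm_eq_abs]
  have h1 : |‖v‖ - |ν| * ‖m‖| ≤ Q := by
    rw [← e1]
    exact le_trans (abs_norm_sub_norm_le _ _) h
  have h2 := abs_le.1 h1
  have h3 : |ν| * ‖m‖ ≤ |ν| * (2 * T) := mul_le_mul_of_nonneg_left hm2 (abs_nonneg _)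
  have h4 : |ν| * (T / 2) ≤ |ν| * ‖m‖ := mul_le_mul_of_nonneg_left hm1 (abs_nonneg _)
  refine ⟨by linarith, by linarith, h1⟩

theorem wd_small {Q T ν : ℝ} {m v : ℂ} (hm2 : ‖m‖ ≤ 2 * T)
    (h : ‖v - ν * m‖ ≤ Q) : |wd m v| ≤ 2 * Q * T := by
  have e : wd m v = wd m (v - ν * m) := by
    rw [wd_sub, wd_real']
    simp only [wd]; ring
  rw [e]
  refine le_trans (abs_wd_le _ _) ?_
  calc ‖m‖ * ‖v - ν * m‖ ≤ (2 * T) * Q :=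
        mul_le_mul hm2 h (norm_nonneg _) (by linarith [norm_nonneg m])
    _ = 2 * Q * T := by ring

theorem sp_big {Q T ν : ℝ} {m v : ℂ} (hT : 0 ≤ T) (hm1 : T / 2 ≤ ‖m‖) (hm2 : ‖m‖ ≤ 2 * T)
    (h : ‖v - ν * m‖ ≤ Q) : T * (|ν| * T / 4 - 2 * Q) ≤ |sp m v| := by
  have e : sp m v = ν * ‖m‖ ^ 2 + sp m (v - ν * m) := by
    rw [sp_sub, sp_real', sp_self]; ring
  have h1 : |sp m (v - ν * m)| ≤ 2 * T * Q := by
    refine le_trans (abs_sp_le _ _) ?_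
    exact mul_le_mul hm2 h (norm_nonneg _) (by linarith)
  have h2 : |ν| * (T / 2) ^ 2 ≤ |ν * ‖m‖ ^ 2| := by
    rw [abs_mul, abs_of_nonneg (sq_nonneg ‖m‖)]
    exact mul_le_mul_of_nonneg_left (pow_le_pow_left₀ (by linarith) hm1 2) (abs_nonneg _)
  have h3 : |ν * ‖m‖ ^ 2| ≤ |sp m v| + |sp m (v - ν * m)| := by
    have : ν * ‖m‖ ^ 2 = sp m v - sp m (v - ν * m) := by rw [e]; ring
    rw [this]
    exact abs_sub _ _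
  nlinarith

/-- determinants of `v` from determinants of `m` -/
theorem wd_v_big {Q T ν : ℝ} {m₁ m₂ v₁ v₂ : ℂ} (hT : 0 ≤ T) (hQ : 1 ≤ Q)
    (h11 : T / 2 ≤ ‖m₁‖) (h12 : ‖m₁‖ ≤ 2 * T) (h21 : T / 2 ≤ ‖m₂‖) (h22 : ‖m₂‖ ≤ 2 * T)
    (hw : ‖m₁‖ * ‖m₂‖ ≤ Q * |wd m₁ m₂|) (h1 : ‖v₁ - ν * m₁‖ ≤ Q) (h2 : ‖v₂ - ν * m₂‖ ≤ Q)
    (hx : 100 * Q ^ 2 ≤ |ν| * T) : ‖v₁‖ * ‖v₂‖ ≤ 8 * (4 * Q) * |wd v₁ v₂| := by
  obtain ⟨x, hxx⟩ : ∃ x, x = |ν| * T := ⟨_, rfl⟩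
  rw [← hxx] at hx
  have a1 := (nu_bd h11 h12 h1).1
  have a2 := (nu_bd h21 h22 h2).1
  rw [← hxx] at a1 a2
  have hx0 : 0 ≤ x := by rw [hxx]; positivity
  have e : wd v₁ v₂ = ν ^ 2 * wd m₁ m₂ + (ν * (wd m₁ (v₂ - ν * m₂)) + ν * wd (v₁ - ν * m₁) m₂) +
      wd (v₁ - ν * m₁) (v₂ - ν * m₂) := by
    simp only [wd, Complex.sub_re, Complex.sub_im, Complex.mul_re, Complex.mul_im,
      Complex.ofReal_re, Complex.ofReal_im]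
    ring
  have b1 : |ν * (wd m₁ (v₂ - ν * m₂))| ≤ 2 * Q * x := by
    rw [abs_mul, hxx]
    calc |ν| * |wd m₁ (v₂ - ν * m₂)| ≤ |ν| * (‖m₁‖ * ‖v₂ - ν * m₂‖) :=
          mul_le_mul_of_nonneg_left (abs_wd_le _ _) (abs_nonneg _)
      _ ≤ |ν| * ((2 * T) * Q) := by
          refine mul_le_mul_of_nonneg_left (mul_le_mul h12 h2 (norm_nonneg _) (by linarith))
            (abs_nonneg _)
      _ = _ := by ring
  have b2 : |ν * wd (v₁ - ν * m₁) m₂| ≤ 2 * Q * x := by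
    rw [abs_mul, hxx]
    calc |ν| * |wd (v₁ - ν * m₁) m₂| ≤ |ν| * (‖v₁ - ν * m₁‖ * ‖m₂‖) :=
          mul_le_mul_of_nonneg_left (abs_wd_le _ _) (abs_nonneg _)
      _ ≤ |ν| * (Q * (2 * T)) := by
          refine mul_le_mul_of_nonneg_left (mul_le_mul h1 h22 (norm_nonneg _) (by linarith))
            (abs_nonneg _)
      _ = _ := by ring
  have b3 : |wd (v₁ - ν * m₁) (v₂ - ν * m₂)| ≤ Q ^ 2 := by
    refine le_trans (abs_wd_le _ _) ?_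
    calc ‖v₁ - ν * m₁‖ * ‖v₂ - ν * m₂‖ ≤ Q * Q := mul_le_mul h1 h2 (norm_nonneg _) (by linarith)
      _ = Q ^ 2 := by ring
  have b4 : |ν ^ 2 * wd m₁ m₂| ≤ |wd v₁ v₂| + (2 * Q * x + 2 * Q * x) + Q ^ 2 := by
    have : ν ^ 2 * wd m₁ m₂ = wd v₁ v₂ - (ν * (wd m₁ (v₂ - ν * m₂)) +
        ν * wd (v₁ - ν * m₁) m₂) - wd (v₁ - ν * m₁) (v₂ - ν * m₂) := by rw [e]; ring
    rw [this]
    refine le_trans (abs_sub _ _) (add_le_add (le_trans (abs_sub _ _) (add_le_add le_rfl ?_)) b3)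
    exact le_trans (abs_add_le _ _) (add_le_add b1 b2)
  have b5 : x ^ 2 / 4 ≤ Q * |ν ^ 2 * wd m₁ m₂| := by
    have c1 : (T / 2) * (T / 2) ≤ ‖m₁‖ * ‖m₂‖ := mul_le_mul h11 h21 (by linarith) (norm_nonneg _)
    have c2 : ν ^ 2 * ((T / 2) * (T / 2)) ≤ ν ^ 2 * (Q * |wd m₁ m₂|) :=
      mul_le_mul_of_nonneg_left (le_trans c1 hw) (sq_nonneg _)
    rw [abs_mul, abs_of_nonneg (sq_nonneg ν), hxx, mul_pow, sq_abs]
    nlinarith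
  have hQ0 : 0 < Q := by linarith
  have c3 : 5 * Q * x ≤ x ^ 2 / (20 * Q) := by
    rw [le_div_iff₀ (by positivity)]
    nlinarith
  have c4 : Q ^ 2 ≤ Q * x := by nlinarith
  have c5 : x ^ 2 / (4 * Q) ≤ |ν ^ 2 * wd m₁ m₂| := by
    rw [div_le_iff₀ (by positivity)]
    linarith
  have c6 : x ^ 2 / (5 * Q) ≤ |wd v₁ v₂| := by
    have : x ^ 2 / (5 * Q) = x ^ 2 / (4 * Q) - x ^ 2 / (20 * Q) := by field_simp; ring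
    rw [this]
    linarith
  have c7 : x ^ 2 ≤ 5 * Q * |wd v₁ v₂| := by
    rw [div_le_iff₀ (by positivity)] at c6
    linarith
  have c8 : ‖v₁‖ * ‖v₂‖ ≤ (2 * x + Q) * (2 * x + Q) :=
    mul_le_mul a1 a2 (norm_nonneg _) (by positivity)
  have c9 : (2 * x + Q) * (2 * x + Q) ≤ 6 * x ^ 2 := by nlinarith
  nlinarith

end Pool.Agent.Helper46_F5N
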