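import Pool.Agent.Helper46_F5N.SmallC

/-!
MP_f5cbfa_nt, block N, both tangential components `n₂`, `n₃` small: number of pairs `(v, h)`.
-/

set_option autoImplicit false

open MeasureTheory

namespace Pool.Agent.Helper46_F5N

open Pool.Agent.Helper68_F5

/-- sum over `(v, h₃)` of a function of `v₁` times a function of `v₂` -/
theorem fib4 (𝓤 : Finset (T3 × (ℤ × ℤ))) (F G : ℤ × ℤ → ℝ) (hF : ∀ z, 0 ≤ F z)
    (hG : ∀ z, 0 ≤ G z) {N₁ N₂ N₃ : ℝ} (h2 : 0 ≤ N₂) (h3 : 0 ≤ N₃)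
    (a1 : ∑ v₁ ∈ 𝓤.image (fun u => u.1.1), F v₁ ≤ N₁)
    (a2 : ∀ v₁ ∈ 𝓤.image (fun u => u.1.1),
      ∑ v₂ ∈ (𝓤.filter (fun u => u.1.1 = v₁)).image (fun u => u.1.2.1), G v₂ ≤ N₂)
    (a3 : ∀ w ∈ 𝓤, ((((𝓤.filter (fun u => u.1.1 = w.1.1)).filter
      (fun u => u.1.2.1 = w.1.2.1)).image (fun u => (u.1.2.2, u.2))).card : ℝ) ≤ N₃) :
    ∑ u ∈ 𝓤, F u.1.1 * G u.1.2.1 ≤ N₁ * (N₂ * N₃) := by
  classical
  rw [← Finset.sum_fiberwise_of_maps_to (t := 𝓤.image (fun u => u.1.1))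
    (g := fun u : T3 × (ℤ × ℤ) => u.1.1) (fun u hu => Finset.mem_image_of_mem _ hu)]
  have key : ∀ v₁ ∈ 𝓤.image (fun u => u.1.1),
      ∑ u ∈ 𝓤.filter (fun u => u.1.1 = v₁), F u.1.1 * G u.1.2.1 ≤ F v₁ * (N₂ * N₃) := by
    intro v₁ hv₁
    have e3 : ∑ u ∈ 𝓤.filter (fun u => u.1.1 = v₁), F u.1.1 * G u.1.2.1 =
        F v₁ * ∑ u ∈ 𝓤.filter (fun u => u.1.1 = v₁), G u.1.2.1 := by
      rw [Finset.mul_sum]
      refine Finset.sum_congr rfl fun u hu => ?_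
      rw [(Finset.mem_filter.1 hu).2]
    rw [e3]
    refine mul_le_mul_of_nonneg_left ?_ (hF _)
    rw [← Finset.sum_fiberwise_of_maps_to
      (t := (𝓤.filter (fun u => u.1.1 = v₁)).image (fun u => u.1.2.1))
      (g := fun u : T3 × (ℤ × ℤ) => u.1.2.1)
      (fun v hv => Finset.mem_image_of_mem _ hv)]
    refine le_trans ?_ (mul_le_mul_of_nonneg_right (a2 v₁ hv₁) h3)
    rw [Finset.sum_mul]
    refine Finset.sum_le_sum fun v₂ hv₂ => ?_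
    have e4 : ∑ u ∈ (𝓤.filter (fun u => u.1.1 = v₁)).filter (fun u => u.1.2.1 = v₂), G u.1.2.1 =
        (((𝓤.filter (fun u => u.1.1 = v₁)).filter (fun u => u.1.2.1 = v₂)).card : ℝ) * G v₂ := by
      rw [← nsmul_eq_mul, ← Finset.sum_const]
      refine Finset.sum_congr rfl fun v hv => ?_
      rw [(Finset.mem_filter.1 hv).2]
    rw [e4, mul_comm (G v₂)]
    refine mul_le_mul_of_nonneg_right ?_ (hG _)
    have hinj : Set.InjOn (fun u : T3 × (ℤ × ℤ) => (u.1.2.2, u.2))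
        ((𝓤.filter (fun u => u.1.1 = v₁)).filter (fun u => u.1.2.1 = v₂) : Finset _) := by
      intro x hx y hy hxy
      rw [Finset.mem_coe, Finset.mem_filter, Finset.mem_filter] at hx hy
      have h4 : x.1.2.2 = y.1.2.2 := (Prod.ext_iff.1 hxy).1
      have h5 : x.2 = y.2 := (Prod.ext_iff.1 hxy).2
      exact Prod.ext (Prod.ext (hx.1.2.trans hy.1.2.symm) (Prod.ext (hx.2.trans hy.2.symm) h4)) h5
    rw [← Finset.card_image_of_injOn hinj]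
    rw [Finset.mem_image] at hv₂
    obtain ⟨w, hw, rfl⟩ := hv₂
    rw [Finset.mem_filter] at hw
    have := a3 w hw.1
    rw [hw.2] at this
    exact this
  calc ∑ v₁ ∈ 𝓤.image (fun u => u.1.1), ∑ u ∈ 𝓤.filter (fun u => u.1.1 = v₁), F u.1.1 * G u.1.2.1
      ≤ ∑ v₁ ∈ 𝓤.image (fun u => u.1.1), F v₁ * (N₂ * N₃) := Finset.sum_le_sum key
    _ = (∑ v₁ ∈ 𝓤.image (fun u => u.1.1), F v₁) * (N₂ * N₃) := by rw [Finset.sum_mul]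
    _ ≤ N₁ * (N₂ * N₃) := mul_le_mul_of_nonneg_right a1 (mul_nonneg h2 h3)

/-- a pair with both components small -/
structure PairS (g : ℤ × ℤ →+ ℂ) (P R S V₁ V₂ V₃ ω₁ ω₂ ω₃ N : ℝ) (v h : T3) : Prop where
  pair : Pair g P R S V₁ V₂ V₃ ω₁ ω₂ ω₃ v h
  small₂ : |wd (g v.2.1) (g h.2.1)| ≤ N * R
  small₃ : |wd (g v.2.2) (g h.2.2)| ≤ N * R

/-- the bound of the count of small pairs -/
noncomputable def NS (P R S V₁ V₂ V₃ ω₁ ω₂ N : ℝ) : ℝ :=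
  R ^ 3 * FF R V₁ (WW P R S V₁ V₁ ω₁) *
    FF R (1 + 8 * N + 8 * WW P R S V₁ V₂ ω₂ / R) (WW P R S V₁ V₂ ω₂) *
    (V₃ ^ 2 + N * R * V₃ + R)

theorem small_count (hst : StripStmt) (hds : DiscStripStmt) (hbox : BoxStmt) (han : AnnStmt)
    (has : AnnStripStmt) (hsh : ShortStmt) : ∀ c₀ : ℝ, 0 < c₀ → ∃ K : ℝ, 1 ≤ K ∧
    ∀ g : ℤ × ℤ →+ ℂ, Sep c₀ g → ∀ (P R S V₁ V₂ V₃ ω₁ ω₂ ω₃ N : ℝ), 1 ≤ P →
      18432 * P ^ 3 ≤ R → 0 < S → 1 ≤ V₃ → V₃ ≤ V₂ → V₂ ≤ V₁ → 0 ≤ ω₁ → 0 ≤ ω₂ → 0 ≤ N →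
      ∀ 𝓟 : Finset (T3 × T3), (∀ p ∈ 𝓟, PairS g P R S V₁ V₂ V₃ ω₁ ω₂ ω₃ N p.1 p.2) →
        (𝓟.card : ℝ) ≤ K * P ^ 8 * NS P R S V₁ V₂ V₃ ω₁ ω₂ N := by
  classical
  intro c₀ hc₀
  obtain ⟨K₁, hK₁, h1⟩ := dcount hst c₀ hc₀
  obtain ⟨K₂, hK₂, h2⟩ := dcount_piece hst c₀ hc₀
  obtain ⟨K₃, hK₃, h3⟩ := dsum_ann han has hsh c₀ hc₀
  obtain ⟨K₄, hK₄, h4⟩ := dsum_disc hds hbox hsh c₀ hc₀
  obtain ⟨K₅, hK₅, h5⟩ := third_count has han hds hsh c₀ hc₀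
  refine ⟨K₁ * K₂ * (K₄ * (K₃ * K₅)), ?_, ?_⟩
  · have a1 : 1 ≤ K₁ * K₂ := by nlinarith
    have a2 : 1 ≤ K₃ * K₅ := by nlinarith
    have a3 : 1 ≤ K₄ * (K₃ * K₅) := by nlinarith
    nlinarith
  intro g hg P R S V₁ V₂ V₃ ω₁ ω₂ ω₃ N hP hPR hS h30 h32 h21 hω₁ hω₂ hN 𝓟 h𝓟
  have hP3 : 1 ≤ P ^ 3 := one_le_pow₀ hP
  have hPP3 : P ≤ P ^ 3 := by
    calc P = P ^ 1 := (pow_one P).symm
      _ ≤ P ^ 3 := pow_le_pow_right₀ hP (by norm_num)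
  have hPR4 : 4 * P ≤ R := by linarith
  have hR : 1 ≤ R := by linarith
  have hR0 : 0 < R := by linarith
  have hP0 : 0 < P := by linarith
  obtain ⟨W₁, hW₁⟩ : ∃ W, W = WW P R S V₁ V₁ ω₁ := ⟨_, rfl⟩
  obtain ⟨W₂, hW₂⟩ : ∃ W, W = WW P R S V₁ V₂ ω₂ := ⟨_, rfl⟩
  have hW₁0 : 0 ≤ W₁ := by rw [hW₁]; exact WW_nonneg hR0.le hS.le (by linarith) hω₁
  have hW₂0 : 0 ≤ W₂ := by rw [hW₂]; exact WW_nonneg hR0.le hS.le (by linarith) hω₂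
  obtain ⟨V', hV'⟩ : ∃ V, V = 1 + 8 * N + 8 * W₂ / R := ⟨_, rfl⟩
  have hV'0 : 0 ≤ V' := by rw [hV']; positivity
  have hF₁ := FF_ge (R := R) (V := V₁) (W := W₁) hR (by linarith) hW₁0
  have hF₂ := FF_ge (R := R) (V := V') (W := W₂) hR hV'0 hW₂0
  -- the projection
  obtain ⟨𝓤, h𝓤⟩ : ∃ 𝓤, 𝓤 = 𝓟.image (fun p => (p.1, p.2.2.2)) := ⟨_, rfl⟩
  have hu : ∀ u ∈ 𝓤, R ≤ ‖g u.1.1‖ ∧ ‖g u.1.1‖ ≤ 2 * R ∧
      Tri P ‖g u.1.1‖ (g u.1.1) (g u.1.2.1) (g u.1.2.2) ∧ ‖g u.2‖ ≤ V₃ ∧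
      |wd (g u.1.2.2) (g u.2)| ≤ N * R := by
    intro u hu
    rw [h𝓤, Finset.mem_image] at hu
    obtain ⟨p, hp, rfl⟩ := hu
    have := h𝓟 p hp
    exact ⟨this.pair.lo, this.pair.hi, this.pair.tri, this.pair.win.n₃, this.small₃⟩
  have hDP₁ : ∀ z, 0 ≤ DP g P R V₁ W₁ (g z) := fun z => by
    have := DP_nonneg g (P := P) (by linarith : (0 : ℝ) ≤ V₁) hW₁0 hR0.le (g z)
    linarith
  have hDP₂ : ∀ z, 0 ≤ DP g P R V' W₂ (g z) := fun z => by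
    have := DP_nonneg g (P := P) hV'0 hW₂0 hR0.le (g z)
    linarith
  -- number of pairs as a sum over `(v, h₃)`
  have e1 : (𝓟.card : ℝ) ≤ ∑ u ∈ 𝓤, K₁ * K₂ * (DP g P R V₁ W₁ (g u.1.1) *
      DP g P R V' W₂ (g u.1.2.1)) := by
    have h5 := Finset.card_eq_sum_card_image (fun p : T3 × T3 => (p.1, p.2.2.2)) 𝓟
    have h6 : (𝓟.card : ℝ) = ∑ u ∈ 𝓤, ((𝓟.filter (fun p => (p.1, p.2.2.2) = u)).card : ℝ) := by
      rw [h5, h𝓤]; push_cast; rfl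
    rw [h6]
    refine Finset.sum_le_sum fun u hu' => ?_
    obtain ⟨hlo, hhi, ht, -, -⟩ := hu u hu'
    have hR' : ∀ p ∈ 𝓟.filter (fun p => (p.1, p.2.2.2) = u), p ∈ 𝓟 ∧ p.1 = u.1 ∧ p.2.2.2 = u.2 := by
      intro p hp
      rw [Finset.mem_filter] at hp
      exact ⟨hp.1, (Prod.ext_iff.1 hp.2).1, (Prod.ext_iff.1 hp.2).2⟩
    have hA₁ : bf (A0 ‖g u.1.1‖ (g u.1.1) (g u.1.2.1) (g u.1.2.2)) (g u.1.1) (g u.1.1) =
      ‖g u.1.1‖ ^ 2 := itp_val₁ ht.w12 ht.w23 ht.w31 _ _ _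
    have hA₂ : bf (A0 ‖g u.1.1‖ (g u.1.1) (g u.1.2.1) (g u.1.2.2)) (g u.1.2.1) (g u.1.2.1) =
      ‖g u.1.1‖ ^ 2 := itp_val₂ ht.w12 ht.w23 ht.w31 _ _ _
    have hst' : ∀ p ∈ 𝓟.filter (fun p => (p.1, p.2.2.2) = u),
        ‖g p.2.1‖ ≤ V₁ ∧ |wd (g u.1.2.1) (g p.2.2.1)| ≤ N * R ∧
        |bf (A0 ‖g u.1.1‖ (g u.1.1) (g u.1.2.1) (g u.1.2.2)) (g u.1.1) (g p.2.1) -
          bf (A0 ‖g u.1.1‖ (g u.1.1) (g u.1.2.1) (g u.1.2.2)) (g u.1.2.2) (g u.2)| ≤ W₁ ∧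
        |bf (A0 ‖g u.1.1‖ (g u.1.1) (g u.1.2.1) (g u.1.2.2)) (g u.1.2.1) (g p.2.2.1) -
          bf (A0 ‖g u.1.1‖ (g u.1.1) (g u.1.2.1) (g u.1.2.2)) (g u.1.2.2) (g u.2)| ≤ W₂ := by
      intro p hp
      obtain ⟨hp1, hp2, hp3⟩ := hR' p hp
      have hq := h𝓟 p hp1
      have h7 := hq.pair.win.strips hq.pair.tri hS hq.pair.hi h21 h32 (by linarith)
      rw [hp2] at h7
      rw [hp3] at h7
      rw [← hW₁, ← hW₂] at h7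
      have h8 := hq.small₂
      rw [hp2] at h8
      exact ⟨hq.pair.win.n₁, h8, h7.1, h7.2.1⟩
    -- fibres over `h₂`
    have f1 : ∀ b : ℤ × ℤ, (((𝓟.filter (fun p => (p.1, p.2.2.2) = u)).filter
        (fun p => p.2.2.1 = b)).card : ℝ) ≤ K₁ * DP g P R V₁ W₁ (g u.1.1) := by
      intro b
      have hinj : Set.InjOn (fun p : T3 × T3 => p.2.1)
          ((𝓟.filter (fun p => (p.1, p.2.2.2) = u)).filter (fun p => p.2.2.1 = b) : Finset _) := by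
        intro x hx y hy hxy
        rw [Finset.mem_coe, Finset.mem_filter] at hx hy
        obtain ⟨-, hx2, hx3⟩ := hR' x hx.1
        obtain ⟨-, hy2, hy3⟩ := hR' y hy.1
        exact Prod.ext (hx2.trans hy2.symm) (Prod.ext hxy (Prod.ext (hx.2.trans hy.2.symm)
          (hx3.trans hy3.symm)))
      rw [← Finset.card_image_of_injOn hinj]
      refine h1 g hg P R ‖g u.1.1‖ V₁ W₁ (bf (A0 ‖g u.1.1‖ (g u.1.1) (g u.1.2.1) (g u.1.2.2))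
        (g u.1.2.2) (g u.2)) (g u.1.1) (g u.1.2.1) (g u.1.2.2) (g u.1.1) ht hR hlo ht.n₁ hA₁
        (by linarith) hW₁0 _ ?_ ?_
      · intro z hz
        rw [Finset.mem_image] at hz
        obtain ⟨p, hp, rfl⟩ := hz
        exact (hst' p (Finset.mem_filter.1 hp).1).1
      · intro z hz
        rw [Finset.mem_image] at hz
        obtain ⟨p, hp, rfl⟩ := hz
        exact (hst' p (Finset.mem_filter.1 hp).1).2.2.1
    have f2 : (((𝓟.filter (fun p => (p.1, p.2.2.2) = u)).image (fun p => p.2.2.1)).card : ℝ) ≤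
        K₂ * DP g P R V' W₂ (g u.1.2.1) := by
      rw [hV']
      refine h2 g hg P R ‖g u.1.1‖ N W₂ (bf (A0 ‖g u.1.1‖ (g u.1.1) (g u.1.2.1) (g u.1.2.2))
        (g u.1.2.2) (g u.2)) (g u.1.1) (g u.1.2.1) (g u.1.2.2) (g u.1.2.1) ht hPR hlo ht.n₂ hA₂
        hN hW₂0 _ ?_ ?_
      · intro z hz
        rw [Finset.mem_image] at hz
        obtain ⟨p, hp, rfl⟩ := hz
        exact (hst' p hp).2.1
      · intro z hz
        rw [Finset.mem_image] at hz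
        obtain ⟨p, hp, rfl⟩ := hz
        exact (hst' p hp).2.2.2
    have f3 := card_fib (fun p : T3 × T3 => p.2.2.1)
      (mul_nonneg (by linarith : (0 : ℝ) ≤ K₁) (hDP₁ _)) f1 f2
    refine le_trans f3 (le_of_eq ?_)
    ring
  -- the sum over `(v, h₃)`
  have e2 : ∑ u ∈ 𝓤, DP g P R V₁ W₁ (g u.1.1) * DP g P R V' W₂ (g u.1.2.1) ≤
      (K₄ * P ^ 3 * R ^ 2 * FF R V₁ W₁) * ((K₃ * P ^ 4 * R * FF R V' W₂) *
        (K₅ * P * (V₃ ^ 2 + N * R * V₃ + R))) := by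
    refine fib4 𝓤 (fun z => DP g P R V₁ W₁ (g z)) (fun z => DP g P R V' W₂ (g z)) hDP₁ hDP₂
      (by positivity) (by positivity) ?_ ?_ ?_
    · refine h4 g hg P R V₁ W₁ hP hR (by linarith) hW₁0 _ ?_
      intro z hz
      rw [Finset.mem_image] at hz
      obtain ⟨u, hu', rfl⟩ := hz
      exact (hu u hu').2.1
    · intro v₁ hv₁
      rw [Finset.mem_image] at hv₁
      obtain ⟨w, hw, rfl⟩ := hv₁
      obtain ⟨hlo, hhi, ht, -, -⟩ := hu w hw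
      refine h3 g hg P R ‖g w.1.1‖ V' W₂ hP hPR4 hlo hhi hV'0 hW₂0 _ ?_
      intro z hz
      rw [Finset.mem_image] at hz
      obtain ⟨u, hu', rfl⟩ := hz
      rw [Finset.mem_filter] at hu'
      have := (hu u hu'.1).2.2.1.n₂
      rw [hu'.2] at this
      exact this
    · intro w hw
      obtain ⟨hlo, hhi, ht, -, -⟩ := hu w hw
      refine h5 g hg P R ‖g w.1.1‖ V₃ N hP (by linarith) hlo hhi h30 hN _ ?_
      intro q hq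
      rw [Finset.mem_image] at hq
      obtain ⟨u, hu', rfl⟩ := hq
      rw [Finset.mem_filter, Finset.mem_filter] at hu'
      obtain ⟨-, -, ht', hb, hc⟩ := hu u hu'.1.1
      have := ht'.n₃
      rw [hu'.1.2] at this
      exact ⟨this, hb, hc⟩
  refine le_trans e1 ?_
  rw [← Finset.mul_sum]
  refine le_trans (mul_le_mul_of_nonneg_left e2 (by positivity)) (le_of_eq ?_)
  unfold NS
  rw [← hW₁, ← hW₂, ← hV']
  ring

end Pool.Agent.Helper46_F5N
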