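import Pool.Agent.F5H.StmtsN
import Pool.Agent.Helper46_F5N.IsoSum
import Pool.Agent.Helper46_F5N.SmallD
import Pool.Agent.Helper46_F5N.NPc

/-!
MP_f5cbfa_nt, block N, case C: what `NRC` gives.
-/

set_option autoImplicit false

open MeasureTheory

namespace Pool.Agent.Helper46_F5N

open Pool.Agent.Helper68_F5
open Pool.Agent.F5H.BN (NRC SC bare FamV g3 c3 DU2Stmt)

variable {Q T R₁ V : ℝ} {g : ℤ × ℤ →+ ℂ} {h v : T3} {m : ℂ × ℂ × ℂ}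

theorem nrc_tb (hn : NRC Q T R₁ g h v m) (hQ : 0 ≤ Q) (h1 : ‖g h.1‖ ≤ V) (h2 : ‖g h.2.1‖ ≤ V)
    (h3 : ‖g h.2.2‖ ≤ V) : m ∈ TbH g T Q V h := by
  have a1 : |‖m.1‖ ^ 2 + ‖g h.1‖ ^ 2 / 4 - T ^ 2| ≤ Q := hn.an 0
  have a2 : |‖m.2.1‖ ^ 2 + ‖g h.2.1‖ ^ 2 / 4 - T ^ 2| ≤ Q := hn.an 1
  have a3 : |‖m.2.2‖ ^ 2 + ‖g h.2.2‖ ^ 2 / 4 - T ^ 2| ≤ Q := hn.an 2
  have b1 : |sp m.1 (g h.1) - sp m.2.1 (g h.2.1)| ≤ Q * max ‖g h.1‖ ‖g h.2.1‖ := hn.tb 0 1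
  have b2 : |sp m.1 (g h.1) - sp m.2.2 (g h.2.2)| ≤ Q * max ‖g h.1‖ ‖g h.2.2‖ := hn.tb 0 2
  have b3 : |sp m.2.1 (g h.2.1) - sp m.2.2 (g h.2.2)| ≤ Q * max ‖g h.2.1‖ ‖g h.2.2‖ := hn.tb 1 2
  have e : ∀ x y : ℝ, x - (T ^ 2 - y) = x + y - T ^ 2 := fun x y => by ring
  refine ⟨?_, ?_, ?_, ?_, ?_, ?_⟩
  · rw [e]; exact a1
  · rw [e]; exact a2
  · rw [e]; exact a3
  · exact le_trans b1 (mul_le_mul_of_nonneg_left (max_le h1 h2) hQ)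
  · exact le_trans b2 (mul_le_mul_of_nonneg_left (max_le h1 h3) hQ)
  · exact le_trans b3 (mul_le_mul_of_nonneg_left (max_le h2 h3) hQ)

theorem nrc_norm (hn : NRC Q T R₁ g h v m) (hT : 0 < T) (hU : V ^ 2 + Q ≤ T ^ 2 / 2)
    (h1 : ‖g h.1‖ ≤ V) (h2 : ‖g h.2.1‖ ≤ V) (h3 : ‖g h.2.2‖ ≤ V) :
    ‖m.1‖ ≤ 2 * T ∧ ‖m.2.1‖ ≤ 2 * T ∧ ‖m.2.2‖ ≤ 2 * T :=
  ⟨(m_bd hT hU h1 (hn.an 0)).2.1, (m_bd hT hU h2 (hn.an 1)).2.1, (m_bd hT hU h3 (hn.an 2)).2.1⟩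

theorem nrc_near (hn : NRC Q T R₁ g h v m) : Near g Q T (Q * R₁) m v := by
  obtain ⟨ν, h1, h2⟩ := hn.ry
  exact ⟨ν, h1, h2 0, h2 1, h2 2⟩

theorem nrc_near_small (hn : NRC Q T R₁ g h v m) (hT : 0 < T) (hU : V ^ 2 + Q ≤ T ^ 2 / 2)
    (h1 : ‖g h.1‖ ≤ V) {r : ℝ} (hr : ‖g v.1‖ ≤ r) : Near g Q T (2 * (r + Q)) m v := by
  obtain ⟨ν, -, h2⟩ := hn.ry
  obtain ⟨a1, a2, -⟩ := m_bd hT hU h1 (hn.an 0)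
  have := (nu_bd a1 a2 (h2 0)).2.1
  refine ⟨ν, le_trans this ?_, h2 0, h2 1, h2 2⟩
  have : ‖g3 g v 0‖ ≤ r := hr
  linarith

theorem nrc_pairS (hn : NRC Q T R₁ g h v m) (hT : 0 < T) (hQ : 1 ≤ Q) (hU : V ^ 2 + Q ≤ T ^ 2 / 2)
    (hR₁ : Q * R₁ * (V ^ 2 + Q) ≤ T ^ 2) (h1 : ‖g h.1‖ ≤ V) (h2 : ‖g h.2.1‖ ≤ V)
    (h3 : ‖g h.2.2‖ ≤ V) {R ω : ℝ} (hR : 300 * Q ^ 2 ≤ R) (hlo : R ≤ ‖g v.1‖)
    (hhi : ‖g v.1‖ ≤ 2 * R)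
    (hω : |bf (Ah (T ^ 2) ‖g v.1‖ (g v.1) (g v.2.1) (g v.2.2) (g h.1) (g h.2.1) (g h.2.2))
      (g v.2.2) (g h.2.2)| ≤ ω) :
    PairS g (4 * Q) R (T ^ 2) V V V (Q * (1 + V / R)) (Q * (1 + V / R)) ω (3 * V) v h := by
  obtain ⟨ν, hν, hy⟩ := hn.ry
  have y1 : ‖g v.1 - (ν : ℂ) * m.1‖ ≤ Q := hy 0
  have y2 : ‖g v.2.1 - (ν : ℂ) * m.2.1‖ ≤ Q := hy 1
  have y3 : ‖g v.2.2 - (ν : ℂ) * m.2.2‖ ≤ Q := hy 2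
  obtain ⟨l1, u1, c1⟩ := m_bd hT hU h1 (hn.an 0)
  obtain ⟨l2, u2, c2⟩ := m_bd hT hU h2 (hn.an 1)
  obtain ⟨l3, u3, c3'⟩ := m_bd hT hU h3 (hn.an 2)
  have l1 : T / 2 ≤ ‖m.1‖ := l1
  have l2 : T / 2 ≤ ‖m.2.1‖ := l2
  have l3 : T / 2 ≤ ‖m.2.2‖ := l3
  have u1 : ‖m.1‖ ≤ 2 * T := u1
  have u2 : ‖m.2.1‖ ≤ 2 * T := u2
  have u3 : ‖m.2.2‖ ≤ 2 * T := u3
  have c1 : |‖m.1‖ - T| ≤ (V ^ 2 + Q) / T := c1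
  have c2 : |‖m.2.1‖ - T| ≤ (V ^ 2 + Q) / T := c2
  have c3' : |‖m.2.2‖ - T| ≤ (V ^ 2 + Q) / T := c3'
  have hV : 0 ≤ V := le_trans (norm_nonneg _) h1
  have hQ2 : Q ≤ Q ^ 2 := by nlinarith
  have hR0 : 0 < R := by nlinarith
  obtain ⟨n1, n1', n1''⟩ := nu_bd l1 u1 y1
  obtain ⟨n2, n2', n2''⟩ := nu_bd l2 u2 y2
  obtain ⟨n3, n3', n3''⟩ := nu_bd l3 u3 y3
  have hx : 100 * Q ^ 2 ≤ |ν| * T := by nlinarith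
  -- the norms of `v`
  have hν' : |ν| * ((V ^ 2 + Q) / T) ≤ 1 := by
    have e : |ν| * ((V ^ 2 + Q) / T) = |ν| * T * (V ^ 2 + Q) / T ^ 2 := by field_simp
    rw [e, div_le_one (by positivity)]
    refine le_trans ?_ hR₁
    exact mul_le_mul_of_nonneg_right hν (by positivity)
  have hclose : ∀ {x y : ℂ} {p q : ℂ}, |‖x‖ - |ν| * ‖p‖| ≤ Q → |‖y‖ - |ν| * ‖q‖| ≤ Q →
      |‖p‖ - T| ≤ (V ^ 2 + Q) / T → |‖q‖ - T| ≤ (V ^ 2 + Q) / T → |‖x‖ - ‖y‖| ≤ 4 * Q := by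
    intro x y p q hx hy hp hq
    have e1 : |ν| * |‖p‖ - T| ≤ 1 := le_trans (mul_le_mul_of_nonneg_left hp (abs_nonneg _)) hν'
    have e2 : |ν| * |‖q‖ - T| ≤ 1 := le_trans (mul_le_mul_of_nonneg_left hq (abs_nonneg _)) hν'
    have f1 := abs_le.1 hx
    have f2 := abs_le.1 hy
    have f3 : |(|ν| * (‖p‖ - T))| ≤ 1 := by rw [abs_mul, abs_abs]; exact e1
    have f4 : |(|ν| * (‖q‖ - T))| ≤ 1 := by rw [abs_mul, abs_abs]; exact e2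
    have f5 := abs_le.1 f3
    have f6 := abs_le.1 f4
    rw [abs_le]
    constructor <;> nlinarith
  have n₂ : |‖g v.2.1‖ - ‖g v.1‖| ≤ 4 * Q := hclose n2'' n1'' c2 c1
  have n₃ : |‖g v.2.2‖ - ‖g v.1‖| ≤ 4 * Q := hclose n3'' n1'' c3' c1
  have d12 : ‖m.1‖ * ‖m.2.1‖ ≤ Q * |wd m.1 m.2.1| := hn.ds 0 1 (by decide)
  have d23 : ‖m.2.1‖ * ‖m.2.2‖ ≤ Q * |wd m.2.1 m.2.2| := hn.ds 1 2 (by decide)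
  have d31 : ‖m.2.2‖ * ‖m.1‖ ≤ Q * |wd m.2.2 m.1| := hn.ds 2 0 (by decide)
  have w1 : (1 : ℝ) + max ‖g h.1‖ ‖g h.2.2‖ / ‖g v.1‖ ≤ 1 + V / R := by
    have : max ‖g h.1‖ ‖g h.2.2‖ / ‖g v.1‖ ≤ V / R :=
      div_le_div₀ hV (max_le h1 h3) hR0 hlo
    linarith
  have w2 : (1 : ℝ) + max ‖g h.2.1‖ ‖g h.2.2‖ / ‖g v.1‖ ≤ 1 + V / R := by
    have : max ‖g h.2.1‖ ‖g h.2.2‖ / ‖g v.1‖ ≤ V / R :=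
      div_le_div₀ hV (max_le h2 h3) hR0 hlo
    linarith
  have hwn := hn.wn (by nlinarith)
  have a1 := hwn 0 2
  have a2 := hwn 1 2
  refine ⟨⟨hlo, hhi, ⟨by linarith, by nlinarith, ?_, n₂, n₃, ?_, ?_, ?_⟩,
    ⟨h1, h2, h3, le_trans a1 (mul_le_mul_of_nonneg_left w1 (by linarith)),
      le_trans a2 (mul_le_mul_of_nonneg_left w2 (by linarith)), hω⟩⟩, ?_, ?_⟩
  · rw [sub_self, abs_zero]; linarith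
  · exact wd_v_big hT.le hQ l1 u1 l2 u2 d12 y1 y2 hx
  · exact wd_v_big hT.le hQ l2 u2 l3 u3 d23 y2 y3 hx
  · exact wd_v_big hT.le hQ l3 u3 l1 u1 d31 y3 y1 hx
  · refine le_trans (abs_wd_le _ _) ?_
    have : ‖g v.2.1‖ ≤ 3 * R := by
      have := (abs_le.1 n₂).2
      nlinarith
    calc ‖g v.2.1‖ * ‖g h.2.1‖ ≤ 3 * R * V := mul_le_mul this h2 (norm_nonneg _) (by positivity)
      _ = 3 * V * R := by ring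
  · refine le_trans (abs_wd_le _ _) ?_
    have : ‖g v.2.2‖ ≤ 3 * R := by
      have := (abs_le.1 n₃).2
      nlinarith
    calc ‖g v.2.2‖ * ‖g h.2.2‖ ≤ 3 * R * V := mul_le_mul this h3 (norm_nonneg _) (by positivity)
      _ = 3 * V * R := by ring

end Pool.Agent.Helper46_F5N
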