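import Pool.Agent.Helper46_F5N.SmallD

/-!
MP_f5cbfa_nt, block N, case C: the bound of the count for short `v`.
-/

set_option autoImplicit false

namespace Pool.Agent.Helper46_F5N

open Pool.Agent.Helper68_F5

theorem ff_mono {R V V' W W' : ℝ} (hR : 1 ≤ R) (hV : 0 ≤ V) (hW : 0 ≤ W) (h1 : V ≤ V')
    (h2 : W ≤ W') : FF R V W ≤ FF R V' W' := by
  have hlog := Real.log_nonneg hR
  have hs : 0 < Real.sqrt R := Real.sqrt_pos.2 (by linarith)
  unfold FF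
  have a1 : V / Real.sqrt R ≤ V' / Real.sqrt R := div_le_div_of_nonneg_right h1 hs.le
  have a2 : V * W ≤ V' * W' := mul_le_mul h1 h2 hW (by linarith)
  have a3 : V * W / R ≤ V' * W' / R := div_le_div_of_nonneg_right a2 (by linarith)
  have a4 : V * W / R * (1 + Real.log R) ≤ V' * W' / R * (1 + Real.log R) :=
    mul_le_mul_of_nonneg_right a3 (by linarith)
  linarith

theorem ff_mul {R V W c : ℝ} (hR : 1 ≤ R) (hc : 1 ≤ c) : FF R (c * V) W ≤ c * FF R V W := by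
  have hlog := Real.log_nonneg hR
  unfold FF
  have e : c * (1 + V / Real.sqrt R + V * W / R * (1 + Real.log R)) =
      c + c * V / Real.sqrt R + c * V * W / R * (1 + Real.log R) := by ring
  rw [e]
  linarith

theorem ns_le {Q T V R : ℝ} (hQ : 1 ≤ Q) (hT : 0 < T) (hV : 1 ≤ V) (hR : 1 ≤ R)
    (hlog : 1 + Real.log R ≤ 3 * Q) (h3 : V ^ 3 * R ≤ T ^ 2) (h4 : R ^ 4 * V ^ 2 ≤ T ^ 2)
    (h5 : R ^ 3 * V ^ 4 ≤ T ^ 2) :
    NS (4 * Q) R (T ^ 2) V V V (Q * (1 + V / R)) (Q * (1 + V / R)) (3 * V) ≤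
      10 ^ 17 * Q ^ 8 * (2 * T ^ 2 + V ^ 6) := by
  have hR0 : 0 < R := by linarith
  have hlog0 := Real.log_nonneg hR
  have hQ2 : 1 ≤ Q ^ 2 := one_le_pow₀ hQ
  have hQQ2 : Q ≤ Q ^ 2 := by nlinarith
  obtain ⟨y, hy⟩ : ∃ y, y = V / R := ⟨_, rfl⟩
  have hy0 : 0 ≤ y := by rw [hy]; positivity
  obtain ⟨s, hs⟩ : ∃ s, s = Real.sqrt R := ⟨_, rfl⟩
  have hs1 : 1 ≤ s := by rw [hs]; exact Real.one_le_sqrt.2 hR
  have hs0 : 0 < s := by linarith
  have hs2 : s ^ 2 = R := by rw [hs]; exact Real.sq_sqrt hR0.le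
  obtain ⟨z, hz⟩ : ∃ z, z = V / s := ⟨_, rfl⟩
  have hz0 : 0 ≤ z := by rw [hz]; positivity
  have hyz : y ≤ z := by
    rw [hy, hz]
    apply div_le_div_of_nonneg_left (by linarith) hs0
    nlinarith
  have hyV : y ≤ V := by rw [hy]; exact div_le_self (by linarith) hR
  obtain ⟨W, hW⟩ : ∃ W, W = WW (4 * Q) R (T ^ 2) V V (Q * (1 + V / R)) := ⟨_, rfl⟩
  have hW0 : 0 ≤ W := by
    rw [hW]; exact WW_nonneg hR0.le (by positivity) (by linarith) (by positivity)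
  have hWle : W ≤ 24577 * Q ^ 2 * (1 + y) := by
    rw [hW, WW, ← hy]
    have e1 : V ^ 2 / T ^ 2 * R * V ≤ 1 := by
      have : V ^ 2 / T ^ 2 * R * V = V ^ 3 * R / T ^ 2 := by ring
      rw [this, div_le_one (by positivity)]
      exact h3
    have e2 : 1536 * (4 * Q) ^ 2 * (V ^ 2 / T ^ 2) * R * V =
        24576 * Q ^ 2 * (V ^ 2 / T ^ 2 * R * V) := by ring
    rw [e2]
    have e3 := mul_le_mul_of_nonneg_left e1 (by positivity : 0 ≤ 24576 * Q ^ 2)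
    have e4 : Q * (1 + y) ≤ Q ^ 2 * (1 + y) := mul_le_mul_of_nonneg_right hQQ2 (by linarith)
    have e5 : 0 ≤ Q ^ 2 * y := by positivity
    nlinarith
  obtain ⟨X, hX⟩ : ∃ X, X = 1 + z + y ^ 2 := ⟨_, rfl⟩
  have hX1 : 1 ≤ X := by rw [hX]; nlinarith
  have hF : FF R V W ≤ 73732 * Q ^ 3 * X := by
    have hQ3 : 1 ≤ Q ^ 3 := one_le_pow₀ hQ
    unfold FF
    rw [← hs, ← hz]
    have e1 : V * W / R * (1 + Real.log R) ≤ y * (24577 * Q ^ 2 * (1 + y)) * (3 * Q) := by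
      have : V * W / R = y * W := by rw [hy]; ring
      rw [this]
      exact mul_le_mul (mul_le_mul_of_nonneg_left hWle hy0) hlog (by linarith) (by positivity)
    have e2 : y * (24577 * Q ^ 2 * (1 + y)) * (3 * Q) = 73731 * Q ^ 3 * (y + y ^ 2) := by ring
    rw [e2] at e1
    have e3 : 73731 * Q ^ 3 * (y + y ^ 2) ≤ 73731 * Q ^ 3 * (z + y ^ 2) :=
      mul_le_mul_of_nonneg_left (by linarith) (by positivity)
    rw [hX]
    nlinarith [mul_nonneg (by linarith : (0 : ℝ) ≤ Q ^ 3 - 1) hz0, sq_nonneg y,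
      mul_nonneg (by positivity : (0 : ℝ) ≤ Q ^ 3) (sq_nonneg y)]
  have hF' : FF R (1 + 8 * (3 * V) + 8 * W / R) W ≤ 400000 * Q ^ 2 * (73732 * Q ^ 3 * X) := by
    have e1 : 1 + 8 * (3 * V) + 8 * W / R ≤ 400000 * Q ^ 2 * V := by
      have a1 : 8 * W / R ≤ 8 * W := div_le_self (by positivity) hR
      have a2 : W ≤ 24577 * Q ^ 2 * (2 * V) := by
        refine le_trans hWle (mul_le_mul_of_nonneg_left (by linarith) (by positivity))
      have a3 : V ≤ Q ^ 2 * V := by nlinarith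
      nlinarith
    refine le_trans (ff_mono hR (by positivity) hW0 e1 le_rfl) ?_
    refine le_trans (ff_mul hR (by nlinarith)) ?_
    exact mul_le_mul_of_nonneg_left hF (by positivity)
  have hF0 : 0 ≤ FF R (1 + 8 * (3 * V) + 8 * W / R) W := by
    have := FF_ge (R := R) (V := 1 + 8 * (3 * V) + 8 * W / R) (W := W) hR (by positivity) hW0
    linarith
  have hX2 : X ^ 2 ≤ 3 * (1 + V ^ 2 / R + V ^ 4 / R ^ 4) := by
    have e1 : V ^ 2 / R = z ^ 2 := by rw [hz, div_pow, hs2]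
    have e2 : V ^ 4 / R ^ 4 = (y ^ 2) ^ 2 := by rw [hy]; ring
    rw [e1, e2, hX]
    nlinarith [sq_nonneg (1 - z), sq_nonneg (1 - y ^ 2), sq_nonneg (z - y ^ 2)]
  have hlast : V ^ 2 + 3 * V * R * V + R ≤ 5 * (R * V ^ 2) := by
    have : 1 ≤ V ^ 2 := one_le_pow₀ hV
    have : V ^ 2 ≤ R * V ^ 2 := by nlinarith
    have : R ≤ R * V ^ 2 := by nlinarith
    nlinarith
  unfold NS
  rw [← hW]
  have m1 : FF R V W * FF R (1 + 8 * (3 * V) + 8 * W / R) W ≤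
      (73732 * Q ^ 3 * X) * (400000 * Q ^ 2 * (73732 * Q ^ 3 * X)) :=
    mul_le_mul hF hF' hF0 (by positivity)
  have m2 : R ^ 3 * FF R V W * FF R (1 + 8 * (3 * V) + 8 * W / R) W *
      (V ^ 2 + 3 * V * R * V + R) ≤
      R ^ 3 * ((73732 * Q ^ 3 * X) * (400000 * Q ^ 2 * (73732 * Q ^ 3 * X))) *
        (5 * (R * V ^ 2)) := by
    have e : R ^ 3 * FF R V W * FF R (1 + 8 * (3 * V) + 8 * W / R) W =
        R ^ 3 * (FF R V W * FF R (1 + 8 * (3 * V) + 8 * W / R) W) := by ring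
    rw [e]
    exact mul_le_mul (mul_le_mul_of_nonneg_left m1 (by positivity)) hlast (by positivity)
      (by positivity)
  refine le_trans m2 ?_
  have e3 : R ^ 3 * ((73732 * Q ^ 3 * X) * (400000 * Q ^ 2 * (73732 * Q ^ 3 * X))) *
        (5 * (R * V ^ 2)) = 73732 ^ 2 * 2000000 * Q ^ 8 * (R ^ 4 * V ^ 2 * X ^ 2) := by ring
  rw [e3]
  have m3 : R ^ 4 * V ^ 2 * X ^ 2 ≤ 3 * (2 * T ^ 2 + V ^ 6) := by
    calc R ^ 4 * V ^ 2 * X ^ 2 ≤ R ^ 4 * V ^ 2 * (3 * (1 + V ^ 2 / R + V ^ 4 / R ^ 4)) :=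
          mul_le_mul_of_nonneg_left hX2 (by positivity)
      _ = 3 * (R ^ 4 * V ^ 2 + R ^ 3 * V ^ 4 + V ^ 6) := by field_simp
      _ ≤ 3 * (2 * T ^ 2 + V ^ 6) := by linarith
  have hQ8 : 0 ≤ Q ^ 8 := by positivity
  have hfin : 0 ≤ 2 * T ^ 2 + V ^ 6 := by positivity
  calc 73732 ^ 2 * 2000000 * Q ^ 8 * (R ^ 4 * V ^ 2 * X ^ 2)
      ≤ 73732 ^ 2 * 2000000 * Q ^ 8 * (3 * (2 * T ^ 2 + V ^ 6)) :=
        mul_le_mul_of_nonneg_left m3 (by positivity)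
    _ = 73732 ^ 2 * 6000000 * (Q ^ 8 * (2 * T ^ 2 + V ^ 6)) := by ring
    _ ≤ 10 ^ 17 * (Q ^ 8 * (2 * T ^ 2 + V ^ 6)) := by
        refine mul_le_mul_of_nonneg_right (by norm_num) (by positivity)
    _ = _ := by ring

end Pool.Agent.Helper46_F5N
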