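import Pool.Agent.Helper46_F5N.Nrc
import Pool.Agent.Helper46_F5N.NsLe

/-!
MP_f5cbfa_nt, block N, case C: reduction of `SC` to finite sums, and the number of pairs.
-/

set_option autoImplicit false

open MeasureTheory

namespace Pool.Agent.Helper46_F5N

open Pool.Agent.Helper68_F5
open Pool.Agent.F5H.BN (NRC SC bare FamV g3 c3 DU2Stmt)

theorem sc_le {P T R₁ : ℝ} {g : ℤ × ℤ →+ ℂ} {V : Fin 3 → ℝ} {B : ENNReal}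
    (hB : ∀ 𝓗 𝓥 : Finset T3, (∀ h ∈ 𝓗, ∀ l, V l / 2 < ‖g3 g h l‖ ∧ ‖g3 g h l‖ ≤ V l) →
      ∑ h ∈ 𝓗, ∑ v ∈ 𝓥, volume {m : ℂ × ℂ × ℂ | NRC P T R₁ g h v m} ≤ B) :
    SC P T R₁ g V ≤ B := by
  classical
  obtain ⟨f, hf⟩ : ∃ f : T3 → T3 → ENNReal, f = fun h v =>
    if (∀ l, V l / 2 < ‖g3 g h l‖ ∧ ‖g3 g h l‖ ≤ V l) then
      volume {m : ℂ × ℂ × ℂ | NRC P T R₁ g h v m} else 0 := ⟨_, rfl⟩
  have e1 : SC P T R₁ g V = ∑' p : T3 × T3, f p.1 p.2 := by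
    rw [ENNReal.tsum_prod, hf]
    unfold SC
    refine tsum_congr fun h => tsum_congr fun v => ?_
    by_cases hc : (∀ l, V l / 2 < ‖g3 g h l‖ ∧ ‖g3 g h l‖ ≤ V l)
    · rw [if_pos hc]
      show _ = ite _ _ _
      rw [if_pos hc]
    · rw [if_neg hc]
      show _ = ite _ _ _
      rw [if_neg hc]
  rw [e1, ENNReal.tsum_eq_iSup_sum]
  refine iSup_le fun s => ?_
  obtain ⟨𝓗, h𝓗⟩ : ∃ 𝓗 : Finset T3, 𝓗 = (s.image (fun p => p.1)).filter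
    (fun h => ∀ l, V l / 2 < ‖g3 g h l‖ ∧ ‖g3 g h l‖ ≤ V l) := ⟨_, rfl⟩
  obtain ⟨𝓥, h𝓥⟩ : ∃ 𝓥 : Finset T3, 𝓥 = s.image (fun p => p.2) := ⟨_, rfl⟩
  have e2 : ∑ p ∈ s, f p.1 p.2 ≤ ∑ p ∈ 𝓗 ×ˢ 𝓥, volume {m : ℂ × ℂ × ℂ | NRC P T R₁ g p.1 p.2 m} := by
    have e3 : ∑ p ∈ s, f p.1 p.2 = ∑ p ∈ s.filter (fun p => ∀ l, V l / 2 < ‖g3 g p.1 l‖ ∧
        ‖g3 g p.1 l‖ ≤ V l), volume {m : ℂ × ℂ × ℂ | NRC P T R₁ g p.1 p.2 m} := by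
      rw [Finset.sum_filter, hf]
    rw [e3]
    refine Finset.sum_le_sum_of_subset ?_
    intro p hp
    rw [Finset.mem_filter] at hp
    rw [Finset.mem_product, h𝓗, h𝓥, Finset.mem_filter]
    exact ⟨⟨Finset.mem_image_of_mem _ hp.1, hp.2⟩, Finset.mem_image_of_mem _ hp.1⟩
  refine le_trans e2 ?_
  rw [Finset.sum_product]
  refine hB 𝓗 𝓥 fun h hh => ?_
  rw [h𝓗, Finset.mem_filter] at hh
  exact hh.2

/-- number of pairs -/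
theorem pairs_card (hst : StripStmt) (hds : DiscStripStmt) (hbox : BoxStmt) (han : AnnStmt)
    (has : AnnStripStmt) (hsh : ShortStmt) : ∃ K : ℝ, 1 ≤ K ∧ ∀ g : ℤ × ℤ →+ ℂ, Sep 1 g →
    ∀ (T Q U R₁ r : ℝ) (n : ℕ), 1 ≤ Q → 0 < T → 1 ≤ U → 18432 * (4 * Q) ^ 3 ≤ r →
      U ^ 2 + Q ≤ T ^ 2 / 2 → Q * R₁ * (U ^ 2 + Q) ≤ T ^ 2 → 1 + Real.log (2 ^ n * r) ≤ 3 * Q →
      U ^ 3 * (2 ^ n * r) ≤ T ^ 2 → (2 ^ n * r) ^ 4 * U ^ 2 ≤ T ^ 2 →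
      (2 ^ n * r) ^ 3 * U ^ 4 ≤ T ^ 2 → ∀ 𝓟 : Finset (T3 × T3),
      (∀ p ∈ 𝓟, r ≤ ‖g p.1.1‖ ∧ ‖g p.1.1‖ ≤ 2 ^ n * r ∧ ‖g p.2.1‖ ≤ U ∧ ‖g p.2.2.1‖ ≤ U ∧
        ‖g p.2.2.2‖ ≤ U ∧ ∃ m, NRC Q T R₁ g p.2 p.1 m) →
      (𝓟.card : ℝ) ≤ K * (n + 1) * Q ^ 16 * (2 * T ^ 2 + U ^ 6) := by
  classical
  obtain ⟨K, hK, hcnt⟩ := small_count hst hds hbox han has hsh 1 one_pos
  refine ⟨10 ^ 22 * K, by linarith, ?_⟩
  intro g hg T Q U R₁ r n hQ hT hU hr hUT hR₁ hlog h3 h4 h5 𝓟 h𝓟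
  have hQ3 : 1 ≤ Q ^ 3 := one_le_pow₀ hQ
  have hQ23 : Q ^ 2 ≤ Q ^ 3 := pow_le_pow_right₀ hQ (by norm_num)
  have hr0 : 300 * Q ^ 2 ≤ r := by nlinarith
  have hr1 : 1 ≤ r := by nlinarith
  obtain ⟨X, hX⟩ : ∃ X : ℝ, X = K * (4 * Q) ^ 8 * (10 ^ 17 * Q ^ 8 * (2 * T ^ 2 + U ^ 6)) := ⟨_, rfl⟩
  have hX0 : 0 ≤ X := by rw [hX]; positivity
  -- one scale
  have one : ∀ R : ℝ, r ≤ R → R ≤ 2 ^ n * r → ∀ 𝓢 : Finset (T3 × T3), 𝓢 ⊆ 𝓟 →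
      (∀ p ∈ 𝓢, R ≤ ‖g p.1.1‖ ∧ ‖g p.1.1‖ ≤ 2 * R) → (𝓢.card : ℝ) ≤ X := by
    intro R hrR hRn 𝓢 hsub h𝓢
    have hR1 : 1 ≤ R := by linarith
    have hR0 : 0 < R := by linarith
    obtain ⟨ω, hω⟩ : ∃ ω : ℝ, ω = ∑ p ∈ 𝓢, |bf (Ah (T ^ 2) ‖g p.1.1‖ (g p.1.1) (g p.1.2.1)
      (g p.1.2.2) (g p.2.1) (g p.2.2.1) (g p.2.2.2)) (g p.1.2.2) (g p.2.2.2)| := ⟨_, rfl⟩
    have key := hcnt g hg (4 * Q) R (T ^ 2) U U U (Q * (1 + U / R)) (Q * (1 + U / R)) ω (3 * U)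
      (by linarith) (by linarith) (by positivity) hU le_rfl le_rfl (by positivity) (by positivity)
      (by positivity) 𝓢 (by
        intro p hp
        obtain ⟨-, -, a1, a2, a3, m, hm⟩ := h𝓟 p (hsub hp)
        obtain ⟨b1, b2⟩ := h𝓢 p hp
        refine nrc_pairS hm hT hQ hUT hR₁ a1 a2 a3 (by linarith) b1 b2 ?_
        rw [hω]
        exact Finset.single_le_sum (f := fun p : T3 × T3 => |bf (Ah (T ^ 2) ‖g p.1.1‖ (g p.1.1)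
          (g p.1.2.1) (g p.1.2.2) (g p.2.1) (g p.2.2.1) (g p.2.2.2)) (g p.1.2.2) (g p.2.2.2)|)
          (fun q _ => abs_nonneg _) hp)
    refine le_trans key ?_
    rw [hX]
    refine mul_le_mul_of_nonneg_left ?_ (by positivity)
    refine ns_le hQ hT hU hR1 ?_ ?_ ?_ ?_
    · have := Real.log_le_log hR0 hRn
      linarith
    · exact le_trans (mul_le_mul_of_nonneg_left hRn (by positivity)) h3
    · exact le_trans (mul_le_mul_of_nonneg_right (pow_le_pow_left₀ hR0.le hRn 4) (by positivity)) h4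
    · exact le_trans (mul_le_mul_of_nonneg_right (pow_le_pow_left₀ hR0.le hRn 3) (by positivity)) h5
  -- all scales
  have hsub : 𝓟 ⊆ (Finset.range (n + 1)).biUnion (fun j => 𝓟.filter
      (fun p => 2 ^ j * r ≤ ‖g p.1.1‖ ∧ ‖g p.1.1‖ ≤ 2 * (2 ^ j * r))) := by
    intro p hp
    obtain ⟨a1, a2, -⟩ := h𝓟 p hp
    rw [Finset.mem_biUnion]
    have hx : 1 ≤ ‖g p.1.1‖ / r := by rw [le_div_iff₀ (by linarith)]; linarith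
    obtain ⟨j, hj1, hj2⟩ := exists_nat_pow_near hx (by norm_num : (1 : ℝ) < 2)
    rw [le_div_iff₀ (by linarith)] at hj1
    rw [div_lt_iff₀ (by linarith)] at hj2
    refine ⟨j, ?_, ?_⟩
    · rw [Finset.mem_range]
      by_contra hc
      rw [not_lt] at hc
      have h7 : (2 : ℝ) ^ (n + 1) ≤ 2 ^ j := pow_le_pow_right₀ (by norm_num) hc
      have h8 : 2 ^ (n + 1) * r ≤ 2 ^ j * r := mul_le_mul_of_nonneg_right h7 (by linarith)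
      have h9 : (2 : ℝ) ^ n * r < 2 ^ (n + 1) * r := by
        refine mul_lt_mul_of_pos_right ?_ (by linarith)
        exact pow_lt_pow_right₀ (by norm_num) (Nat.lt_succ_self n)
      linarith
    · rw [Finset.mem_filter]
      refine ⟨hp, hj1, ?_⟩
      have : (2 : ℝ) ^ (j + 1) * r = 2 * (2 ^ j * r) := by rw [pow_succ]; ring
      linarith
  have hc1 := le_trans (Finset.card_le_card hsub) Finset.card_biUnion_le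
  have hc2 : (𝓟.card : ℝ) ≤ ∑ j ∈ Finset.range (n + 1), ((𝓟.filter
      (fun p => 2 ^ j * r ≤ ‖g p.1.1‖ ∧ ‖g p.1.1‖ ≤ 2 * (2 ^ j * r))).card : ℝ) := by
    exact_mod_cast hc1
  have hc3 : ∑ j ∈ Finset.range (n + 1), ((𝓟.filter
      (fun p => 2 ^ j * r ≤ ‖g p.1.1‖ ∧ ‖g p.1.1‖ ≤ 2 * (2 ^ j * r))).card : ℝ) ≤
      ∑ _j ∈ Finset.range (n + 1), X := by
    refine Finset.sum_le_sum fun j hj => ?_
    rw [Finset.mem_range] at hj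
    refine one (2 ^ j * r) ?_ ?_ _ (Finset.filter_subset _ _) (fun p hp => (Finset.mem_filter.1 hp).2)
    · have : (1 : ℝ) ≤ 2 ^ j := one_le_pow₀ (by norm_num)
      nlinarith
    · exact mul_le_mul_of_nonneg_right (pow_le_pow_right₀ (by norm_num) (by omega)) (by linarith)
  rw [Finset.sum_const, Finset.card_range, nsmul_eq_mul] at hc3
  refine le_trans hc2 (le_trans hc3 ?_)
  rw [hX]
  have e : ((n + 1 : ℕ) : ℝ) * (K * (4 * Q) ^ 8 * (10 ^ 17 * Q ^ 8 * (2 * T ^ 2 + U ^ 6))) =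
      65536 * 10 ^ 17 * (K * (n + 1) * Q ^ 16 * (2 * T ^ 2 + U ^ 6)) := by push_cast; ring
  rw [e]
  have : 0 ≤ K * (n + 1) * Q ^ 16 * (2 * T ^ 2 + U ^ 6) := by positivity
  nlinarith

end Pool.Agent.Helper46_F5N
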