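import Pool.Agent.Helper38_F5.Vol6

/-!
MP_f5cbfa_nt, block N: areas of pairs and triples of points near a circle with nearly equal
products.
-/

set_option autoImplicit false

open MeasureTheory

namespace Pool.Agent.Helper46_F5N

open Pool.Agent.Helper68_F5 Pool.Agent.Helper38_F5

/-- points near the circle with a small component transversal to `H` -/
theorem area_small {H : ℂ} (hH : H ≠ 0) {s T P ρ : ℝ} (hT : 0 < T) (hs : T ^ 2 / 2 ≤ s)
    (hP : 0 ≤ P) (hPT : 8 * P ≤ T ^ 2) (hρ : 0 ≤ ρ) :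
    volume {m : ℂ | |‖m‖ ^ 2 - s| ≤ P ∧ |wd m H| ≤ ρ * ‖H‖} ≤ ENNReal.ofReal (256 * P * ρ / T) := by
  have hHn : 0 < ‖H‖ := norm_pos_iff.2 hH
  rcases le_or_gt ρ (T / 4) with h | h
  · refine le_trans (measure_mono ?_) (le_trans (area_arc (v := H) (s := s) (P := P)
      (b := ρ * ‖H‖) (c := T / 2 * ‖H‖) hP (by positivity) (by positivity)) ?_)
    · rintro m ⟨h1, h2⟩
      refine ⟨h1, h2, ?_⟩
      have e := sp_sq_add_wd_sq m H
      have h3 := (abs_le.1 h1).1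
      have h4 : wd m H ^ 2 ≤ ρ ^ 2 * ‖H‖ ^ 2 := by
        rw [← sq_abs, ← mul_pow]
        exact pow_le_pow_left₀ (abs_nonneg _) h2 2
      have h5 : (T / 2 * ‖H‖) ^ 2 ≤ sp m H ^ 2 := by
        have h6 : ρ ^ 2 ≤ (T / 4) ^ 2 := pow_le_pow_left₀ hρ h 2
        have h7 : 0 < ‖H‖ ^ 2 := by positivity
        have h8 : T ^ 2 / 4 + ρ ^ 2 ≤ ‖m‖ ^ 2 := by nlinarith
        nlinarith [mul_le_mul_of_nonneg_right h8 h7.le]
      rw [← sq_abs (sp m H)] at h5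
      exact (pow_le_pow_iff_left₀ (by positivity) (abs_nonneg _) (by norm_num)).1 h5
    · apply ENNReal.ofReal_le_ofReal
      have : 8 * P * (ρ * ‖H‖) / (T / 2 * ‖H‖) = 16 * P * ρ / T := by field_simp; ring
      rw [this]
      apply div_le_div_of_nonneg_right _ hT.le
      nlinarith [mul_nonneg hP hρ]
  · refine le_trans (measure_mono (fun m hm => hm.1)) (le_trans (area_ann (s := s) hP) ?_)
    apply ENNReal.ofReal_le_ofReal
    rw [le_div_iff₀ hT]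
    nlinarith

theorem cont_sp' {α : Type*} [TopologicalSpace α] {f : α → ℂ} (hf : Continuous f) (w : ℂ) :
    Continuous (fun x => sp (f x) w) := continuous_sp hf w

theorem cont_wd' {α : Type*} [TopologicalSpace α] {f : α → ℂ} (hf : Continuous f) (w : ℂ) :
    Continuous (fun x => wd (f x) w) := continuous_wd hf w

/-- one level: the first component of size at least `ρ`, the second at most `2ρ` -/
theorem level2 {H H' : ℂ} {s s' T P d μ ρ : ℝ} (hT : 0 < T) (hs' : T ^ 2 / 2 ≤ s')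
    (hP : 0 ≤ P) (hPT : 8 * P ≤ T ^ 2) (hd : 0 ≤ d) (hμ : 0 < μ) (h1 : μ ≤ ‖H‖) (h2 : μ ≤ ‖H'‖)
    (hρ : 0 < ρ) :
    volume {q : ℂ × ℂ | |‖q.1‖ ^ 2 - s| ≤ P ∧ |‖q.2‖ ^ 2 - s'| ≤ P ∧
      |sp q.1 H - sp q.2 H'| ≤ d ∧ ρ * ‖H‖ ≤ |wd q.1 H| ∧ |wd q.2 H'| ≤ 2 * ρ * ‖H'‖} ≤
      ENNReal.ofReal (4096 * P ^ 2 * d / (μ * T)) := by
  have hH' : H' ≠ 0 := norm_pos_iff.1 (by linarith)
  have a1 : Continuous (fun q : ℂ × ℂ => |‖q.1‖ ^ 2 - s|) := by fun_prop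
  have a2 : Continuous (fun q : ℂ × ℂ => |‖q.2‖ ^ 2 - s'|) := by fun_prop
  have a3 : Continuous (fun q : ℂ × ℂ => |sp q.1 H - sp q.2 H'|) :=
    ((cont_sp' continuous_fst H).sub (cont_sp' continuous_snd H')).abs
  have a4 : Continuous (fun q : ℂ × ℂ => |wd q.1 H|) := (cont_wd' continuous_fst H).abs
  have a5 : Continuous (fun q : ℂ × ℂ => |wd q.2 H'|) := (cont_wd' continuous_snd H').abs
  have b1 : Continuous (fun q : ℂ => |‖q‖ ^ 2 - s'|) := by fun_prop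
  have b2 : Continuous (fun q : ℂ => |wd q H'|) := (cont_wd' continuous_id H').abs
  have key := volP (G := {q : ℂ × ℂ | |‖q.1‖ ^ 2 - s| ≤ P ∧ |‖q.2‖ ^ 2 - s'| ≤ P ∧
      |sp q.1 H - sp q.2 H'| ≤ d ∧ ρ * ‖H‖ ≤ |wd q.1 H| ∧ |wd q.2 H'| ≤ 2 * ρ * ‖H'‖})
    (B := {q : ℂ | |‖q‖ ^ 2 - s'| ≤ P ∧ |wd q H'| ≤ 2 * ρ * ‖H'‖})
    (m := ENNReal.ofReal (8 * P * d / (ρ * μ))) (m' := ENNReal.ofReal (256 * P * (2 * ρ) / T))
    ((isClosed_le a1 continuous_const).inter ((isClosed_le a2 continuous_const).inter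
      ((isClosed_le a3 continuous_const).inter ((isClosed_le continuous_const a4).inter
        (isClosed_le a5 continuous_const))))).measurableSet
    ((isClosed_le b1 continuous_const).inter (isClosed_le b2 continuous_const)).measurableSet
    (by
      intro y
      refine le_trans (measure_mono ?_) (area_reg (H := H) (s := s) (t := sp y H') (P := P)
        (w := d) (n := ρ * μ) hP hd (by positivity))
      rintro x ⟨c1, -, c3, c4, -⟩
      refine ⟨c1, c3, le_trans ?_ c4⟩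
      exact mul_le_mul_of_nonneg_left h1 hρ.le)
    (by
      rintro x y ⟨-, c2, -, -, c5⟩
      exact ⟨c2, c5⟩)
    (by
      have := area_small hH' (s := s') (ρ := 2 * ρ) hT hs' hP hPT (by positivity)
      exact this)
  refine le_trans key ?_
  rw [← ENNReal.ofReal_mul (by positivity)]
  apply ENNReal.ofReal_le_ofReal
  apply le_of_eq
  field_simp
  ring

theorem swap2 {G : Set (ℂ × ℂ)} (hG : MeasurableSet G) :
    volume {q : ℂ × ℂ | (q.2, q.1) ∈ G} = volume G := by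
  have h : MeasurePreserving (Prod.swap : ℂ × ℂ → ℂ × ℂ) volume volume := by
    have := Measure.measurePreserving_swap (μ := (volume : Measure ℂ)) (ν := (volume : Measure ℂ))
    rwa [← Measure.volume_eq_prod] at this
  have := h.measure_preimage hG.nullMeasurableSet
  exact this

theorem meas2 (H H' : ℂ) (s s' P d a b : ℝ) : MeasurableSet {q : ℂ × ℂ | |‖q.1‖ ^ 2 - s| ≤ P ∧
      |‖q.2‖ ^ 2 - s'| ≤ P ∧ |sp q.1 H - sp q.2 H'| ≤ d ∧ a ≤ |wd q.1 H| ∧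
      |wd q.2 H'| ≤ b} := by
  have a1 : Continuous (fun q : ℂ × ℂ => |‖q.1‖ ^ 2 - s|) := by fun_prop
  have a2 : Continuous (fun q : ℂ × ℂ => |‖q.2‖ ^ 2 - s'|) := by fun_prop
  have a3 : Continuous (fun q : ℂ × ℂ => |sp q.1 H - sp q.2 H'|) :=
    ((cont_sp' continuous_fst H).sub (cont_sp' continuous_snd H')).abs
  have a4 : Continuous (fun q : ℂ × ℂ => |wd q.1 H|) := (cont_wd' continuous_fst H).abs
  have a5 : Continuous (fun q : ℂ × ℂ => |wd q.2 H'|) := (cont_wd' continuous_snd H').abs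
  exact ((isClosed_le a1 continuous_const).inter ((isClosed_le a2 continuous_const).inter
      ((isClosed_le a3 continuous_const).inter ((isClosed_le continuous_const a4).inter
        (isClosed_le a5 continuous_const))))).measurableSet

/-- two indices: points near two circles with nearly equal products -/
theorem area2 {H H' : ℂ} {s s' T P d μ : ℝ} (hT : 0 < T) (hs : T ^ 2 / 2 ≤ s)
    (hs2 : s ≤ 2 * T ^ 2) (hs' : T ^ 2 / 2 ≤ s') (hs2' : s' ≤ 2 * T ^ 2)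
    (hP : 0 ≤ P) (hPT : 8 * P ≤ T ^ 2) (hd : 0 ≤ d) (hμ : 0 < μ) (h1 : μ ≤ ‖H‖) (h2 : μ ≤ ‖H'‖)
    (J : ℕ) (hJ : μ * T ≤ 4 ^ J * d) :
    volume {q : ℂ × ℂ | |‖q.1‖ ^ 2 - s| ≤ P ∧ |‖q.2‖ ^ 2 - s'| ≤ P ∧
      |sp q.1 H - sp q.2 H'| ≤ d} ≤
      ENNReal.ofReal (2 ^ 18 * (J + 1) * P ^ 2 * d / (μ * T)) := by
  have hH : H ≠ 0 := norm_pos_iff.1 (by linarith)
  have hH' : H' ≠ 0 := norm_pos_iff.1 (by linarith)
  have hHn : 0 < ‖H‖ := norm_pos_iff.2 hH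
  have hHn' : 0 < ‖H'‖ := norm_pos_iff.2 hH'
  obtain ⟨c, hc⟩ : ∃ c : ℝ, c = 4096 * P ^ 2 * d / (μ * T) := ⟨_, rfl⟩
  have hc0 : 0 ≤ c := by rw [hc]; positivity
  obtain ⟨E, hE⟩ : ∃ E : ℕ → Set (ℂ × ℂ), E = fun j => {q : ℂ × ℂ | |‖q.1‖ ^ 2 - s| ≤ P ∧
      |‖q.2‖ ^ 2 - s'| ≤ P ∧ |sp q.1 H - sp q.2 H'| ≤ d ∧
      |wd q.1 H| ≤ 2 * (T / 2 ^ j) * ‖H‖ ∧ |wd q.2 H'| ≤ 2 * (T / 2 ^ j) * ‖H'‖} := ⟨_, rfl⟩
  have step : ∀ j : ℕ, volume (E j) ≤ volume (E (j + 1)) + ENNReal.ofReal (2 * c) := by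
    intro j
    obtain ⟨ρ, hρ⟩ : ∃ ρ : ℝ, ρ = T / 2 ^ j := ⟨_, rfl⟩
    have hρ0 : 0 < ρ := by rw [hρ]; positivity
    have hρ1 : 2 * (T / 2 ^ (j + 1)) = ρ := by
      rw [hρ, pow_succ]; field_simp
    have hsub : E j ⊆ E (j + 1) ∪
        ({q : ℂ × ℂ | |‖q.1‖ ^ 2 - s| ≤ P ∧ |‖q.2‖ ^ 2 - s'| ≤ P ∧
          |sp q.1 H - sp q.2 H'| ≤ d ∧ ρ * ‖H‖ ≤ |wd q.1 H| ∧ |wd q.2 H'| ≤ 2 * ρ * ‖H'‖} ∪
        {q : ℂ × ℂ | (q.2, q.1) ∈ {q : ℂ × ℂ | |‖q.1‖ ^ 2 - s'| ≤ P ∧ |‖q.2‖ ^ 2 - s| ≤ P ∧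
          |sp q.1 H' - sp q.2 H| ≤ d ∧ ρ * ‖H'‖ ≤ |wd q.1 H'| ∧
          |wd q.2 H| ≤ 2 * ρ * ‖H‖}}) := by
      intro q hq
      rw [hE] at hq ⊢
      simp only [hρ1, ← hρ, Set.mem_ofPred_eq] at hq ⊢
      obtain ⟨c1, c2, c3, c4, c5⟩ := hq
      by_cases k1 : |wd q.1 H| ≤ ρ * ‖H‖
      · by_cases k2 : |wd q.2 H'| ≤ ρ * ‖H'‖
        · left
          exact ⟨c1, c2, c3, k1, k2⟩
        · right; right
          refine ⟨c2, c1, ?_, (not_le.1 k2).le, c4⟩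
          rw [abs_sub_comm]; exact c3
      · right; left
        exact ⟨c1, c2, c3, (not_le.1 k1).le, c5⟩
    refine le_trans (measure_mono hsub) (le_trans (measure_union_le _ _) ?_)
    refine add_le_add le_rfl (le_trans (measure_union_le _ _) ?_)
    rw [swap2 (meas2 H' H s' s P d (ρ * ‖H'‖) (2 * ρ * ‖H‖))]
    have l1 := level2 (H := H) (H' := H') (s := s) (s' := s') hT hs' hP hPT hd hμ h1 h2 hρ0
    have l2 := level2 (H := H') (H' := H) (s := s') (s' := s) hT hs hP hPT hd hμ h2 h1 hρ0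
    rw [← hc] at l1 l2
    refine le_trans (add_le_add l1 l2) ?_
    rw [← ENNReal.ofReal_add hc0 hc0]
    exact ENNReal.ofReal_le_ofReal (by linarith)
  have ind : ∀ j : ℕ, volume (E 0) ≤ volume (E j) + ENNReal.ofReal (2 * c * j) := by
    intro j
    induction j with
    | zero => simp
    | succ j ih =>
      refine le_trans ih (le_trans (add_le_add (step j) le_rfl) ?_)
      rw [add_assoc, ← ENNReal.ofReal_add (by positivity) (by positivity)]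
      refine add_le_add le_rfl (ENNReal.ofReal_le_ofReal ?_)
      push_cast
      linarith
  have h0 : {q : ℂ × ℂ | |‖q.1‖ ^ 2 - s| ≤ P ∧ |‖q.2‖ ^ 2 - s'| ≤ P ∧
      |sp q.1 H - sp q.2 H'| ≤ d} ⊆ E 0 := by
    rintro q ⟨c1, c2, c3⟩
    rw [hE]
    simp only [Set.mem_ofPred_eq, pow_zero, div_one]
    have n1 : ‖q.1‖ ≤ 2 * T := by
      have := (abs_le.1 c1).2
      by_contra h
      rw [not_le] at h
      nlinarith [norm_nonneg q.1]
    have n2 : ‖q.2‖ ≤ 2 * T := by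
      have := (abs_le.1 c2).2
      by_contra h
      rw [not_le] at h
      nlinarith [norm_nonneg q.2]
    refine ⟨c1, c2, c3, le_trans (abs_wd_le _ _) ?_, le_trans (abs_wd_le _ _) ?_⟩
    · exact mul_le_mul_of_nonneg_right n1 hHn.le
    · exact mul_le_mul_of_nonneg_right n2 hHn'.le
  have hlast : volume (E J) ≤ ENNReal.ofReal (2 ^ 18 * P ^ 2 * d / (μ * T)) := by
    have b1 : Continuous (fun q : ℂ => |‖q‖ ^ 2 - s'|) := by fun_prop
    have b2 : Continuous (fun q : ℂ => |wd q H'|) := (cont_wd' continuous_id H').abs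
    have b3 : Continuous (fun q : ℂ => |‖q‖ ^ 2 - s|) := by fun_prop
    have b4 : Continuous (fun q : ℂ => |wd q H|) := (cont_wd' continuous_id H).abs
    have hsub : E J ⊆ {q : ℂ | |‖q‖ ^ 2 - s| ≤ P ∧ |wd q H| ≤ 2 * (T / 2 ^ J) * ‖H‖} ×ˢ
        {q : ℂ | |‖q‖ ^ 2 - s'| ≤ P ∧ |wd q H'| ≤ 2 * (T / 2 ^ J) * ‖H'‖} := by
      rw [hE]
      rintro q ⟨c1, c2, c3, c4, c5⟩
      exact ⟨⟨c1, c4⟩, ⟨c2, c5⟩⟩
    refine le_trans (measure_mono hsub) ?_
    rw [Measure.volume_eq_prod, Measure.prod_prod]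
    have l1 := area_small hH (s := s) (ρ := 2 * (T / 2 ^ J)) hT hs hP hPT (by positivity)
    have l2 := area_small hH' (s := s') (ρ := 2 * (T / 2 ^ J)) hT hs' hP hPT (by positivity)
    refine le_trans (mul_le_mul' l1 l2) ?_
    rw [← ENNReal.ofReal_mul (by positivity)]
    apply ENNReal.ofReal_le_ofReal
    have e1 : 256 * P * (2 * (T / 2 ^ J)) / T * (256 * P * (2 * (T / 2 ^ J)) / T) =
        2 ^ 18 * P ^ 2 / 4 ^ J := by
      have : (4 : ℝ) ^ J = 2 ^ J * 2 ^ J := by rw [← mul_pow]; norm_num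
      rw [this]
      field_simp
      ring
    rw [e1, div_le_div_iff₀ (by positivity) (by positivity)]
    have : 0 ≤ P ^ 2 := by positivity
    nlinarith [mul_le_mul_of_nonneg_left hJ this]
  refine le_trans (measure_mono h0) (le_trans (ind J) (le_trans (add_le_add hlast le_rfl) ?_))
  rw [← ENNReal.ofReal_add (by positivity) (by positivity)]
  apply ENNReal.ofReal_le_ofReal
  have e2 : 2 ^ 18 * P ^ 2 * d / (μ * T) = 64 * c := by rw [hc]; ring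
  have e3 : 2 ^ 18 * ((J : ℝ) + 1) * P ^ 2 * d / (μ * T) = 64 * c * (J + 1) := by rw [hc]; ring
  rw [e2, e3]
  have : 0 ≤ c * J := by positivity
  nlinarith

end Pool.Agent.Helper46_F5N
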