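import Pool.Agent.Helper68_F5.Cnt

/-!
MP_f5cbfa_nt, block N, both tangential components `n₂`, `n₃` small: number of pairs `(v, h)`.
-/

set_option autoImplicit false

open MeasureTheory

namespace Pool.Agent.Helper46_F5N

open Pool.Agent.Helper68_F5

/-- the difference of two points of a short piece of a strip is short -/
theorem short_piece {P c R W N : ℝ} {v₁ v₂ v₃ v z : ℂ} (t : Tri P c v₁ v₂ v₃) (hR : 18432 * P ^ 3 ≤ R)
    (hRc : R ≤ c) (hv : |‖v‖ - c| ≤ P) (h1 : |bf (A0 c v₁ v₂ v₃) v z| ≤ 2 * W)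
    (h2 : |wd v z| ≤ 2 * (N * R)) : ‖z‖ ≤ 8 * N + 8 * W / R := by
  have hP := t.hP
  have hP3 : 1 ≤ P ^ 3 := one_le_pow₀ hP
  have hR0 : 0 < R := by linarith
  have a1 : |sp v z| ≤ 2 * W + 4608 * P ^ 3 * ‖z‖ := by
    refine t.short hv ?_
    rw [bf_vc]
    exact h1
  have a2 : ‖v‖ * ‖z‖ ≤ |sp v z| + |wd v z| := by
    have e := sp_sq_add_wd_sq v z
    apply abs_le_of_sq_le_sq' _ (by positivity) |>.2
    rw [mul_pow, ← e, ← sq_abs (sp v z), ← sq_abs (wd v z)]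
    nlinarith [abs_nonneg (sp v z), abs_nonneg (wd v z)]
  have a3 : R / 2 ≤ ‖v‖ := by
    have := t.norm_ge hv
    linarith
  have a4 : R / 2 * ‖z‖ ≤ ‖v‖ * ‖z‖ := mul_le_mul_of_nonneg_right a3 (norm_nonneg _)
  have a5 : 4608 * P ^ 3 * ‖z‖ ≤ R / 4 * ‖z‖ := mul_le_mul_of_nonneg_right (by linarith) (norm_nonneg _)
  have a6 : R / 4 * ‖z‖ ≤ 2 * W + 2 * (N * R) := by linarith
  have a7 : ‖z‖ ≤ (8 * W + 8 * (N * R)) / R := by
    rw [le_div_iff₀ hR0]
    linarith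
  refine le_trans a7 (le_of_eq ?_)
  field_simp
  ring

/-- one piece of a strip -/
theorem dcount_piece (hst : StripStmt) : ∀ c₀ : ℝ, 0 < c₀ → ∃ K : ℝ, 1 ≤ K ∧ ∀ g : ℤ × ℤ →+ ℂ,
    Sep c₀ g → ∀ (P R c N W w : ℝ) (v₁ v₂ v₃ v : ℂ), Tri P c v₁ v₂ v₃ → 18432 * P ^ 3 ≤ R → R ≤ c →
      |‖v‖ - c| ≤ P → bf (A0 c v₁ v₂ v₃) v v = c ^ 2 → 0 ≤ N → 0 ≤ W →
      ∀ S : Finset (ℤ × ℤ), (∀ z ∈ S, |wd v (g z)| ≤ N * R) →
        (∀ z ∈ S, |bf (A0 c v₁ v₂ v₃) v (g z) - w| ≤ W) →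
        (S.card : ℝ) ≤ K * DP g P R (1 + 8 * N + 8 * W / R) W v := by
  classical
  intro c₀ hc₀
  obtain ⟨K, hK, h⟩ := dcount hst c₀ hc₀
  refine ⟨K, hK, ?_⟩
  intro g hg P R c N W w v₁ v₂ v₃ v t hR hRc hv hA hN hW S hS1 hS2
  have hP := t.hP
  have hP3 : 1 ≤ P ^ 3 := one_le_pow₀ hP
  have hR1 : 1 ≤ R := by linarith
  have hR0 : 0 < R := by linarith
  have hV0 : (0 : ℝ) ≤ 1 + 8 * N + 8 * W / R := by positivity
  rcases S.eq_empty_or_nonempty with h0 | ⟨z₀, hz₀⟩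
  · rw [h0, Finset.card_empty, Nat.cast_zero]
    have := DP_nonneg g (P := P) hV0 hW hR0.le v
    have : 0 ≤ DP g P R (1 + 8 * N + 8 * W / R) W v := by linarith
    exact mul_nonneg (by linarith) this
  have hinj : Set.InjOn (fun z : ℤ × ℤ => z - z₀) (S : Set (ℤ × ℤ)) := by
    intro x _ y _ hxy
    exact sub_left_injective hxy
  rw [← Finset.card_image_of_injOn hinj]
  refine h g hg P R c (1 + 8 * N + 8 * W / R) W (w - bf (A0 c v₁ v₂ v₃) v (g z₀)) v₁ v₂ v₃ v t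
    hR1 hRc hv hA ?_ hW _ ?_ ?_
  · have : 0 ≤ 8 * W / R := by positivity
    linarith
  · intro z hz
    rw [Finset.mem_image] at hz
    obtain ⟨y, hy, rfl⟩ := hz
    have e1 : |bf (A0 c v₁ v₂ v₃) v (g (y - z₀))| ≤ 2 * W := by
      have e : bf (A0 c v₁ v₂ v₃) v (g (y - z₀)) = (bf (A0 c v₁ v₂ v₃) v (g y) - w) -
          (bf (A0 c v₁ v₂ v₃) v (g z₀) - w) := by
        rw [map_sub, bf_sub]; ring
      rw [e]
      refine le_trans (abs_sub _ _) ?_
      have := hS2 y hy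
      have := hS2 z₀ hz₀
      linarith
    have e2 : |wd v (g (y - z₀))| ≤ 2 * (N * R) := by
      rw [map_sub, wd_sub]
      refine le_trans (abs_sub _ _) ?_
      have := hS1 y hy
      have := hS1 z₀ hz₀
      linarith
    have := short_piece t hR hRc hv e1 e2
    linarith
  · intro z hz
    rw [Finset.mem_image] at hz
    obtain ⟨y, hy, rfl⟩ := hz
    have e : bf (A0 c v₁ v₂ v₃) v (g (y - z₀)) - (w - bf (A0 c v₁ v₂ v₃) v (g z₀)) =
        bf (A0 c v₁ v₂ v₃) v (g y) - w := by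
      rw [map_sub, bf_sub]; ring
    rw [e]
    exact hS2 y hy

/-- pairs `(v₃, h₃)` with a small tangential component -/
theorem third_count (has : AnnStripStmt) (han : AnnStmt) (hds : DiscStripStmt) (hsh : ShortStmt) :
    ∀ c₀ : ℝ, 0 < c₀ → ∃ K : ℝ, 1 ≤ K ∧ ∀ g : ℤ × ℤ →+ ℂ, Sep c₀ g →
    ∀ (P R τ V N : ℝ), 1 ≤ P → 4 * P ≤ τ → R ≤ τ → τ ≤ 2 * R → 1 ≤ V → 0 ≤ N →
      ∀ 𝓠 : Finset ((ℤ × ℤ) × (ℤ × ℤ)),
        (∀ q ∈ 𝓠, |‖g q.1‖ - τ| ≤ P ∧ ‖g q.2‖ ≤ V ∧ |wd (g q.1) (g q.2)| ≤ N * R) →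
        (𝓠.card : ℝ) ≤ K * P * (V ^ 2 + N * R * V + R) := by
  classical
  intro c₀ hc₀
  obtain ⟨K₁, hK₁, h1⟩ := has c₀ hc₀
  obtain ⟨K₂, hK₂, h2⟩ := han c₀ hc₀
  obtain ⟨K₃, hK₃, h3⟩ := hds c₀ hc₀
  obtain ⟨K₄, hK₄, h4⟩ := hsh c₀ hc₀
  refine ⟨K₁ * (2 * K₃ + K₄) + 3 * K₂, by nlinarith [mul_le_mul hK₁ hK₃ zero_le_one (by linarith)], ?_⟩
  intro g hg P R τ V N hP hτ hRτ hτR hV hN 𝓠 h𝓠
  have hR0 : 0 < R := by linarith
  -- fibres over `h₃`
  have e1 : (𝓠.card : ℝ) = ∑ b ∈ 𝓠.image (fun q => q.2), ((𝓠.filter (fun q => q.2 = b)).card : ℝ) := by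
    rw [Finset.card_eq_sum_card_image (fun q : (ℤ × ℤ) × (ℤ × ℤ) => q.2) 𝓠]; push_cast; rfl
  have hinj : ∀ b : ℤ × ℤ, Set.InjOn (fun q : (ℤ × ℤ) × (ℤ × ℤ) => q.1)
      (𝓠.filter (fun q => q.2 = b) : Finset _) := by
    intro b x hx y hy hxy
    rw [Finset.mem_coe, Finset.mem_filter] at hx hy
    exact Prod.ext hxy (hx.2.trans hy.2.symm)
  -- the bound of a fibre
  have fib : ∀ b ∈ (𝓠.image (fun q => q.2)), b ≠ 0 →
      ((𝓠.filter (fun q => q.2 = b)).card : ℝ) ≤ K₁ * P * (1 + N * R * (1 / ‖g b‖)) := by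
    intro b _ hb
    have hgb : g b ≠ 0 := by
      intro h0
      have := hg b hb
      rw [h0, norm_zero] at this
      linarith
    obtain ⟨u, hu⟩ : ∃ u : ℂ, u = ⟨(g b).im, -(g b).re⟩ := ⟨_, rfl⟩
    have hun : ‖u‖ = ‖g b‖ := by
      have h5 : ‖u‖ ^ 2 = ‖g b‖ ^ 2 := by
        rw [Complex.sq_norm, Complex.sq_norm, Complex.normSq_apply, Complex.normSq_apply, hu]
        ring
      have := congrArg Real.sqrt h5
      rwa [Real.sqrt_sq (norm_nonneg _), Real.sqrt_sq (norm_nonneg _)] at this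
    have hu0 : u ≠ 0 := by
      rw [← norm_pos_iff, hun, norm_pos_iff]; exact hgb
    have hsp : ∀ z : ℂ, sp z u = wd z (g b) := by
      intro z; rw [hu]; simp only [sp, wd]; ring
    rw [← Finset.card_image_of_injOn (hinj b)]
    have := h1 g hg u hu0 τ P (N * R) hP hτ (by positivity)
      ((𝓠.filter (fun q => q.2 = b)).image (fun q => q.1)) (by
        intro z hz
        rw [Finset.mem_image] at hz
        obtain ⟨q, hq, rfl⟩ := hz
        rw [Finset.mem_filter] at hq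
        obtain ⟨a, _, c⟩ := h𝓠 q hq.1
        rw [hsp, ← hq.2]
        exact ⟨a, c⟩)
    refine le_trans this (le_of_eq ?_)
    rw [hun]; ring
  have fib0 : ((𝓠.filter (fun q => q.2 = 0)).card : ℝ) ≤ 3 * K₂ * P * R := by
    rw [← Finset.card_image_of_injOn (hinj 0)]
    have := h2 g hg τ P hP (by linarith)
      ((𝓠.filter (fun q => q.2 = 0)).image (fun q => q.1)) (by
        intro z hz
        rw [Finset.mem_image] at hz
        obtain ⟨q, hq, rfl⟩ := hz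
        rw [Finset.mem_filter] at hq
        exact (h𝓠 q hq.1).1)
    refine le_trans this ?_
    calc K₂ * P * (τ + P) ≤ K₂ * P * (3 * R) :=
          mul_le_mul_of_nonneg_left (by linarith) (by positivity)
      _ = _ := by ring
  obtain ⟨B, hB⟩ : ∃ B, B = (𝓠.image (fun q => q.2)).filter (fun b => b ≠ 0) := ⟨_, rfl⟩
  have hBV : ∀ b ∈ B, b ≠ 0 ∧ ‖g b‖ ≤ V := by
    intro b hb
    rw [hB, Finset.mem_filter, Finset.mem_image] at hb
    obtain ⟨⟨q, hq, rfl⟩, h5⟩ := hb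
    exact ⟨h5, (h𝓠 q hq).2.1⟩
  -- number of elements of `B`
  have cB : (B.card : ℝ) ≤ K₃ * V * (1 + V) := by
    refine h3 g hg 1 one_ne_zero V V hV (by linarith) B (fun z hz => ⟨(hBV z hz).2, ?_⟩) |>.trans ?_
    · refine le_trans (abs_sp_le _ _) ?_
      rw [norm_one, mul_one]
      exact (hBV z hz).2
    · rw [norm_one, div_one]
  have cS : ∑ b ∈ B, 1 / ‖g b‖ ≤ K₄ * V := by
    refine le_trans ?_ (h4 g hg V hV).1
    refine Finset.sum_le_sum_of_subset_of_nonneg ?_ fun z _ _ => by positivity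
    intro z hz
    obtain ⟨h5, h6⟩ := hBV z hz
    rw [Finset.mem_filter]
    refine ⟨?_, h5⟩
    -- membership in the ball
    have hfin : {z : ℤ × ℤ | ‖g z‖ ≤ V}.Finite := by
      by_contra hinf
      have hinf' : {z : ℤ × ℤ | ‖g z‖ ≤ V}.Infinite := hinf
      obtain ⟨n, hn⟩ := exists_nat_gt (K₃ * V * (1 + V))
      obtain ⟨s, hs1, hs2⟩ := hinf'.exists_subset_card_eq n
      have h7 := h3 g hg 1 one_ne_zero V V hV (by linarith) s (fun z hz => by
        have h8 : ‖g z‖ ≤ V := hs1 (by exact_mod_cast hz)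
        refine ⟨h8, le_trans (abs_sp_le _ _) ?_⟩
        rw [norm_one, mul_one]; exact h8)
      rw [norm_one, div_one, hs2] at h7
      linarith
    unfold lt
    rw [dif_pos hfin, Set.Finite.mem_toFinset]
    exact h6
  have e2 : ∑ b ∈ 𝓠.image (fun q => q.2), ((𝓠.filter (fun q => q.2 = b)).card : ℝ) ≤
      ∑ b ∈ B, K₁ * P * (1 + N * R * (1 / ‖g b‖)) + 3 * K₂ * P * R := by
    by_cases h0 : (0 : ℤ × ℤ) ∈ 𝓠.image (fun q => q.2)
    · have h5 : 𝓠.image (fun q => q.2) = insert 0 B := by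
        ext b
        rw [hB, Finset.mem_insert, Finset.mem_filter]
        constructor
        · intro hb
          by_cases hb0 : b = 0
          · exact Or.inl hb0
          · exact Or.inr ⟨hb, hb0⟩
        · rintro (rfl | h)
          · exact h0
          · exact h.1
      have h6 : (0 : ℤ × ℤ) ∉ B := by rw [hB, Finset.mem_filter]; simp
      rw [h5, Finset.sum_insert h6, add_comm]
      refine add_le_add (Finset.sum_le_sum fun b hb => ?_) fib0
      rw [hB, Finset.mem_filter] at hb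
      exact fib b hb.1 hb.2
    · have h5 : 𝓠.image (fun q => q.2) = B := by
        ext b
        rw [hB, Finset.mem_filter]
        constructor
        · intro hb
          exact ⟨hb, fun h => h0 (h ▸ hb)⟩
        · exact fun h => h.1
      rw [h5]
      have h6 : 0 ≤ 3 * K₂ * P * R := by positivity
      refine le_trans (Finset.sum_le_sum fun b hb => ?_) (le_add_of_nonneg_right h6)
      rw [hB, Finset.mem_filter] at hb
      exact fib b hb.1 hb.2
  rw [e1]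
  refine le_trans e2 ?_
  rw [← Finset.mul_sum, Finset.sum_add_distrib, Finset.sum_const, nsmul_eq_mul, mul_one,
    ← Finset.mul_sum]
  have a1 : K₁ * P * (B.card + N * R * ∑ b ∈ B, 1 / ‖g b‖) ≤
      K₁ * P * (2 * K₃ * V ^ 2 + N * R * (K₄ * V)) := by
    refine mul_le_mul_of_nonneg_left ?_ (by positivity)
    refine add_le_add ?_ (mul_le_mul_of_nonneg_left cS (by positivity))
    refine le_trans cB ?_
    have : K₃ * V * (1 + V) ≤ K₃ * V * (2 * V) := mul_le_mul_of_nonneg_left (by linarith) (by positivity)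
    nlinarith
  have hK₁0 : 0 < K₁ := by linarith
  have hK₂0 : 0 < K₂ := by linarith
  have hK₃0 : 0 < K₃ := by linarith
  have hK₄0 : 0 < K₄ := by linarith
  have a2 : K₁ * P * (2 * K₃ * V ^ 2 + N * R * (K₄ * V)) + 3 * K₂ * P * R ≤
      (K₁ * (2 * K₃ + K₄) + 3 * K₂) * P * (V ^ 2 + N * R * V + R) := by
    have b1 : 0 ≤ K₁ * P * K₄ * V ^ 2 := by positivity
    have b2 : 0 ≤ K₁ * P * (2 * K₃) * (N * R * V) := by positivity
    have b3 : 0 ≤ K₁ * P * (2 * K₃ + K₄) * R := by positivity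
    have b4 : 0 ≤ 3 * K₂ * P * (V ^ 2 + N * R * V) := by positivity
    nlinarith
  linarith

end Pool.Agent.Helper46_F5N
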