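import Pool.Agent.Helper46_F5N.Iso

/-!
MP_f5cbfa_nt, block N: the trivial sum over `v` of the volumes, and the number of `h` with nearly
equal norms.
-/

set_option autoImplicit false

open MeasureTheory

namespace Pool.Agent.Helper46_F5N

open Pool.Agent.Helper68_F5 Pool.Agent.Helper38_F5

theorem closed_near (g : ℤ × ℤ →+ ℂ) {P T R' : ℝ} (hT : 0 < T) (v : T3) :
    IsClosed {m : ℂ × ℂ × ℂ | Near g P T R' m v} := by
  obtain ⟨a, ha⟩ : ∃ a : ℝ, a = R' / T := ⟨_, rfl⟩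
  obtain ⟨S, hS⟩ : ∃ S : Set ((ℂ × ℂ × ℂ) × Set.Icc (-a) a), S = {p |
    ‖g v.1 - ((p.2 : ℝ) : ℂ) * p.1.1‖ ≤ P ∧ ‖g v.2.1 - ((p.2 : ℝ) : ℂ) * p.1.2.1‖ ≤ P ∧
    ‖g v.2.2 - ((p.2 : ℝ) : ℂ) * p.1.2.2‖ ≤ P} := ⟨_, rfl⟩
  have hc : IsClosed S := by
    have c0 : Continuous (fun p : (ℂ × ℂ × ℂ) × Set.Icc (-a) a => (((p.2 : ℝ)) : ℂ)) :=
      Complex.continuous_ofReal.comp (continuous_subtype_val.comp continuous_snd)
    have c1 : Continuous (fun p : (ℂ × ℂ × ℂ) × Set.Icc (-a) a =>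
        ‖g v.1 - ((p.2 : ℝ) : ℂ) * p.1.1‖) :=
      (continuous_const.sub (c0.mul continuous_fst.fst)).norm
    have c2 : Continuous (fun p : (ℂ × ℂ × ℂ) × Set.Icc (-a) a =>
        ‖g v.2.1 - ((p.2 : ℝ) : ℂ) * p.1.2.1‖) :=
      (continuous_const.sub (c0.mul continuous_fst.snd.fst)).norm
    have c3 : Continuous (fun p : (ℂ × ℂ × ℂ) × Set.Icc (-a) a =>
        ‖g v.2.2 - ((p.2 : ℝ) : ℂ) * p.1.2.2‖) :=
      (continuous_const.sub (c0.mul continuous_fst.snd.snd)).norm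
    rw [hS]
    exact (isClosed_le c1 continuous_const).inter ((isClosed_le c2 continuous_const).inter
      (isClosed_le c3 continuous_const))
  have him := isClosedMap_fst_of_compactSpace (X := ℂ × ℂ × ℂ) (Y := Set.Icc (-a) a) S hc
  have e : {m : ℂ × ℂ × ℂ | Near g P T R' m v} = Prod.fst '' S := by
    ext m
    rw [Set.mem_ofPred_eq, Set.mem_image]
    constructor
    · rintro ⟨ν, h1, h2, h3, h4⟩
      have h5 : |ν| ≤ a := by rw [ha, le_div_iff₀ hT]; exact h1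
      refine ⟨(m, ⟨ν, abs_le.1 h5⟩), ?_, rfl⟩
      rw [hS]
      exact ⟨h2, h3, h4⟩
    · rintro ⟨⟨m', ν, hν⟩, hp, rfl⟩
      rw [hS] at hp
      refine ⟨ν, ?_, hp.1, hp.2.1, hp.2.2⟩
      have : |ν| ≤ a := abs_le.2 hν
      rw [ha, le_div_iff₀ hT] at this
      exact this
  rw [e]
  exact him

theorem vsum (hbox : BoxStmt) : ∀ c₀ : ℝ, 0 < c₀ → ∃ K : ℝ, 1 ≤ K ∧
    ∀ g : ℤ × ℤ →+ ℂ, Sep c₀ g → ∀ (P T R' : ℝ), 1 ≤ P → 1 ≤ T → 0 ≤ R' →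
      ∀ E : Set (ℂ × ℂ × ℂ), MeasurableSet E →
      (∀ m ∈ E, ‖m.1‖ ≤ 2 * T ∧ ‖m.2.1‖ ≤ 2 * T ∧ ‖m.2.2‖ ≤ 2 * T) → ∀ 𝓥 : Finset T3,
      ∑ v ∈ 𝓥, volume (E ∩ {m | Near g P T R' m v}) ≤
        ENNReal.ofReal (K * P ^ 6 * (R' + 1)) * volume E := by
  classical
  intro c₀ hc₀
  obtain ⟨K, hK, h⟩ := ray_count hbox c₀ hc₀
  refine ⟨K, hK, ?_⟩
  intro g hg P T R' hP hT hR' E hE hEm 𝓥
  have hT0 : 0 < T := by linarith
  have hN : ∀ v, MeasurableSet {m : ℂ × ℂ × ℂ | Near g P T R' m v} :=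
    fun v => (closed_near g hT0 v).measurableSet
  have e1 : ∀ v ∈ 𝓥, volume (E ∩ {m | Near g P T R' m v}) =
      ∫⁻ m in E, ({m | Near g P T R' m v} : Set (ℂ × ℂ × ℂ)).indicator (fun _ => (1 : ENNReal)) m := by
    intro v _
    rw [lintegral_indicator (hN v), lintegral_const, one_mul, Measure.restrict_restrict (hN v),
      Measure.restrict_apply_univ, Set.inter_comm]
  rw [Finset.sum_congr rfl e1, ← lintegral_finsetSum]
  · calc ∫⁻ m in E, ∑ v ∈ 𝓥, ({m | Near g P T R' m v} : Set (ℂ × ℂ × ℂ)).indicator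
          (fun _ => (1 : ENNReal)) m ≤ ∫⁻ _m in E, ENNReal.ofReal (K * P ^ 6 * (R' + 1)) := by
          refine setLIntegral_mono measurable_const fun m hm => ?_
          obtain ⟨a1, a2, a3⟩ := hEm m hm
          have e2 : ∑ v ∈ 𝓥, ({m | Near g P T R' m v} : Set (ℂ × ℂ × ℂ)).indicator
              (fun _ => (1 : ENNReal)) m = ((𝓥.filter (fun v => Near g P T R' m v)).card : ENNReal) := by
            rw [Finset.card_filter]
            push_cast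
            refine Finset.sum_congr rfl fun v _ => ?_
            by_cases hv : Near g P T R' m v
            · rw [Set.indicator_of_mem (by exact hv), if_pos hv]
            · rw [Set.indicator_of_notMem (by exact hv), if_neg hv]
          rw [e2]
          have := h g hg P T R' m hP hT hR' a1 a2 a3 (𝓥.filter (fun v => Near g P T R' m v))
            (fun v hv => (Finset.mem_filter.1 hv).2)
          rw [← ENNReal.ofReal_natCast]
          exact ENNReal.ofReal_le_ofReal this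
    _ = _ := by rw [lintegral_const, Measure.restrict_apply_univ]
  · intro v _
    exact (measurable_const.indicator (hN v))

/-- norms of `H` in a tube with small transversal components -/
theorem norm_close {P T d ρ V : ℝ} {m m' H H' : ℂ} (hT : 0 < T) (hV : ‖H‖ ≤ V) (hV' : ‖H'‖ ≤ V)
    (hH : 0 < ‖H‖) (hH' : 0 < ‖H'‖)
    (h : |‖m‖ ^ 2 + ‖H‖ ^ 2 / 4 - T ^ 2| ≤ P) (h' : |‖m'‖ ^ 2 + ‖H'‖ ^ 2 / 4 - T ^ 2| ≤ P)
    (hd : |sp m H - sp m' H'| ≤ d) (hw : |wd m H| ≤ ρ * ‖H‖) (hw' : |wd m' H'| ≤ ρ * ‖H'‖) :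
    |‖H‖ - ‖H'‖| ≤ (d + 2 * (V * (V ^ 2 + P + ρ ^ 2) / T)) / T := by
  have one : ∀ {m H : ℂ}, ‖H‖ ≤ V → 0 < ‖H‖ → |‖m‖ ^ 2 + ‖H‖ ^ 2 / 4 - T ^ 2| ≤ P →
      |wd m H| ≤ ρ * ‖H‖ → abs (T * ‖H‖ - |sp m H|) ≤ V * (V ^ 2 + P + ρ ^ 2) / T := by
    intro m H hV hH h hw
    have e := sp_sq_add_wd_sq m H
    have h1 := abs_le.1 h
    have h2 : wd m H ^ 2 ≤ ρ ^ 2 * ‖H‖ ^ 2 := by
      rw [← sq_abs, ← mul_pow]
      exact pow_le_pow_left₀ (abs_nonneg _) hw 2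
    have hHV : ‖H‖ ^ 2 ≤ V ^ 2 := pow_le_pow_left₀ hH.le hV 2
    have e1 : (T * ‖H‖ - |sp m H|) * (T * ‖H‖ + |sp m H|) = ‖H‖ ^ 2 * (T ^ 2 - ‖m‖ ^ 2) +
        wd m H ^ 2 := by
      have : |sp m H| ^ 2 = ‖m‖ ^ 2 * ‖H‖ ^ 2 - wd m H ^ 2 := by rw [sq_abs]; linarith
      calc (T * ‖H‖ - |sp m H|) * (T * ‖H‖ + |sp m H|) = T ^ 2 * ‖H‖ ^ 2 - |sp m H| ^ 2 := by ring
        _ = _ := by rw [this]; ring
    have hpos : 0 < T * ‖H‖ + |sp m H| := by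
      have := abs_nonneg (sp m H)
      have := mul_pos hT hH
      linarith
    have h3 : |‖H‖ ^ 2 * (T ^ 2 - ‖m‖ ^ 2) + wd m H ^ 2| ≤ ‖H‖ ^ 2 * (V ^ 2 + P + ρ ^ 2) := by
      have hH2 : 0 < ‖H‖ ^ 2 := by positivity
      have c1 : T ^ 2 - ‖m‖ ^ 2 ≤ V ^ 2 + P := by nlinarith
      have c2 : -(V ^ 2 + P) ≤ T ^ 2 - ‖m‖ ^ 2 := by nlinarith
      have c3 := mul_le_mul_of_nonneg_left c1 hH2.le
      have c4 := mul_le_mul_of_nonneg_left c2 hH2.le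
      rw [abs_le]
      constructor
      · nlinarith [sq_nonneg (wd m H), mul_nonneg hH2.le (sq_nonneg ρ)]
      · nlinarith
    have h4 : abs (T * ‖H‖ - |sp m H|) * (T * ‖H‖ + |sp m H|) ≤ ‖H‖ ^ 2 * (V ^ 2 + P + ρ ^ 2) := by
      have e3 : abs (T * ‖H‖ - |sp m H|) * (T * ‖H‖ + |sp m H|) =
          |(T * ‖H‖ - |sp m H|) * (T * ‖H‖ + |sp m H|)| := by
        rw [abs_mul, abs_of_pos hpos]
      rw [e3, e1]
      exact h3
    have h5 : abs (T * ‖H‖ - |sp m H|) * (T * ‖H‖) ≤ ‖H‖ ^ 2 * (V ^ 2 + P + ρ ^ 2) :=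
      le_trans (mul_le_mul_of_nonneg_left (by linarith [abs_nonneg (sp m H)]) (abs_nonneg _)) h4
    have h6 : abs (T * ‖H‖ - |sp m H|) * T ≤ ‖H‖ * (V ^ 2 + P + ρ ^ 2) := by
      have : (abs (T * ‖H‖ - |sp m H|) * T) * ‖H‖ ≤ (‖H‖ * (V ^ 2 + P + ρ ^ 2)) * ‖H‖ := by
        nlinarith
      exact le_of_mul_le_mul_right this hH
    rw [le_div_iff₀ hT]
    refine le_trans h6 (mul_le_mul_of_nonneg_right hV ?_)
    have hPn : 0 ≤ P := le_trans (abs_nonneg _) h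
    positivity
  have o1 := one hV hH h hw
  have o2 := one hV' hH' h' hw'
  have o3 : abs (|sp m H| - |sp m' H'|) ≤ d := le_trans (abs_abs_sub_abs_le_abs_sub _ _) hd
  rw [le_div_iff₀ hT]
  have e : |‖H‖ - ‖H'‖| * T = |(T * ‖H‖ - |sp m H|) - (T * ‖H'‖ - |sp m' H'|) +
      (|sp m H| - |sp m' H'|)| := by
    rw [show (T * ‖H‖ - |sp m H|) - (T * ‖H'‖ - |sp m' H'|) + (|sp m H| - |sp m' H'|) =
      (‖H‖ - ‖H'‖) * T by ring, abs_mul, abs_of_pos hT]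
  rw [e]
  refine le_trans (abs_add_le _ _) ?_
  have := abs_sub (T * ‖H‖ - |sp m H|) (T * ‖H'‖ - |sp m' H'|)
  linarith

/-- number of triples with nearly equal norms -/
theorem hclose (hbox : BoxStmt) (han : AnnStmt) : ∀ c₀ : ℝ, 0 < c₀ → ∃ K : ℝ, 1 ≤ K ∧
    ∀ g : ℤ × ℤ →+ ℂ, Sep c₀ g → ∀ (V W : ℝ), 1 ≤ V → 1 ≤ W → W ≤ 4 * V → ∀ 𝓗 : Finset T3,
      (∀ h ∈ 𝓗, ‖g h.1‖ ≤ V ∧ |‖g h.2.1‖ - ‖g h.1‖| ≤ W ∧ |‖g h.2.2‖ - ‖g h.1‖| ≤ W) →
      (𝓗.card : ℝ) ≤ K * V ^ 4 * W ^ 2 := by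
  classical
  intro c₀ hc₀
  obtain ⟨K₁, hK₁, h1⟩ := ball_count hbox c₀ hc₀
  obtain ⟨K₂, hK₂, h2⟩ := han c₀ hc₀
  refine ⟨K₁ * (5 * K₂) ^ 2, by nlinarith [one_le_pow₀ (by linarith : (1 : ℝ) ≤ 5 * K₂) (n := 2)], ?_⟩
  intro g hg V W hV hW hWV 𝓗 h𝓗
  have fib : ∀ b : ℤ × ℤ, ((𝓗.filter (fun h => h.1 = b)).card : ℝ) ≤ (5 * K₂ * W * V) ^ 2 := by
    intro b
    obtain ⟨𝓕, h𝓕⟩ : ∃ 𝓕, 𝓕 = 𝓗.filter (fun h => h.1 = b) := ⟨_, rfl⟩
    rw [← h𝓕]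
    have hF : ∀ h ∈ 𝓕, h ∈ 𝓗 ∧ h.1 = b := by
      intro h hh; rw [h𝓕, Finset.mem_filter] at hh; exact hh
    rcases 𝓕.eq_empty_or_nonempty with h0 | ⟨h₀, hh₀⟩
    · rw [h0, Finset.card_empty, Nat.cast_zero]; positivity
    have hb : ‖g b‖ ≤ V := by
      rw [← (hF h₀ hh₀).2]; exact (h𝓗 h₀ (hF h₀ hh₀).1).1
    have hinj : Set.InjOn (fun h : T3 => h.2) (𝓕 : Set T3) := by
      intro x hx y hy hxy
      exact Prod.ext ((hF x hx).2.trans (hF y hy).2.symm) hxy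
    rw [← Finset.card_image_of_injOn hinj]
    have hsub : 𝓕.image (fun h => h.2) ⊆ (𝓕.image (fun h => h.2.1)) ×ˢ
        (𝓕.image (fun h => h.2.2)) := by
      intro q hq
      rw [Finset.mem_image] at hq
      obtain ⟨h, hh, rfl⟩ := hq
      rw [Finset.mem_product]
      exact ⟨Finset.mem_image_of_mem (fun h : T3 => h.2.1) hh,
        Finset.mem_image_of_mem (fun h : T3 => h.2.2) hh⟩
    have hc := Finset.card_le_card hsub
    rw [Finset.card_product] at hc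
    have hc' : ((𝓕.image (fun h => h.2)).card : ℝ) ≤ ((𝓕.image (fun h => h.2.1)).card : ℝ) *
        ((𝓕.image (fun h => h.2.2)).card : ℝ) := by exact_mod_cast hc
    have hK2 : K₂ * W * (‖g b‖ + W) ≤ 5 * K₂ * W * V := by
      have : ‖g b‖ + W ≤ 5 * V := by linarith
      calc K₂ * W * (‖g b‖ + W) ≤ K₂ * W * (5 * V) :=
            mul_le_mul_of_nonneg_left this (by positivity)
        _ = _ := by ring
    have i1 : ((𝓕.image (fun h => h.2.1)).card : ℝ) ≤ 5 * K₂ * W * V := by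
      refine le_trans (h2 g hg ‖g b‖ W hW (norm_nonneg _) _ ?_) hK2
      intro z hz
      rw [Finset.mem_image] at hz
      obtain ⟨h, hh, rfl⟩ := hz
      rw [← (hF h hh).2]
      exact (h𝓗 h (hF h hh).1).2.1
    have i2 : ((𝓕.image (fun h => h.2.2)).card : ℝ) ≤ 5 * K₂ * W * V := by
      refine le_trans (h2 g hg ‖g b‖ W hW (norm_nonneg _) _ ?_) hK2
      intro z hz
      rw [Finset.mem_image] at hz
      obtain ⟨h, hh, rfl⟩ := hz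
      rw [← (hF h hh).2]
      exact (h𝓗 h (hF h hh).1).2.2
    refine le_trans hc' ?_
    rw [sq]
    exact mul_le_mul i1 i2 (by positivity) (by positivity)
  have him : ((𝓗.image (fun h => h.1)).card : ℝ) ≤ K₁ * V ^ 2 := by
    refine h1 g hg V 0 hV _ ?_
    intro z hz
    rw [Finset.mem_image] at hz
    obtain ⟨h, hh, rfl⟩ := hz
    rw [sub_zero]
    exact (h𝓗 h hh).1
  have key := card_fib (fun h : T3 => h.1) (by positivity) fib him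
  refine le_trans key (le_of_eq ?_)
  ring

end Pool.Agent.Helper46_F5N
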